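import Pool.Agent.Lib.MP_b07157_ag.N3.PXDefs

/-!
# Relations between the classes of the initial forms
-/

noncomputable section

namespace MPb07157

open MvPolynomial Finset

variable {n : ℕ}

theorem cls_point1 : cls {x : Fin 1 → ℂ | x 0 = 0} = 1 := by
  have h0 : cls (Set.univ : Set (Fin 0 → ℂ)) = 1 := by
    rw [cls_univ_eq]; simp
  rw [← h0]
  symm
  have hc : IsConstr {x : Fin 1 → ℂ | x 0 = 0} := by
    have := isConstr_eq_zero (X 0 : MvPolynomial (Fin 1) ℂ)
    simpa using this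
  refine cls_bijOn IsConstr.univ hc (fun _ => 0) ⟨?_, ?_, ?_⟩
  · intro x _
    simp [polyMap]
  · intro x _ y _ _
    exact Subsingleton.elim x y
  · intro y hy
    refine ⟨0, Set.mem_univ _, ?_⟩
    funext i
    have hi : i = 0 := Subsingleton.elim _ _
    rw [hi]
    have : y 0 = 0 := hy
    simp [polyMap, this]

theorem isConstr_torus1 : IsConstr {x : Fin 1 → ℂ | x 0 ≠ 0} := by
  have := isConstr_ne_zero (X 0 : MvPolynomial (Fin 1) ℂ)
  simpa using this

theorem cls_torus1 : cls {x : Fin 1 → ℂ | x 0 ≠ 0} = L - 1 := by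
  have hc : IsConstr {x : Fin 1 → ℂ | x 0 = 0} := by
    have := isConstr_eq_zero (X 0 : MvPolynomial (Fin 1) ℂ)
    simpa using this
  have hd : Disjoint {x : Fin 1 → ℂ | x 0 ≠ 0} {x : Fin 1 → ℂ | x 0 = 0} := by
    rw [Set.disjoint_left]
    intro x h1 h2
    exact h1 h2
  have h := cls_union isConstr_torus1 hc hd
  have hu : {x : Fin 1 → ℂ | x 0 ≠ 0} ∪ {x : Fin 1 → ℂ | x 0 = 0} = Set.univ := by
    ext x
    simp only [Set.mem_union, Set.mem_ofPred_eq, Set.mem_univ, iff_true]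
    tauto
  rw [hu, cls_univ_eq, cls_point1] at h
  rw [Fintype.card_fin, pow_one] at h
  rw [h]
  ring

/-- The product of a set with the one-dimensional torus, in the coordinates `τ`. -/
theorem cls_mul_torus {σ τ : Type} [Fintype σ] [Fintype τ] (e : σ ⊕ Fin 1 ≃ τ)
    {A : Set (σ → ℂ)} (hA : IsConstr A) :
    cls {x : τ → ℂ | (fun i => x (e (Sum.inl i))) ∈ A ∧ x (e (Sum.inr 0)) ≠ 0} =
      cls A * (L - 1) := by
  rw [← cls_torus1, ← cls_prodSum hA isConstr_torus1,
    ← cls_equiv e (isConstr_prodSum hA isConstr_torus1)]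
  rfl

/-- The torus. -/
theorem cls_torus (σ : Type) [Fintype σ] :
    cls {x : σ → ℂ | ∀ j, x j ≠ 0} = (L - 1) ^ Fintype.card σ := by
  have hc : ∀ (τ : Type) [Fintype τ], IsConstr {x : τ → ℂ | ∀ j, x j ≠ 0} := by
    intro τ _
    have h := isConstr_forall_mem (σ := τ) Finset.univ
      (fun j u => u j ≠ 0) (fun j _ => by
        have := isConstr_ne_zero (X j : MvPolynomial τ ℂ)
        simpa using this)
    simpa using h
  have key : ∀ k : ℕ, cls {x : Fin k → ℂ | ∀ j, x j ≠ 0} = (L - 1) ^ k := by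
    intro k
    induction k with
    | zero =>
      have h : {x : Fin 0 → ℂ | ∀ j, x j ≠ 0} = Set.univ := by
        ext x; simp
      rw [h, cls_univ_eq]
      simp
    | succ k ih =>
      rw [pow_succ, ← ih, ← cls_mul_torus (finSumFinEquiv : Fin k ⊕ Fin 1 ≃ Fin (k + 1)) (hc _)]
      congr 1
      ext x
      simp only [Set.mem_ofPred_eq]
      constructor
      · intro h
        exact ⟨fun i => h _, h _⟩
      · rintro ⟨h1, h2⟩ j
        obtain ⟨i, rfl⟩ := (finSumFinEquiv : Fin k ⊕ Fin 1 ≃ Fin (k + 1)).surjective j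
        rcases i with i | i
        · exact h1 i
        · rw [Subsingleton.elim i 0]; exact h2
  rw [← key, ← cls_equiv (Fintype.equivFin σ) (hc σ)]
  congr 1
  ext x
  simp only [Set.mem_ofPred_eq]
  constructor
  · intro h j
    obtain ⟨i, rfl⟩ := (Fintype.equivFin σ).surjective j
    exact h i
  · intro h i
    exact h _

theorem clsM_XS_add_YS (f : MvPolynomial (Fin n) ℂ) (I : Finset (Fin n →₀ ℕ))
    (S : Finset (Fin n)) :
    clsM (XS f I S) + clsM (YS f I S) = ((LU : Mot) - 1) ^ Fintype.card {j // j ∉ S} := by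
  have hd : Disjoint (XS f I S) (YS f I S) := by
    rw [Set.disjoint_left]
    intro x h1 h2
    exact h2.2 h1.2
  have hu : XS f I S ∪ YS f I S = {x : {j // j ∉ S} → ℂ | ∀ j, x j ≠ 0} := by
    ext x
    simp only [Set.mem_union, XS, YS, Set.mem_ofPred_eq]
    tauto
  unfold clsM
  rw [← map_add, ← cls_union (isConstr_XS f I S) (isConstr_YS f I S) hd, hu, cls_torus]
  rw [map_pow, map_sub, map_one]
  rfl

/-- The coordinates outside `S`, for `j ∉ S`. -/
def insEquiv {S : Finset (Fin n)} {j : Fin n} (hjS : j ∉ S) :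
    {i // i ∉ insert j S} ⊕ Fin 1 ≃ {i // i ∉ S} :=
  Equiv.ofBijective (fun i => match i with
    | .inl i => ⟨i.1, fun h => i.2 (Finset.mem_insert_of_mem h)⟩
    | .inr _ => ⟨j, hjS⟩) (by
    constructor
    · rintro (a | a) (b | b) h
      · simp only [Subtype.mk.injEq] at h
        rw [Subtype.ext h]
      · simp only [Subtype.mk.injEq] at h
        exact absurd (by rw [h]; exact Finset.mem_insert_self j S) a.2
      · simp only [Subtype.mk.injEq] at h
        exact absurd (by rw [← h]; exact Finset.mem_insert_self j S) b.2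
      · rw [Subsingleton.elim a b]
    · rintro ⟨i, hi⟩
      by_cases h : i = j
      · exact ⟨.inr 0, Subtype.ext h.symm⟩
      · exact ⟨.inl ⟨i, by simp [h, hi]⟩, rfl⟩)

theorem card_ins {S : Finset (Fin n)} {j : Fin n} (hjS : j ∉ S) :
    Fintype.card {i // i ∉ S} = Fintype.card {i // i ∉ insert j S} + 1 := by
  rw [← Fintype.card_congr (insEquiv hjS), Fintype.card_sum, Fintype.card_fin]

/-- Restriction of the coordinates. -/
def resj {S : Finset (Fin n)} (j : Fin n) (u : {i // i ∉ S} → ℂ) :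
    {i // i ∉ insert j S} → ℂ :=
  fun i => u ⟨i.1, fun h => i.2 (Finset.mem_insert_of_mem h)⟩

theorem ext0_resj {S : Finset (Fin n)} {j : Fin n} (u : {i // i ∉ S} → ℂ) {i : Fin n}
    (hi : i ≠ j) : ext0 (insert j S) (resj j u) i = ext0 S u i := by
  unfold ext0 resj
  by_cases h : i ∉ S
  · rw [dif_pos h, dif_pos (by simp [hi, h])]
  · rw [dif_neg h, dif_neg (by push Not at h; simp [h])]

theorem eval_resj {f : MvPolynomial (Fin n) ℂ} {S : Finset (Fin n)} {j : Fin n}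
    {I : Finset (Fin n →₀ ℕ)} (hI : ∀ u ∈ I, u j = 0) (u : {i // i ∉ S} → ℂ) :
    eval (ext0 (insert j S) (resj j u)) (inForm f I) = eval (ext0 S u) (inForm f I) := by
  refine eval_inForm_congr f I fun v hv i hi => ext0_resj u ?_
  rintro rfl
  exact hi (hI v hv)

theorem torus_resj {S : Finset (Fin n)} {j : Fin n} (hjS : j ∉ S) (u : {i // i ∉ S} → ℂ) :
    (∀ i, u i ≠ 0) ↔ (∀ i, resj j u i ≠ 0) ∧ u ⟨j, hjS⟩ ≠ 0 := by
  constructor
  · intro h
    exact ⟨fun i => h _, h _⟩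
  · rintro ⟨h1, h2⟩ ⟨i, hi⟩
    by_cases h : i = j
    · subst h
      exact h2
    · exact h1 ⟨i, by simp [h, hi]⟩

theorem clsM_XS_drop {f : MvPolynomial (Fin n) ℂ} {S : Finset (Fin n)} {j : Fin n} (hjS : j ∉ S)
    {I : Finset (Fin n →₀ ℕ)} (hI : ∀ u ∈ I, u j = 0) :
    clsM (XS f I S) = clsM (XS f I (insert j S)) * ((LU : Mot) - 1) := by
  have h := cls_mul_torus (insEquiv hjS) (isConstr_XS f I (insert j S))
  have h2 : {x : {i // i ∉ S} → ℂ | (fun i => x (insEquiv hjS (Sum.inl i))) ∈ XS f I (insert j S) ∧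
      x (insEquiv hjS (Sum.inr 0)) ≠ 0} = XS f I S := by
    ext u
    have h3 : (fun i => u (insEquiv hjS (Sum.inl i))) = resj j u := rfl
    have h4 : u (insEquiv hjS (Sum.inr 0)) = u ⟨j, hjS⟩ := rfl
    simp only [Set.mem_ofPred_eq, h3, h4, XS]
    rw [torus_resj hjS, eval_resj hI]
    tauto
  rw [h2] at h
  unfold clsM
  rw [h, map_mul, map_sub, map_one]
  rfl

theorem clsM_YS_drop {f : MvPolynomial (Fin n) ℂ} {S : Finset (Fin n)} {j : Fin n} (hjS : j ∉ S)
    {I : Finset (Fin n →₀ ℕ)} (hI : ∀ u ∈ I, u j = 0) :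
    clsM (YS f I S) = clsM (YS f I (insert j S)) * ((LU : Mot) - 1) := by
  have h := cls_mul_torus (insEquiv hjS) (isConstr_YS f I (insert j S))
  have h2 : {x : {i // i ∉ S} → ℂ | (fun i => x (insEquiv hjS (Sum.inl i))) ∈ YS f I (insert j S) ∧
      x (insEquiv hjS (Sum.inr 0)) ≠ 0} = YS f I S := by
    ext u
    have h3 : (fun i => u (insEquiv hjS (Sum.inl i))) = resj j u := rfl
    have h4 : u (insEquiv hjS (Sum.inr 0)) = u ⟨j, hjS⟩ := rfl
    simp only [Set.mem_ofPred_eq, h3, h4, YS]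
    rw [torus_resj hjS, eval_resj hI]
    tauto
  rw [h2] at h
  unfold clsM
  rw [h, map_mul, map_sub, map_one]
  rfl

theorem eval_single_ne {f : MvPolynomial (Fin n) ℂ} {v : Fin n →₀ ℕ} (hv : v ∈ f.support)
    {S : Finset (Fin n)} (hS : ∀ i ∈ S, v i = 0) {u : {i // i ∉ S} → ℂ} (hu : ∀ i, u i ≠ 0) :
    eval (ext0 S u) (inForm f {v}) ≠ 0 := by
  unfold inForm
  rw [Finset.sum_singleton, eval_monomial]
  refine mul_ne_zero (mem_support_iff.1 hv) ?_
  rw [Finsupp.prod, Finset.prod_ne_zero_iff]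
  intro i hi
  refine pow_ne_zero _ ?_
  have h : i ∉ S := fun h => Finsupp.mem_support_iff.1 hi (hS i h)
  rw [ext0, dif_pos h]
  exact hu _

theorem XS_single {f : MvPolynomial (Fin n) ℂ} {v : Fin n →₀ ℕ} (hv : v ∈ f.support)
    {S : Finset (Fin n)} (hS : ∀ i ∈ S, v i = 0) : XS f {v} S = ∅ := by
  rw [Set.eq_empty_iff_forall_notMem]
  rintro u ⟨h1, h2⟩
  exact eval_single_ne hv hS h1 h2

theorem clsM_XS_single {f : MvPolynomial (Fin n) ℂ} {v : Fin n →₀ ℕ} (hv : v ∈ f.support)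
    {S : Finset (Fin n)} (hS : ∀ i ∈ S, v i = 0) : clsM (XS f {v} S) = 0 := by
  rw [XS_single hv hS, clsM, cls_empty, map_zero]

theorem c0_single {f : MvPolynomial (Fin n) ℂ} {v : Fin n →₀ ℕ} (hv : v ∈ f.support)
    {S : Finset (Fin n)} (hS : ∀ i ∈ S, v i = 0) :
    c0 f {v} S = ((LU : Mot) - 1) ^ Fintype.card {j // j ∉ S} *
      ↑(LU ^ (-(Fintype.card {j // j ∉ S} : ℤ))) := by
  have h := clsM_XS_add_YS f {v} S
  rw [clsM_XS_single hv hS, zero_add] at h
  rw [c0, h]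

theorem c1_single {f : MvPolynomial (Fin n) ℂ} {v : Fin n →₀ ℕ} (hv : v ∈ f.support)
    {S : Finset (Fin n)} (hS : ∀ i ∈ S, v i = 0) : c1 f {v} S = 0 := by
  rw [c1, clsM_XS_single hv hS, zero_mul, zero_mul]

/-- The monomial without the variable `x_j`. -/
theorem eval_mon_eq {v : Fin n →₀ ℕ} {j : Fin n} (hvj : v j = 1) (c : ℂ) (x : Fin n → ℂ) :
    eval x (monomial v c) = c * (∏ i ∈ Finset.univ.erase j, x i ^ v i) * x j := by
  rw [eval_monomial, Finsupp.prod_fintype _ _ (fun i => pow_zero _),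
    ← Finset.mul_prod_erase Finset.univ _ (Finset.mem_univ j), hvj, pow_one]
  ring

theorem clsM_XS_insert {f : MvPolynomial (Fin n) ℂ} {v : Fin n →₀ ℕ} (hv : v ∈ f.support)
    {S : Finset (Fin n)} (hS : ∀ i ∈ S, v i = 0) {j : Fin n} (hjS : j ∉ S) (hvj : v j = 1)
    {I : Finset (Fin n →₀ ℕ)} (hI : ∀ u ∈ I, u j = 0) :
    clsM (XS f (insert v I) S) = clsM (YS f I (insert j S)) := by
  classical
  have hvI : v ∉ I := fun h => by rw [hI v h] at hvj; exact absurd hvj (by norm_num)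
  -- the coefficient of `x_j`
  let m : ({i // i ∉ insert j S} → ℂ) → ℂ := fun w =>
    coeff v f * ∏ i ∈ Finset.univ.erase j, ext0 (insert j S) w i ^ v i
  have hm : ∀ w : {i // i ∉ insert j S} → ℂ, (∀ i, w i ≠ 0) → m w ≠ 0 := by
    intro w hw
    refine mul_ne_zero (mem_support_iff.1 hv) ?_
    rw [Finset.prod_ne_zero_iff]
    intro i hi
    by_cases hvi : v i = 0
    · rw [hvi, pow_zero]; exact one_ne_zero
    · refine pow_ne_zero _ ?_
      have h : i ∉ insert j S := by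
        intro h
        rcases Finset.mem_insert.1 h with h | h
        · exact Finset.ne_of_mem_erase hi h
        · exact hvi (hS i h)
      rw [ext0, dif_pos h]
      exact hw _
  have hev : ∀ u : {i // i ∉ S} → ℂ, eval (ext0 S u) (inForm f (insert v I)) =
      m (resj j u) * u ⟨j, hjS⟩ + eval (ext0 (insert j S) (resj j u)) (inForm f I) := by
    intro u
    have h1 : inForm f (insert v I) = monomial v (coeff v f) + inForm f I := by
      unfold inForm
      rw [Finset.sum_insert hvI]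
    rw [h1, map_add, eval_mon_eq hvj, eval_resj hI]
    congr 2
    · simp only [m]
      congr 1
      refine Finset.prod_congr rfl fun i hi => ?_
      rw [ext0_resj u (Finset.ne_of_mem_erase hi)]
    · rw [ext0, dif_pos hjS]
  unfold clsM
  congr 1
  refine cls_bijOn (isConstr_XS f _ S) (isConstr_YS f I _)
    (fun i => X ⟨i.1, fun h => i.2 (Finset.mem_insert_of_mem h)⟩) ?_
  have hpm : polyMap (fun i : {i // i ∉ insert j S} =>
      (X ⟨i.1, fun h => i.2 (Finset.mem_insert_of_mem h)⟩ : MvPolynomial {i // i ∉ S} ℂ)) =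
      resj j := by
    funext u
    rw [polyMap_X]
    rfl
  rw [hpm]
  refine ⟨?_, ?_, ?_⟩
  · rintro u ⟨h1, h2⟩
    rw [torus_resj hjS] at h1
    refine ⟨h1.1, fun h3 => ?_⟩
    rw [hev, h3, add_zero] at h2
    exact mul_ne_zero (hm _ h1.1) h1.2 h2
  · rintro u ⟨h1, h2⟩ w ⟨h3, h4⟩ h5
    rw [hev] at h2 h4
    rw [torus_resj hjS] at h1
    rw [← h5] at h4
    have h6 : m (resj j u) * u ⟨j, hjS⟩ = m (resj j u) * w ⟨j, hjS⟩ := by
      linear_combination h2 - h4
    have h7 := mul_left_cancel₀ (hm _ h1.1) h6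
    funext i
    by_cases h : i.1 = j
    · have : i = ⟨j, hjS⟩ := Subtype.ext h
      rw [this]
      exact h7
    · exact congrFun h5 ⟨i.1, by simp [h, i.2]⟩
  · rintro w ⟨h1, h2⟩
    let u : {i // i ∉ S} → ℂ := fun i => if h : i.1 = j then
      -(eval (ext0 (insert j S) w) (inForm f I)) / m w else w ⟨i.1, by simp [h, i.2]⟩
    have hr : resj j u = w := by
      funext i
      have h : i.1 ≠ j := fun h => i.2 (by rw [h]; exact Finset.mem_insert_self j S)
      simp only [resj, u, dif_neg h]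
    have hj : u ⟨j, hjS⟩ = -(eval (ext0 (insert j S) w) (inForm f I)) / m w := by
      simp [u]
    refine ⟨u, ⟨?_, ?_⟩, hr⟩
    · rw [torus_resj hjS, hr, hj]
      exact ⟨h1, div_ne_zero (neg_ne_zero.2 h2) (hm w h1)⟩
    · rw [hev, hr, hj, mul_div_cancel₀ _ (hm w h1)]
      ring

/-- Shift of the exponent of `L`. -/
theorem LU_shift (d : ℕ) : ((LU ^ (-((d + 1 : ℕ) : ℤ)) : Motˣ) : Mot) =
    ↑(LU ^ (-1 : ℤ)) * ↑(LU ^ (-(d : ℤ))) := by
  rw [← Units.val_mul, ← zpow_add]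
  congr 2
  push_cast
  ring

theorem LU_mul_neg_one : (LU : Mot) * ↑(LU ^ (-1 : ℤ)) = 1 := by
  rw [← Units.val_mul]
  simp

theorem c0_insert {f : MvPolynomial (Fin n) ℂ} {v : Fin n →₀ ℕ} (hv : v ∈ f.support)
    {S : Finset (Fin n)} (hS : ∀ i ∈ S, v i = 0) {j : Fin n} (hjS : j ∉ S) (hvj : v j = 1)
    {I : Finset (Fin n →₀ ℕ)} (hI : ∀ u ∈ I, u j = 0) :
    c0 f (insert v I) S + ↑(LU ^ (-1 : ℤ)) * c0 f I (insert j S) = c0 f {v} S := by
  have h1 := clsM_XS_add_YS f (insert v I) S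
  rw [clsM_XS_insert hv hS hjS hvj hI] at h1
  rw [c0_single hv hS, ← h1, c0, c0, card_ins hjS, LU_shift]
  ring

theorem c1_insert {f : MvPolynomial (Fin n) ℂ} {v : Fin n →₀ ℕ} (hv : v ∈ f.support)
    {S : Finset (Fin n)} (hS : ∀ i ∈ S, v i = 0) {j : Fin n} (hjS : j ∉ S) (hvj : v j = 1)
    {I : Finset (Fin n →₀ ℕ)} (hI : ∀ u ∈ I, u j = 0) :
    c1 f (insert v I) S + ↑(LU ^ (-1 : ℤ)) * c1 f I (insert j S) = c0 f {v} S := by
  have h1 := clsM_XS_add_YS f I (insert j S)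
  rw [c0_single hv hS, c1, c1, clsM_XS_insert hv hS hjS hvj hI, card_ins hjS, LU_shift,
    pow_succ, ← h1]
  ring

theorem c0_drop {f : MvPolynomial (Fin n) ℂ} {S : Finset (Fin n)} {j : Fin n} (hjS : j ∉ S)
    {I : Finset (Fin n →₀ ℕ)} (hI : ∀ u ∈ I, u j = 0) :
    c0 f I S = (1 - ↑(LU ^ (-1 : ℤ))) * c0 f I (insert j S) := by
  rw [c0, c0, clsM_YS_drop hjS hI, card_ins hjS, LU_shift]
  linear_combination (clsM (YS f I (insert j S)) *
    ↑(LU ^ (-(Fintype.card {i // i ∉ insert j S} : ℤ)))) * LU_mul_neg_one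

theorem c1_drop {f : MvPolynomial (Fin n) ℂ} {S : Finset (Fin n)} {j : Fin n} (hjS : j ∉ S)
    {I : Finset (Fin n →₀ ℕ)} (hI : ∀ u ∈ I, u j = 0) :
    c1 f I S = (1 - ↑(LU ^ (-1 : ℤ))) * c1 f I (insert j S) := by
  rw [c1, c1, clsM_XS_drop hjS hI, card_ins hjS, LU_shift]
  linear_combination (clsM (XS f I (insert j S)) * ((LU : Mot) - 1) *
    ↑(LU ^ (-(Fintype.card {i // i ∉ insert j S} : ℤ)))) * LU_mul_neg_one

end MPb07157
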