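import Pool.Agent.Lib.MP_b07157_ag.N3.ColDefs
import Pool.Agent.Lib.MP_b07157_ag.N3.Cls1

section

/-!
# The column identity
-/

noncomputable section

namespace MPb07157

open MvPolynomial Finset

variable {n : ℕ}

/-- The weight of `u` outside the coordinate `j`. -/
def rst (a : Fin n → ℕ) (j : Fin n) (u : Fin n →₀ ℕ) : ℕ := ∑ i ∈ Finset.univ.erase j, a i * u i

theorem wt_upd (a : Fin n → ℕ) (j : Fin n) (t : ℕ) (u : Fin n →₀ ℕ) :
    wt (Function.update a j t) u = rst a j u + t * u j := by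
  classical
  unfold wt rst
  rw [← Finset.sum_erase_add _ _ (Finset.mem_univ j), Function.update_self]
  congr 1
  refine Finset.sum_congr rfl fun i hi => ?_
  rw [Function.update_of_ne (Finset.ne_of_mem_erase hi)]

theorem sum_upd (a : Fin n → ℕ) (j : Fin n) (t : ℕ) :
    ∑ i, Function.update a j t i = ∑ i ∈ Finset.univ.erase j, a i + t := by
  classical
  rw [← Finset.sum_erase_add _ _ (Finset.mem_univ j), Function.update_self]
  congr 1
  refine Finset.sum_congr rfl fun i hi => ?_
  rw [Function.update_of_ne (Finset.ne_of_mem_erase hi)]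

/-- The zone. -/
def Good (f : MvPolynomial (Fin n) ℂ) (J : Finset (Fin n)) (v : Fin n →₀ ℕ) (j : Fin n)
    (a : Fin n → ℕ) (t : ℕ) : Prop :=
  (∀ u ∈ U0 f j, rst a j v + 1 ≤ rst a j u) ∧
  (∀ u ∈ KKs f J v j, rst a j v + t + 1 ≤ rst a j u + t * u j) ∧
  (∀ u ∈ KKs f J v j, ∀ u' ∈ U0 f j,
    (rst a j v : ℤ) + 1 ≤ rst a j u + ((u j : ℤ) - 1) * (rst a j u' - rst a j v))

theorem pat_iff {f : MvPolynomial (Fin n) ℂ} {J : Finset (Fin n)} {v : Fin n →₀ ℕ} {j : Fin n}
    (hvj : v j = 1) {m t : ℕ} {a : Fin n → ℕ} :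
    patX (kapF f J v j) m (Function.update a j t) = ∅ ↔ Good f J v j a t := by
  classical
  have hwt : ∀ u : Fin n →₀ ℕ, dotH u (emb m (Function.update a j t)) =
      (rst a j u : ℤ) + t * u j := by
    intro u
    rw [dotH_emb, wt_upd]
    push_cast
    ring
  have hco : coordH j (emb m (Function.update a j t)) = (t : ℤ) := by
    rw [coordH_apply]
    simp [emb]
  have key : patX (kapF f J v j) m (Function.update a j t) = ∅ ↔
      ∀ k, 1 ≤ kapF f J v j k (emb m (Function.update a j t)) := by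
    constructor
    · intro h k
      by_contra hc
      have : k ∈ patX (kapF f J v j) m (Function.update a j t) := mem_patX.2 (by omega)
      rw [h] at this
      simp at this
    · intro h
      ext k
      rw [mem_patX]
      have := h k
      simp
      omega
  rw [key]
  constructor
  · intro h
    refine ⟨fun u hu => ?_, fun u hu => ?_, fun u hu u' hu' => ?_⟩
    · have := h (.inl ⟨u, hu⟩)
      have hu0 : u j = 0 := (Finset.mem_filter.1 hu).2
      simp only [kapF, AddMonoidHom.add_apply, AddMonoidHom.sub_apply, hwt, hco, hu0, hvj] at this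
      push_cast at this
      zify
      linarith
    · have := h (.inr (.inl ⟨u, hu⟩))
      simp only [kapF, AddMonoidHom.sub_apply, hwt, hvj] at this
      push_cast at this
      zify
      linarith
    · have := h (.inr (.inr (⟨u, hu⟩, ⟨u', hu'⟩)))
      have hu0 : u' j = 0 := (Finset.mem_filter.1 hu').2
      simp only [kapF, AddMonoidHom.add_apply, AddMonoidHom.sub_apply, AddMonoidHom.smul_apply,
        hwt, hvj, hu0, smul_eq_mul] at this
      push_cast at this
      nlinarith
  · rintro ⟨h1, h2, h3⟩ (⟨u, hu⟩ | (⟨u, hu⟩ | ⟨⟨u, hu⟩, ⟨u', hu'⟩⟩))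
    · have := h1 u hu
      have hu0 : u j = 0 := (Finset.mem_filter.1 hu).2
      simp only [kapF, AddMonoidHom.add_apply, AddMonoidHom.sub_apply, hwt, hco, hu0, hvj]
      push_cast
      zify at this
      linarith
    · have := h2 u hu
      simp only [kapF, AddMonoidHom.sub_apply, hwt, hvj]
      push_cast
      zify at this
      linarith
    · have := h3 u hu u' hu'
      have hu0 : u' j = 0 := (Finset.mem_filter.1 hu').2
      simp only [kapF, AddMonoidHom.add_apply, AddMonoidHom.sub_apply, AddMonoidHom.smul_apply,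
        hwt, hvj, hu0, smul_eq_mul]
      push_cast
      nlinarith

/-- The zone is upward closed. -/
theorem Good.mono {f : MvPolynomial (Fin n) ℂ} {J : Finset (Fin n)} {v : Fin n →₀ ℕ} {j : Fin n}
    {a : Fin n → ℕ} {t t' : ℕ} (h : Good f J v j a t) (htt : t ≤ t') : Good f J v j a t' := by
  classical
  refine ⟨h.1, fun u hu => ?_, h.2.2⟩
  have h1 := h.2.1 u hu
  have h2 : 1 ≤ u j := (Finset.mem_filter.1 hu).2.2.1
  obtain ⟨s, rfl⟩ := Nat.exists_eq_add_of_le htt
  nlinarith

theorem Good.at_T0 {f : MvPolynomial (Fin n) ℂ} {J : Finset (Fin n)} {v : Fin n →₀ ℕ} {j : Fin n}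
    {a : Fin n → ℕ} {t : ℕ} (h : Good f J v j a t) {u' : Fin n →₀ ℕ} (hu' : u' ∈ U0 f j) :
    Good f J v j a (rst a j u' - rst a j v) := by
  refine ⟨h.1, fun u hu => ?_, h.2.2⟩
  have h1 := h.1 u' hu'
  have h2 := h.2.2 u hu u' hu'
  zify
  rw [Nat.cast_sub (by omega)]
  linarith

/-- Exponents of the third kind have large weight. -/
theorem wt_big {f : MvPolynomial (Fin n) ℂ} {J : Finset (Fin n)} {v : Fin n →₀ ℕ} {j : Fin n}
    (hvj : v j = 1) (hj : j ∉ J) {N : ℕ} {a : Fin n → ℕ}
    (ha0 : ∀ i ∈ J, a i = 0) (ha : ∀ i ∉ J, i ≠ j → 1 ≤ a i ∧ a i ≤ N) {t : ℕ} (ht : 1 ≤ t)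
    (hg : Good f J v j a t) {u : Fin n →₀ ℕ} (hu : u ∈ f.support) (huv : u ≠ v)
    (hu0 : u j ≠ 0) : rst a j v + t < wt (Function.update a j t) u := by
  classical
  by_cases hD : Dom J v u
  · have h1 : wt (Function.update a j t) v = rst a j v + t := by rw [wt_upd, hvj, mul_one]
    rw [← h1]
    unfold wt
    obtain ⟨hD1, i0, hi0, hlt⟩ := hD
    have hpos : ∀ i ∉ J, 1 ≤ Function.update a j t i := by
      intro i hi
      by_cases hij : i = j
      · rw [hij, Function.update_self]; exact ht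
      · rw [Function.update_of_ne hij]; exact (ha i hi hij).1
    refine Finset.sum_lt_sum (fun i _ => ?_) ⟨i0, Finset.mem_univ _, ?_⟩
    · by_cases hi : i ∈ J
      · have : i ≠ j := fun h => hj (h ▸ hi)
        rw [Function.update_of_ne this, ha0 i hi]
        simp
      · exact Nat.mul_le_mul_left _ (hD1 i hi)
    · exact Nat.mul_lt_mul_of_pos_left hlt (hpos i0 hi0)
  · have hK : u ∈ KKs f J v j :=
      Finset.mem_filter.2 ⟨hu, huv, Nat.one_le_iff_ne_zero.2 hu0, hD⟩
    have := hg.2.1 u hK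
    rw [wt_upd]
    omega

theorem nuf_face_eq {f : MvPolynomial (Fin n) ℂ} {A : Fin n → ℕ} {M : ℕ}
    {I : Finset (Fin n →₀ ℕ)} (hI : I.Nonempty) (hIs : ∀ u ∈ I, u ∈ f.support ∧ wt A u = M)
    (hr : ∀ u ∈ f.support, u ∉ I → M < wt A u) :
    nuf f A = M ∧ face f A (nuf f A) = I := by
  classical
  obtain ⟨u0, hu0⟩ := hI
  have hf : f ≠ 0 := by
    intro h
    have := (hIs u0 hu0).1
    rw [h] at this
    simp at this
  have hmin : IsMinWt f A M := by
    refine ⟨fun u hu => ?_, u0, (hIs u0 hu0).1, (hIs u0 hu0).2⟩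
    by_cases h : u ∈ I
    · exact (hIs u h).2.ge
    · exact (hr u hu h).le
  have h1 : nuf f A = M := (isMinWt_nuf hf A).eq hmin
  refine ⟨h1, ?_⟩
  rw [h1]
  ext u
  rw [face, Finset.mem_filter]
  constructor
  · rintro ⟨h2, h3⟩
    by_contra h
    have := hr u h2 h
    omega
  · intro h
    exact hIs u h

theorem Wc_of {f : MvPolynomial (Fin n) ℂ} {N m : ℕ} {A : Fin n → ℕ} {M : ℕ}
    {I : Finset (Fin n →₀ ℕ)} (h : nuf f A = M ∧ face f A (nuf f A) = I) :
    Wc f N m A = if M = m then c0 f I (SS N A) * ↑(LU ^ (-((∑ j, A j : ℕ) : ℤ)))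
      else if M < m then c1 f I (SS N A) * ↑(LU ^ (-((∑ j, A j : ℕ) + (m - M : ℕ) : ℤ)))
      else 0 := by
  unfold Wc
  rw [h.2, h.1]

theorem SS_upd {N : ℕ} (a : Fin n → ℕ) (j : Fin n) {t : ℕ} (ht : t ≠ N) :
    SS N (Function.update a j t) = Finset.univ.filter (fun i => i ≠ j ∧ a i = N) := by
  classical
  ext i
  rw [SS, Finset.mem_filter, Finset.mem_filter]
  by_cases hij : i = j
  · subst hij
    simp [ht]
  · simp [hij]

theorem SS_upd' {N : ℕ} (a : Fin n → ℕ) (j : Fin n) :
    SS N (Function.update a j N) = insert j (Finset.univ.filter (fun i => i ≠ j ∧ a i = N)) := by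
  classical
  ext i
  rw [SS, Finset.mem_filter, Finset.mem_insert, Finset.mem_filter]
  by_cases hij : i = j
  · subst hij
    simp
  · simp [hij]

/-- telescoping -/
theorem tele_sum {R : Type*} [CommRing R] (q : R) (T N : ℕ) (hTN : T < N) :
    (1 - q) * ∑ t ∈ Finset.Ioo T N, q ^ t + q ^ N = q ^ (T + 1) := by
  obtain ⟨s, rfl⟩ := Nat.exists_eq_add_of_lt hTN
  induction s with
  | zero =>
    have : Finset.Ioo T (T + 0 + 1) = ∅ := by
      ext x; simp
    rw [this]; simp
  | succ s ih =>
    have h1 : Finset.Ioo T (T + (s + 1) + 1) = insert (T + s + 1) (Finset.Ioo T (T + s + 1)) := by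
      ext x; simp only [Finset.mem_Ioo, Finset.mem_insert]; omega
    rw [h1, Finset.sum_insert (by simp)]
    have ih' := ih (by omega)
    have e : T + (s + 1) + 1 = (T + s + 1) + 1 := by omega
    rw [e]
    linear_combination ih'

/-- the value of `Wc` for the apex monomial -/
theorem Wc_mon {f : MvPolynomial (Fin n) ℂ} {v : Fin n →₀ ℕ} {j : Fin n}
    (hv : v ∈ f.support) (hvj : v j = 1) {N m : ℕ} (a : Fin n → ℕ) (t : ℕ) :
    Wc (monF f v) N m (Function.update a j t) =
      if rst a j v + t = m then c0 (monF f v) {v} (SS N (Function.update a j t)) *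
        ↑(LU ^ (-((∑ i ∈ Finset.univ.erase j, a i + t : ℕ) : ℤ)))
      else if rst a j v + t < m then c1 (monF f v) {v} (SS N (Function.update a j t)) *
        ↑(LU ^ (-((∑ i ∈ Finset.univ.erase j, a i + t : ℕ) + (m - (rst a j v + t) : ℕ) : ℤ)))
      else 0 := by
  classical
  have hw : wt (Function.update a j t) v = rst a j v + t := by rw [wt_upd, hvj, mul_one]
  have h := nuf_face_eq (f := monF f v) (A := Function.update a j t) (M := rst a j v + t)
    (I := {v}) (Finset.singleton_nonempty v)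
    (by
      intro u hu
      rw [Finset.mem_singleton] at hu
      subst hu
      refine ⟨?_, hw⟩
      rw [support_monF hv]
      exact Finset.mem_singleton_self _)
    (by
      intro u hu hu'
      rw [support_monF hv] at hu
      exact absurd hu hu')
  rw [Wc_of h, sum_upd]

/-- where `v` is the unique exponent of minimal weight, `f` can be replaced by the monomial -/
theorem Wc_low {f : MvPolynomial (Fin n) ℂ} {J : Finset (Fin n)} {v : Fin n →₀ ℕ} {j : Fin n}
    (hv : v ∈ f.support) (hvj : v j = 1) (hj : j ∉ J) {N m : ℕ} (hm : m < N) (a : Fin n → ℕ)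
    (ha0 : ∀ i ∈ J, a i = 0) (ha : ∀ i ∉ J, i ≠ j → 1 ≤ a i ∧ a i ≤ N) {t : ℕ} (ht : 1 ≤ t)
    (hg : Good f J v j a t) (hlow : ∀ u ∈ U0 f j, rst a j v + t < rst a j u) :
    Wc f N m (Function.update a j t) = Wc (monF f v) N m (Function.update a j t) := by
  classical
  have hw : wt (Function.update a j t) v = rst a j v + t := by rw [wt_upd, hvj, mul_one]
  have h := nuf_face_eq (f := f) (A := Function.update a j t) (M := rst a j v + t)
    (I := {v}) (Finset.singleton_nonempty v)
    (by
      intro u hu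
      rw [Finset.mem_singleton] at hu
      subst hu
      exact ⟨hv, hw⟩)
    (by
      intro u hu hu'
      rw [Finset.mem_singleton] at hu'
      by_cases hu0 : u j = 0
      · have := hlow u (Finset.mem_filter.2 ⟨hu, hu0⟩)
        rw [wt_upd, hu0, mul_zero, add_zero]
        exact this
      · exact wt_big hvj hj ha0 ha ht hg hu hu' hu0)
  rw [Wc_of h, Wc_mon hv hvj, sum_upd]
  have hvm : v ∈ (monF f v).support := by rw [support_monF hv]; exact Finset.mem_singleton_self _
  by_cases hle : rst a j v + t ≤ m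
  · have hS : ∀ i ∈ SS N (Function.update a j t), v i = 0 := by
      intro i hi
      rw [SS, Finset.mem_filter] at hi
      by_contra hne
      have h1 : Function.update a j t i * v i ≤ wt (Function.update a j t) v :=
        Finset.single_le_sum (f := fun i => Function.update a j t i * v i)
          (fun _ _ => Nat.zero_le _) (Finset.mem_univ i)
      rw [hi.2, hw] at h1
      have h2 : N * 1 ≤ N * v i := Nat.mul_le_mul_left _ (Nat.one_le_iff_ne_zero.2 hne)
      omega
    rw [c0_single hv hS, c0_single hvm hS, c1_single hv hS, c1_single hvm hS]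
  · rw [if_neg (by omega), if_neg (by omega), if_neg (by omega), if_neg (by omega)]

/-- the sum beyond `T0` -/
theorem col_high {f : MvPolynomial (Fin n) ℂ} {J : Finset (Fin n)} {v : Fin n →₀ ℕ} {j : Fin n}
    (hv : v ∈ f.support) (hvj : v j = 1) (hj : j ∉ J) {N m : ℕ} (hm : m < N) (a : Fin n → ℕ)
    (ha0 : ∀ i ∈ J, a i = 0) (ha : ∀ i ∉ J, i ≠ j → 1 ≤ a i ∧ a i ≤ N) {T0 : ℕ} (hT0 : 1 ≤ T0)
    (hg : Good f J v j a T0) {u0 : Fin n →₀ ℕ} (hu0 : u0 ∈ U0 f j)
    (hu0T : rst a j u0 = rst a j v + T0) (hmin : ∀ u ∈ U0 f j, rst a j u0 ≤ rst a j u) :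
    ∑ t ∈ Finset.Icc T0 N, Wc f N m (Function.update a j t) =
      ∑ t ∈ Finset.Icc T0 N, Wc (monF f v) N m (Function.update a j t) := by
  classical
  by_cases hTN : T0 ≤ N
  swap
  · rw [Finset.Icc_eq_empty (by omega)]; simp
  set g := rst a j u0 with hgdef
  set I0 := (U0 f j).filter (fun u => rst a j u = g) with hI0
  have hI0j : ∀ u ∈ I0, u j = 0 := fun u hu =>
    (Finset.mem_filter.1 (Finset.mem_filter.1 hu).1).2
  -- faces
  have hwv : ∀ t, wt (Function.update a j t) v = rst a j v + t := by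
    intro t; rw [wt_upd, hvj, mul_one]
  have hwI : ∀ u ∈ I0, ∀ t, u ∈ f.support ∧ wt (Function.update a j t) u = g := by
    intro u hu t
    have h1 := Finset.mem_filter.1 hu
    refine ⟨(Finset.mem_filter.1 h1.1).1, ?_⟩
    rw [wt_upd, hI0j u hu, mul_zero, add_zero, h1.2]
  have hrest : ∀ t, T0 ≤ t → ∀ u ∈ f.support, u ∉ I0 → u ≠ v →
      g < wt (Function.update a j t) u := by
    intro t ht u hu hu' huv
    by_cases hj0 : u j = 0
    · have h1 : u ∈ U0 f j := Finset.mem_filter.2 ⟨hu, hj0⟩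
      have h2 := hmin u h1
      have h3 : rst a j u ≠ g := fun h => hu' (Finset.mem_filter.2 ⟨h1, h⟩)
      rw [wt_upd, hj0, mul_zero, add_zero]
      omega
    · have := wt_big hvj hj ha0 ha (le_trans hT0 ht) (hg.mono ht) hu huv hj0
      omega
  have hface1 : nuf f (Function.update a j T0) = g ∧
      face f (Function.update a j T0) (nuf f (Function.update a j T0)) = insert v I0 := by
    refine nuf_face_eq (Finset.insert_nonempty _ _) ?_ ?_
    · intro u hu
      rcases Finset.mem_insert.1 hu with h | h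
      · rw [h]; exact ⟨hv, by rw [hwv]; omega⟩
      · exact hwI u h T0
    · intro u hu hu'
      rw [Finset.mem_insert, not_or] at hu'
      exact hrest T0 le_rfl u hu hu'.2 hu'.1
  have hface2 : ∀ t, T0 < t → nuf f (Function.update a j t) = g ∧
      face f (Function.update a j t) (nuf f (Function.update a j t)) = I0 := by
    intro t ht
    refine nuf_face_eq ⟨u0, Finset.mem_filter.2 ⟨hu0, rfl⟩⟩ (fun u hu => hwI u hu t) ?_
    intro u hu hu'
    by_cases huv : u = v
    · rw [huv, hwv]; omega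
    · exact hrest t ht.le u hu hu' huv
  by_cases hgm : g ≤ m
  swap
  · -- everything vanishes
    have hL : ∀ t ∈ Finset.Icc T0 N, Wc f N m (Function.update a j t) = 0 := by
      intro t ht
      rw [Finset.mem_Icc] at ht
      rcases eq_or_lt_of_le ht.1 with h | h
      · subst h; rw [Wc_of hface1, if_neg (by omega), if_neg (by omega)]
      · rw [Wc_of (hface2 t h), if_neg (by omega), if_neg (by omega)]
    have hR : ∀ t ∈ Finset.Icc T0 N, Wc (monF f v) N m (Function.update a j t) = 0 := by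
      intro t ht
      rw [Finset.mem_Icc] at ht
      rw [Wc_mon hv hvj, if_neg (by omega), if_neg (by omega)]
    rw [Finset.sum_eq_zero hL, Finset.sum_eq_zero hR]
  have hT0N : T0 < N := by omega
  set S0 := Finset.univ.filter (fun i => i ≠ j ∧ a i = N) with hS0
  have hjS : j ∉ S0 := by simp [hS0]
  have hvS : ∀ i ∈ S0, v i = 0 := by
    intro i hi
    rw [hS0, Finset.mem_filter] at hi
    by_contra hne
    have h1 : a i * v i ≤ rst a j v :=
      Finset.single_le_sum (f := fun i => a i * v i) (fun _ _ => Nat.zero_le _)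
        (Finset.mem_erase.2 ⟨hi.2.1, Finset.mem_univ i⟩)
    rw [hi.2.2] at h1
    have h2 : N * 1 ≤ N * v i := Nat.mul_le_mul_left _ (Nat.one_le_iff_ne_zero.2 hne)
    omega
  have hvm : v ∈ (monF f v).support := by rw [support_monF hv]; exact Finset.mem_singleton_self _
  set s := ∑ i ∈ Finset.univ.erase j, a i with hs
  -- the right side
  have hR : ∑ t ∈ Finset.Icc T0 N, Wc (monF f v) N m (Function.update a j t) =
      c0 f {v} S0 * ↑(LU ^ (-((s + (m - rst a j v) : ℕ) : ℤ))) := by
    rw [Finset.sum_eq_single (m - rst a j v)]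
    · rw [Wc_mon hv hvj, if_pos (by omega), SS_upd a j (by omega), c0_single hv hvS,
        c0_single hvm hvS]
    · intro t ht htne
      rw [Finset.mem_Icc] at ht
      rw [Wc_mon hv hvj, if_neg (by omega)]
      by_cases hlt : rst a j v + t < m
      · rw [if_pos hlt, SS_upd a j (by omega), c1_single hvm hvS, zero_mul]
      · rw [if_neg hlt]
    · intro h
      exfalso
      apply h
      rw [Finset.mem_Icc]
      omega
  rw [hR]
  -- the left side
  have hmain : ∀ (cc : Finset (Fin n →₀ ℕ) → Finset (Fin n) → Mot) (r : ℕ),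
      g + r = m →
      (∀ t I, nuf f (Function.update a j t) = g ∧
        face f (Function.update a j t) (nuf f (Function.update a j t)) = I →
        Wc f N m (Function.update a j t) =
          cc I (SS N (Function.update a j t)) * ↑(LU ^ (-((s + t + r : ℕ) : ℤ)))) →
      (cc (insert v I0) S0 + ↑(LU ^ (-1 : ℤ)) * cc I0 (insert j S0) = c0 f {v} S0) →
      (cc I0 S0 = (1 - ↑(LU ^ (-1 : ℤ))) * cc I0 (insert j S0)) →
      ∑ t ∈ Finset.Icc T0 N, Wc f N m (Function.update a j t) =
        c0 f {v} S0 * ↑(LU ^ (-((s + (m - rst a j v) : ℕ) : ℤ))) := by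
    intro cc r hr hW hins hdrop
    have hsplit : Finset.Icc T0 N = insert T0 (insert N (Finset.Ioo T0 N)) := by
      ext x; simp only [Finset.mem_Icc, Finset.mem_insert, Finset.mem_Ioo]; omega
    rw [hsplit, Finset.sum_insert (by simp; omega), Finset.sum_insert (by simp),
      hW _ _ hface1, hW _ _ (hface2 N hT0N), SS_upd a j (by omega), SS_upd' a j]
    have hq : ∀ k : ℕ, ((LU ^ (-((k : ℕ) : ℤ)) : Motˣ) : Mot) =
        ((LU ^ (-1 : ℤ) : Motˣ) : Mot) ^ k := by
      intro k
      rw [← Units.val_pow_eq_pow_val, ← zpow_natCast, ← zpow_mul]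
      congr 2
      ring
    have hIoo : ∑ t ∈ Finset.Ioo T0 N, Wc f N m (Function.update a j t) =
        cc I0 S0 * ((LU ^ (-1 : ℤ) : Motˣ) : Mot) ^ (s + r) *
          ∑ t ∈ Finset.Ioo T0 N, ((LU ^ (-1 : ℤ) : Motˣ) : Mot) ^ t := by
      rw [Finset.mul_sum]
      refine Finset.sum_congr rfl fun t ht => ?_
      rw [Finset.mem_Ioo] at ht
      rw [hW _ _ (hface2 t ht.1), SS_upd a j (by omega), hq]
      have : s + t + r = (s + r) + t := by ring
      rw [this, pow_add]
      ring
    rw [hIoo, hq, hq, hq]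
    have htel := tele_sum (((LU ^ (-1 : ℤ) : Motˣ) : Mot)) T0 N hT0N
    have e1 : s + T0 + r = (s + r) + T0 := by ring
    have e2 : s + N + r = (s + r) + N := by ring
    have e3 : s + (m - rst a j v) = (s + r) + T0 := by omega
    rw [e1, e2, e3, pow_add, pow_add, hdrop, ← hins]
    rw [pow_succ] at htel
    set q : Mot := ((LU ^ (-1 : ℤ) : Motˣ) : Mot) with hqdef
    linear_combination (q ^ (s + r) * cc I0 (insert j S0)) * htel
  rcases eq_or_lt_of_le hgm with heq | hlt
  · refine hmain (c0 f) 0 (by omega) ?_ (c0_insert hv hvS hjS hvj hI0j) (c0_drop hjS hI0j)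
    intro t I h
    rw [Wc_of h, if_pos heq, sum_upd]
    simp [hs]
  · refine hmain (c1 f) (m - g) (by omega) ?_ (c1_insert hv hvS hjS hvj hI0j) (c1_drop hjS hI0j)
    intro t I h
    rw [Wc_of h, if_neg (by omega), if_pos hlt, sum_upd, hs]
    push_cast
    rfl

open Classical in
/-- The sum over a column: in the zone where all additional forms are positive, the polynomial `f`
can be replaced by its apex monomial. -/
theorem colsum {f : MvPolynomial (Fin n) ℂ} {J : Finset (Fin n)} {v : Fin n →₀ ℕ} {j : Fin n}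
    (hv : v ∈ f.support) (hvj : v j = 1) (hj : j ∉ J) {N m : ℕ} (hm : m < N) (a : Fin n → ℕ)
    (ha0 : ∀ i ∈ J, a i = 0) (ha : ∀ i ∉ J, i ≠ j → 1 ≤ a i ∧ a i ≤ N) :
    ∑ t ∈ (Finset.Icc 1 N).filter
        (fun t => patX (kapF f J v j) m (Function.update a j t) = ∅),
      Wc f N m (Function.update a j t) =
    ∑ t ∈ (Finset.Icc 1 N).filter
        (fun t => patX (kapF f J v j) m (Function.update a j t) = ∅),
      Wc (monF f v) N m (Function.update a j t) := by
  by_cases hU : (U0 f j).Nonempty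
  swap
  · -- no exponents with `u_j = 0`
    rw [Finset.not_nonempty_iff_eq_empty] at hU
    refine Finset.sum_congr rfl fun t ht => ?_
    rw [Finset.mem_filter, Finset.mem_Icc, pat_iff hvj] at ht
    exact Wc_low hv hvj hj hm a ha0 ha ht.1.1 ht.2 (by rw [hU]; simp)
  by_cases hZ : ((Finset.Icc 1 N).filter
      (fun t => patX (kapF f J v j) m (Function.update a j t) = ∅)).Nonempty
  swap
  · rw [Finset.not_nonempty_iff_eq_empty] at hZ
    rw [hZ]; simp
  obtain ⟨t1, ht1⟩ := hZ
  rw [Finset.mem_filter, Finset.mem_Icc, pat_iff hvj] at ht1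
  obtain ⟨u0, hu0, hmin⟩ := Finset.exists_min_image (U0 f j) (fun u => rst a j u) hU
  set T0 := rst a j u0 - rst a j v with hT0
  have hk2 := ht1.2.1 u0 hu0
  have hgT : Good f J v j a T0 := ht1.2.at_T0 hu0
  have hT01 : 1 ≤ T0 := by omega
  have hsplit : (Finset.Icc 1 N).filter
      (fun t => patX (kapF f J v j) m (Function.update a j t) = ∅) =
      ((Finset.Icc 1 N).filter
        (fun t => patX (kapF f J v j) m (Function.update a j t) = ∅ ∧ t < T0)) ∪
      Finset.Icc T0 N := by
    ext t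
    rw [Finset.mem_union, Finset.mem_filter, Finset.mem_filter, Finset.mem_Icc, Finset.mem_Icc,
      pat_iff hvj]
    constructor
    · rintro ⟨h1, h2⟩
      by_cases h : t < T0
      · exact Or.inl ⟨h1, h2, h⟩
      · exact Or.inr ⟨by omega, h1.2⟩
    · rintro (⟨h1, h2, h3⟩ | h)
      · exact ⟨h1, h2⟩
      · exact ⟨⟨by omega, h.2⟩, hgT.mono h.1⟩
  have hdisj : Disjoint ((Finset.Icc 1 N).filter
        (fun t => patX (kapF f J v j) m (Function.update a j t) = ∅ ∧ t < T0))
      (Finset.Icc T0 N) := by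
    rw [Finset.disjoint_left]
    intro t h1 h2
    rw [Finset.mem_filter] at h1
    rw [Finset.mem_Icc] at h2
    omega
  rw [hsplit, Finset.sum_union hdisj, Finset.sum_union hdisj]
  congr 1
  · refine Finset.sum_congr rfl fun t ht => ?_
    rw [Finset.mem_filter, Finset.mem_Icc, pat_iff hvj] at ht
    refine Wc_low hv hvj hj hm a ha0 ha ht.1.1 ht.2.1 ?_
    intro u hu
    have := hmin u hu
    omega
  · exact col_high hv hvj hj hm a ha0 ha hT01 hgT hu0 (by omega) hmin

end MPb07157
end
end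

section

/-!
# The column identity for the generating series
-/

noncomputable section

namespace MPb07157

open MvPolynomial Finset

variable {n : ℕ}

private theorem col2_thj (j : Fin n) (b : Fin n → ℕ) (t : ℕ) :
    thj j (zv (Function.update b j t)) = thj j (zv b) := by
  funext i
  rw [thj_apply, thj_apply]
  by_cases h : i = j
  · rw [if_pos h, if_pos h]
  · rw [if_neg h, if_neg h]
    unfold zv
    rw [Function.update_of_ne h]

open Classical in
/-- Decomposition of a sum over a box into columns. -/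
private theorem col2_columns {J : Finset (Fin n)} {j : Fin n} (hj : j ∉ J) {N : ℕ} (hN : 1 ≤ N)
    (P : (Fin n → ℕ) → Prop) (W : (Fin n → ℕ) → Mot) :
    ∑ a ∈ (boxJ J N).filter P, (AddMonoidAlgebra.single (thj j (zv a)) (W a) : RX n) =
      ∑ b ∈ (boxJ J N).filter (fun b => b j = 1),
        (AddMonoidAlgebra.single (thj j (zv b))
          (∑ t ∈ (Finset.Icc 1 N).filter (fun t => P (Function.update b j t)),
            W (Function.update b j t)) : RX n) := by
  have hmaps : ∀ a ∈ (boxJ J N).filter P,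
      Function.update a j 1 ∈ (boxJ J N).filter (fun b => b j = 1) := by
    intro a ha
    rw [Finset.mem_filter, mem_boxJ] at ha
    rw [Finset.mem_filter, mem_boxJ]
    refine ⟨⟨fun i hi => ?_, fun i hi => ?_⟩, Function.update_self _ _ _⟩
    · have hij : i ≠ j := fun h => hj (h ▸ hi)
      rw [Function.update_of_ne hij]
      exact ha.1.1 i hi
    · by_cases hij : i = j
      · rw [hij, Function.update_self]
        exact ⟨le_rfl, hN⟩
      · rw [Function.update_of_ne hij]
        exact ha.1.2 i hi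
  rw [← Finset.sum_fiberwise_of_maps_to hmaps]
  refine Finset.sum_congr rfl fun b hb => ?_
  rw [Finset.mem_filter, mem_boxJ] at hb
  obtain ⟨⟨hb0, hb1⟩, hbj⟩ := hb
  have hsum : (AddMonoidAlgebra.single (thj j (zv b))
      (∑ t ∈ (Finset.Icc 1 N).filter (fun t => P (Function.update b j t)),
        W (Function.update b j t)) : RX n) =
      ∑ t ∈ (Finset.Icc 1 N).filter (fun t => P (Function.update b j t)),
        (AddMonoidAlgebra.single (thj j (zv b)) (W (Function.update b j t)) : RX n) := by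
    exact map_sum (AddMonoidAlgebra.singleAddHom (thj j (zv b))) _ _
  rw [hsum]
  refine Finset.sum_nbij' (fun a => a j) (fun t => Function.update b j t) ?_ ?_ ?_ ?_ ?_
  · intro a ha
    rw [Finset.mem_filter, Finset.mem_filter, mem_boxJ] at ha
    obtain ⟨⟨⟨_, ha1⟩, haP⟩, hab⟩ := ha
    rw [Finset.mem_filter, Finset.mem_Icc, ← hab, Function.update_idem, Function.update_eq_self]
    exact ⟨ha1 j hj, haP⟩
  · intro t ht
    rw [Finset.mem_filter, Finset.mem_Icc] at ht
    rw [Finset.mem_filter, Finset.mem_filter, mem_boxJ]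
    refine ⟨⟨⟨fun i hi => ?_, fun i hi => ?_⟩, ht.2⟩, ?_⟩
    · have hij : i ≠ j := fun h => hj (h ▸ hi)
      rw [Function.update_of_ne hij]
      exact hb0 i hi
    · by_cases hij : i = j
      · rw [hij, Function.update_self]
        exact ht.1
      · rw [Function.update_of_ne hij]
        exact hb1 i hi
    · rw [Function.update_idem, ← hbj, Function.update_eq_self]
  · intro a ha
    rw [Finset.mem_filter, Finset.mem_filter] at ha
    change Function.update b j (a j) = a
    rw [← ha.2, Function.update_idem, Function.update_eq_self]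
  · intro t _
    change Function.update b j t j = t
    rw [Function.update_self]
  · intro a ha
    rw [Finset.mem_filter, Finset.mem_filter] at ha
    have h1 : Function.update b j (a j) = a := by
      rw [← ha.2, Function.update_idem, Function.update_eq_self]
    have h2 : thj j (zv a) = thj j (zv b) := by
      rw [← ha.2, col2_thj]
    rw [h2, h1]

theorem ZPx_zone_eq {f : MvPolynomial (Fin n) ℂ} {J : Finset (Fin n)} {v : Fin n →₀ ℕ} {j : Fin n}
    (hv : v ∈ f.support) (hvj : v j = 1) (hj : j ∉ J) {K : ℕ} (hK : 1 ≤ K) :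
    ZPx f K J (thj j) (kapF f J v j) ∅ = ZPx (monF f v) K J (thj j) (kapF f J v j) ∅ := by
  classical
  ext1 m
  unfold ZPx
  rw [PowerSeries.coeff_mk, PowerSeries.coeff_mk]
  have hm : m < K * (m + 1) := by nlinarith
  generalize K * (m + 1) = N at hm
  have h1 := col2_columns hj (show 1 ≤ N by omega) (fun a => patX (kapF f J v j) m a = ∅)
    (fun a => Wc f N m a)
  have h2 := col2_columns hj (show 1 ≤ N by omega) (fun a => patX (kapF f J v j) m a = ∅)
    (fun a => Wc (monF f v) N m a)
  have h12 := (h1.trans ?_).trans h2.symm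
  · refine Eq.trans ?_ (h12.trans ?_)
    · exact Finset.sum_congr (by ext a; simp only [Finset.mem_filter]) fun _ _ => rfl
    · exact Finset.sum_congr (by ext a; simp only [Finset.mem_filter]) fun _ _ => rfl
  refine Finset.sum_congr rfl fun b hb => ?_
  rw [Finset.mem_filter, mem_boxJ] at hb
  obtain ⟨⟨hb0, hb1⟩, _⟩ := hb
  have h3 := colsum hv hvj hj hm b hb0 (fun i hi _ => hb1 i hi)
  rw [h3]

end MPb07157
end
end

section

/-!
# The rays of the pieces of a column
-/

noncomputable section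

namespace MPb07157

open MvPolynomial Finset

variable {n : ℕ}

private theorem cr_mem_U0 {f : MvPolynomial (Fin n) ℂ} {j : Fin n} {u : Fin n →₀ ℕ}
    (hu : u ∈ U0 f j) : u ∈ f.support ∧ u j = 0 := by
  rw [U0, Finset.mem_filter] at hu
  exact hu

private theorem cr_mem_KKs {f : MvPolynomial (Fin n) ℂ} {J : Finset (Fin n)} {v : Fin n →₀ ℕ}
    {j : Fin n} {u : Fin n →₀ ℕ} (hu : u ∈ KKs f J v j) :
    u ∈ f.support ∧ u ≠ v ∧ 1 ≤ u j ∧ ¬ Dom J v u := by
  classical
  rw [KKs, Finset.mem_filter] at hu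
  exact hu

private theorem cr_wt_v {f : MvPolynomial (Fin n) ℂ} {J : Finset (Fin n)} {w : Fin n → ℕ} {N : ℕ}
    {j : Fin n} {v : Fin n →₀ ℕ} (hap : Apex f J w N j v) : wt w v = N ∧ v ∈ f.support := by
  have h := hap.1
  rw [face, Finset.mem_filter] at h
  exact ⟨h.2, h.1⟩

private theorem cr_wt_K {f : MvPolynomial (Fin n) ℂ} {J : Finset (Fin n)} {w : Fin n → ℕ} {N : ℕ}
    {j : Fin n} {v : Fin n →₀ ℕ} (hmin : ∀ u ∈ f.support, N ≤ wt w u)
    (hap : Apex f J w N j v) {u : Fin n →₀ ℕ} (hu : u ∈ KKs f J v j) : N < wt w u := by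
  obtain ⟨h1, h2, h3, h4⟩ := cr_mem_KKs hu
  rcases Nat.lt_or_ge N (wt w u) with h | h
  · exact h
  · exfalso
    have h5 : u ∈ face f w N := Finset.mem_filter.2 ⟨h1, le_antisymm h (hmin u h1)⟩
    rcases hap.2.2.2 u h5 h2 with h6 | h6
    · omega
    · exact h4 h6

/-- The values of the additional forms at the facet vector. -/
theorem kapF_pos {f : MvPolynomial (Fin n) ℂ} {J : Finset (Fin n)} {w : Fin n → ℕ} {N : ℕ}
    {j : Fin n} {v : Fin n →₀ ℕ} (hmin : ∀ u ∈ f.support, N ≤ wt w u)
    (hap : Apex f J w N j v) (k : Kid f J v j) : 0 < kapF f J v j k (emb N w) := by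
  have hv := (cr_wt_v hap).1
  have hwj := hap.2.2.1
  rcases k with u | (u | ⟨u, u'⟩)
  · have h1 := hmin u.1 (cr_mem_U0 u.2).1
    simp only [kapF, AddMonoidHom.add_apply, AddMonoidHom.sub_apply, dotH_emb, coordH_apply]
    simp only [emb]
    omega
  · have h1 := cr_wt_K hmin hap u.2
    simp only [kapF, AddMonoidHom.sub_apply, dotH_emb]
    omega
  · have h1 := cr_wt_K hmin hap u.2
    have h2 := (cr_mem_KKs u.2).2.2.1
    have h3 := hmin u'.1 (cr_mem_U0 u'.2).1
    simp only [kapF, AddMonoidHom.add_apply, AddMonoidHom.sub_apply, AddMonoidHom.smul_apply,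
      dotH_emb, smul_eq_mul]
    have h4 : (0 : ℤ) ≤ ((u.1 j : ℤ) - 1) * ((wt w u'.1 : ℤ) - wt w v) :=
      mul_nonneg (by omega) (by omega)
    omega

private theorem cr_dot {w : Fin n → ℕ} {N : ℕ} {j : Fin n} {z : GG n}
    (h : ∀ i, i ≠ j → (N : ℤ) * z.1 i = z.2 * (w i : ℤ)) (u : Fin n →₀ ℕ) :
    (N : ℤ) * dotH u z = z.2 * (wt w u : ℤ) + (u j : ℤ) * (N * z.1 j - z.2 * w j) := by
  have h1 : (N : ℤ) * dotH u z - z.2 * (wt w u : ℤ) =
      ∑ i, (u i : ℤ) * (N * z.1 i - z.2 * w i) := by
    rw [dotH_apply]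
    unfold wt
    push_cast
    rw [Finset.mul_sum, Finset.mul_sum, ← Finset.sum_sub_distrib]
    refine Finset.sum_congr rfl fun i _ => ?_
    ring
  have h2 : ∑ i, (u i : ℤ) * (N * z.1 i - z.2 * w i) = (u j : ℤ) * (N * z.1 j - z.2 * w j) := by
    refine Finset.sum_eq_single j (fun i _ hi => ?_) (fun hj => absurd (Finset.mem_univ _) hj)
    rw [h i hi]
    ring
  linarith

private theorem cr_kap {f : MvPolynomial (Fin n) ℂ} {J : Finset (Fin n)} {w : Fin n → ℕ} {N : ℕ}
    {j : Fin n} {v : Fin n →₀ ℕ} {z : GG n} (hvj : v j = 1)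
    (h : ∀ i, i ≠ j → (N : ℤ) * z.1 i = z.2 * (w i : ℤ)) (k : Kid f J v j) :
    (N : ℤ) * kapF f J v j k z = z.2 * kapF f J v j k (emb N w) +
      (match k with
        | .inl _ => 0
        | .inr (.inl u) => (u.1 j : ℤ) - 1
        | .inr (.inr _) => 0) * (N * z.1 j - z.2 * w j) := by
  have hv := cr_dot h v
  rw [hvj] at hv
  rcases k with u | (u | ⟨u, u'⟩)
  · have h0 := (cr_mem_U0 u.2).2
    have hu := cr_dot h u.1
    rw [h0] at hu
    simp only [kapF, AddMonoidHom.add_apply, AddMonoidHom.sub_apply, dotH_emb, coordH_apply]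
    simp only [emb]
    push_cast at hu hv ⊢
    linear_combination hu - hv
  · have hu := cr_dot h u.1
    simp only [kapF, AddMonoidHom.sub_apply, dotH_emb]
    push_cast at hu hv ⊢
    linear_combination hu - hv
  · have hu := cr_dot h u.1
    have hu' := cr_dot h u'.1
    rw [(cr_mem_U0 u'.2).2] at hu'
    simp only [kapF, AddMonoidHom.add_apply, AddMonoidHom.sub_apply, AddMonoidHom.smul_apply,
      dotH_emb, smul_eq_mul]
    push_cast at hu hv hu' ⊢
    linear_combination hu - hv + ((u.1 j : ℤ) - 1) * (hu' - hv)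

private theorem cr_kap_one {f : MvPolynomial (Fin n) ℂ} {J : Finset (Fin n)} {j : Fin n}
    {v : Fin n →₀ ℕ} (k : Kid f J v j) : kapF f J v j k ((0, 1) : GG n) = 0 := by
  have hd : ∀ v : Fin n →₀ ℕ, dotH v ((0, 1) : GG n) = 0 := by
    intro v; rw [dotH_apply]; simp
  rcases k with u | (u | ⟨u, u'⟩) <;>
    simp [kapF, hd, coordH_apply]

/-- there is another coordinate -/
private theorem cr_other {f : MvPolynomial (Fin n) ℂ} {J : Finset (Fin n)} {w : Fin n → ℕ} {N : ℕ}
    {j : Fin n} {v : Fin n →₀ ℕ} (hN : 0 < N) (hap : Apex f J w N j v) {s₀ : ℚ} (h1 : s₀ ≠ -1)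
    (hs : ((∑ i, w i : ℕ) : ℚ) = -s₀ * N) : ∃ i, i ≠ j ∧ 0 < w i := by
  by_contra hcon
  push Not at hcon
  have hv := (cr_wt_v hap).1
  have e1 : wt w v = w j := by
    unfold wt
    rw [Finset.sum_eq_single j (fun i _ hi => by
      have := hcon i hi
      have : w i = 0 := by omega
      rw [this, zero_mul]) (fun hj => absurd (Finset.mem_univ _) hj), hap.2.1, mul_one]
  have e2 : ∑ i, w i = w j := by
    refine Finset.sum_eq_single j (fun i _ hi => ?_) (fun hj => absurd (Finset.mem_univ _) hj)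
    have := hcon i hi
    omega
  rw [e2, ← e1, hv] at hs
  have hNq : (0 : ℚ) < N := by exact_mod_cast hN
  apply h1
  have h2 : (N : ℚ) * (s₀ + 1) = 0 := by linarith
  rcases mul_eq_zero.1 h2 with h3 | h3
  · exact absurd h3 hNq.ne'
  · linarith

private theorem cr_lt_K {w : Fin n → ℕ} {N : ℕ} (hN : 0 < N) {s₀ : ℚ}
    (hs : ((∑ i, w i : ℕ) : ℚ) = -s₀ * N) {K : ℕ} (hK : -s₀ < K) (i : Fin n) :
    (w i : ℤ) < K * N := by
  have hNq : (0 : ℚ) < N := by exact_mod_cast hN
  have h1 : w i ≤ ∑ i, w i := Finset.single_le_sum (fun _ _ => Nat.zero_le _) (Finset.mem_univ i)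
  have h2 : ((w i : ℕ) : ℚ) ≤ ((∑ i, w i : ℕ) : ℚ) := by exact_mod_cast h1
  have h3 : ((w i : ℕ) : ℚ) < (K : ℚ) * N := by
    rw [hs] at h2
    nlinarith
  exact_mod_cast h3

private theorem cr_mu_pos {f : MvPolynomial (Fin n) ℂ} {κ : Type} [Fintype κ] {K : ℕ}
    {J S : Finset (Fin n)} {I : Finset (Fin n →₀ ℕ)} {ty : ℕ} {v₀ : Fin n →₀ ℕ}
    {kap : κ → GG n →+ ℤ} {B : Finset κ} {z : GG n}
    (hz : MaxTight (lamX f K v₀ kap B) (EX f κ J I S ty) z) : 0 < z.2 := by
  obtain ⟨hz0, hzC, -⟩ := hz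
  obtain ⟨⟨-, c1⟩, -, c3, ⟨c4, -⟩, -⟩ := mem_coneX_iff.1 hzC
  have hdot : 0 ≤ dotH v₀ z := by
    rw [dotH_apply]
    exact Finset.sum_nonneg fun j _ => mul_nonneg (c1 j) (by positivity)
  rcases lt_or_eq_of_le (hdot.trans c4) with h | h
  · exact h
  · exfalso
    apply hz0
    refine Prod.ext ?_ h.symm
    funext j
    have := (c3 j).2
    rw [← h, mul_zero] at this
    exact le_antisymm this (c1 j)

/-- the final contradiction for `Δ < 0` -/
private theorem cr_final {f : MvPolynomial (Fin n) ℂ} {J' J : Finset (Fin n)} {w : Fin n → ℕ}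
    {N : ℕ} {j : Fin n} {v : Fin n →₀ ℕ} (hN : 0 < N) {K : ℕ}
    (hother : ∃ i, i ≠ j ∧ 0 < w i) (hltK : ∀ i, (w i : ℤ) < K * N)
    {g : MvPolynomial (Fin n) ℂ} {B : Finset (Kid f J' v j)}
    {I : Finset (Fin n →₀ ℕ)} {S : Finset (Fin n)} {ty : ℕ} {v₀ : Fin n →₀ ℕ} {z : GG n}
    (hz : MaxTight (lamX g K v₀ (kapF f J' v j) B) (EX g (Kid f J' v j) J I S ty) z)
    (hmu : 0 < z.2)
    (h : ∀ i, i ≠ j → (N : ℤ) * z.1 i = z.2 * (w i : ℤ))
    (hΔ : (N : ℤ) * z.1 j < z.2 * w j) (hlt : dotH v₀ z < z.2) : False := by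
  have hNz : (0 : ℤ) < N := by exact_mod_cast hN
  have hzK : ∀ i, z.1 i < K * z.2 := by
    intro i
    have h1 : (N : ℤ) * z.1 i ≤ z.2 * w i := by
      by_cases hi : i = j
      · rw [hi]; exact hΔ.le
      · exact (h i hi).le
    have h2 : z.2 * (w i : ℤ) < z.2 * (K * N) := mul_lt_mul_of_pos_left (hltK i) hmu
    have h3 : (N : ℤ) * z.1 i < N * (K * z.2) := by
      calc (N : ℤ) * z.1 i ≤ z.2 * w i := h1
        _ < z.2 * (K * N) := h2
        _ = _ := by ring
    exact lt_of_mul_lt_mul_left h3 hNz.le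
  have hd : ∀ v : Fin n →₀ ℕ, dotH v ((0, 1) : GG n) = 0 := by
    intro v; rw [dotH_apply]; simp
  obtain ⟨p, q, hp, hpq⟩ := MaxTight.proportional (lamX g K v₀ (kapF f J' v j) B)
    (lamX_inj g K v₀ (kapF f J' v j) B) hz ((0, 1) : GG n) (by
      rintro (((i | u) | (i | _)) | k) hk
      · simp [lamX, lamF, coordH_apply]
      · simp [lamX, lamF, hd]
      · exfalso
        simp only [lamX, lamF, AddMonoidHom.sub_apply, AddMonoidHom.smul_apply, muH_apply,
          coordH_apply, smul_eq_mul] at hk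
        have := hzK i
        omega
      · exfalso
        simp only [lamX, lamF, AddMonoidHom.sub_apply, muH_apply] at hk
        omega
      · by_cases hkB : k ∈ B
        · rw [lamX_inr_neg hkB, AddMonoidHom.neg_apply, cr_kap_one, neg_zero]
        · rw [lamX_inr_pos hkB, cr_kap_one])
  obtain ⟨i, hij, hi⟩ := hother
  have h1 : p * 0 = q * z.1 i := congrFun (congrArg Prod.fst hpq) i
  have h2 : p * 1 = q * z.2 := congrArg Prod.snd hpq
  have h3 : 0 < z.1 i := by
    have h4 := h i hij
    have h5 : 0 < z.2 * (w i : ℤ) := mul_pos hmu (by exact_mod_cast hi)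
    rw [← h4] at h5
    exact pos_of_mul_pos_right h5 hNz.le
  rw [mul_zero] at h1
  rcases mul_eq_zero.1 h1.symm with h4 | h4
  · rw [h4, zero_mul, mul_one] at h2
    exact hp h2
  · omega

private theorem cr_hyp {w : Fin n → ℕ} {N : ℕ} {j : Fin n} {z : GG n}
    (h : (N : ℤ) • thj j z.1 = z.2 • thj j (zv w)) :
    ∀ i, i ≠ j → (N : ℤ) * z.1 i = z.2 * (w i : ℤ) := by
  intro i hi
  have h1 := congrFun h i
  simp only [Pi.smul_apply, thj_apply, if_neg hi, smul_eq_mul] at h1
  exact h1

/-- The rays of the pieces with a nonempty pattern. -/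
theorem colray1 {f : MvPolynomial (Fin n) ℂ} {J : Finset (Fin n)} {w : Fin n → ℕ} {N : ℕ}
    {j : Fin n} {v : Fin n →₀ ℕ} (hN : 0 < N) (hmin : ∀ u ∈ f.support, N ≤ wt w u)
    (hap : Apex f J w N j v) {s₀ : ℚ} (h1 : s₀ ≠ -1) (hs : ((∑ i, w i : ℕ) : ℚ) = -s₀ * N)
    {K : ℕ} (hK : -s₀ < K) {B : Finset (Kid f J v j)} (hB : B.Nonempty)
    {I : Finset (Fin n →₀ ℕ)} {S : Finset (Fin n)} {ty : ℕ} {v₀ : Fin n →₀ ℕ} {z : GG n}
    (hz : MaxTight (lamX f K v₀ (kapF f J v j) B) (EX f (Kid f J v j) J I S ty) z) :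
    (N : ℤ) • thj j z.1 ≠ z.2 • thj j (zv w) := by
  intro heq
  have h := cr_hyp heq
  have hNz : (0 : ℤ) < N := by exact_mod_cast hN
  have hmu := cr_mu_pos hz
  obtain ⟨⟨-, c1⟩, c2, c3, ⟨c4, -⟩, c7, -⟩ := mem_coneX_iff.1 hz.2.1
  obtain ⟨hwv, hvs⟩ := cr_wt_v hap
  obtain ⟨k, hk⟩ := hB
  have hk7 := c7 k hk
  have hkap := cr_kap (f := f) (J := J) (v := v) hap.2.1 h k
  have hpos := kapF_pos hmin hap k
  have hle : (N : ℤ) * kapF f J v j k z ≤ 0 := mul_nonpos_of_nonneg_of_nonpos hNz.le hk7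
  have hpos2 : 0 < z.2 * kapF f J v j k (emb N w) := mul_pos hmu hpos
  have hΔ : (N : ℤ) * z.1 j < z.2 * w j := by
    rcases k with u | (u | ⟨u, u'⟩)
    · simp only [zero_mul, add_zero] at hkap
      omega
    · simp only at hkap
      have h3 := (cr_mem_KKs u.2).2.2.1
      by_contra hcon
      push Not at hcon
      have h4 : (0 : ℤ) ≤ ((u.1 j : ℤ) - 1) * (N * z.1 j - z.2 * w j) :=
        mul_nonneg (by omega) (by omega)
      omega
    · simp only [zero_mul, add_zero] at hkap
      omega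
  have hdv := cr_dot h v
  rw [hap.2.1, hwv] at hdv
  have hlt : dotH v z < z.2 := by
    have h5 : (N : ℤ) * dotH v z < N * z.2 := by
      rw [hdv]
      push_cast
      linarith
    exact lt_of_mul_lt_mul_left h5 hNz.le
  have hlt2 : dotH v₀ z < z.2 := lt_of_le_of_lt (c2 v hvs).2 hlt
  exact cr_final hN (cr_other hN hap h1 hs) (cr_lt_K hN hs hK) hz hmu h hΔ hlt2

/-- The rays of the pieces of the zone. -/
theorem colray2 {f : MvPolynomial (Fin n) ℂ} {J : Finset (Fin n)} {w : Fin n → ℕ} {N : ℕ}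
    {j : Fin n} {v : Fin n →₀ ℕ} (hN : 0 < N) (hmin : ∀ u ∈ f.support, N ≤ wt w u)
    (hwJ : ∀ i ∈ J, w i = 0)
    (hap : Apex f J w N j v) {s₀ : ℚ} (h1 : s₀ ≠ -1) (hs : ((∑ i, w i : ℕ) : ℚ) = -s₀ * N)
    {K : ℕ} (hK : -s₀ < K)
    {I : Finset (Fin n →₀ ℕ)} {S : Finset (Fin n)} {ty : ℕ} {z : GG n}
    (hz : MaxTight (lamX (monF f v) K v (kapF f J v j) ∅)
      (EX (monF f v) (Kid f J v j) J I S ty) z) :
    (N : ℤ) • thj j z.1 ≠ z.2 • thj j (zv w) := by
  intro heq
  have h := cr_hyp heq
  have hNz : (0 : ℤ) < N := by exact_mod_cast hN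
  have hmu := cr_mu_pos hz
  obtain ⟨⟨-, c1⟩, c2, c3, ⟨c4, -⟩, -, -⟩ := mem_coneX_iff.1 hz.2.1
  obtain ⟨hwv, hvs⟩ := cr_wt_v hap
  have hdv := cr_dot h v
  rw [hap.2.1, hwv] at hdv
  have hle : (N : ℤ) * z.1 j ≤ z.2 * w j := by
    have h5 : (N : ℤ) * dotH v z ≤ N * z.2 := mul_le_mul_of_nonneg_left c4 hNz.le
    rw [hdv] at h5
    push_cast at h5
    linarith
  rcases lt_or_eq_of_le hle with hΔ | hΔ
  · have hlt : dotH v z < z.2 := by
      have h5 : (N : ℤ) * dotH v z < N * z.2 := by
        rw [hdv]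
        push_cast
        linarith
      exact lt_of_mul_lt_mul_left h5 hNz.le
    exact cr_final hN (cr_other hN hap h1 hs) (cr_lt_K hN hs hK) hz hmu h hΔ hlt
  · -- the facet vector itself
    have hall : ∀ i, (N : ℤ) * z.1 i = z.2 * w i := by
      intro i
      by_cases hi : i = j
      · rw [hi]; exact hΔ
      · exact h i hi
    have hzK : ∀ i, z.1 i < K * z.2 := by
      intro i
      have h2 : z.2 * (w i : ℤ) < z.2 * (K * N) :=
        mul_lt_mul_of_pos_left (cr_lt_K hN hs hK i) hmu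
      have h3 : (N : ℤ) * z.1 i < N * (K * z.2) := by
        calc (N : ℤ) * z.1 i = z.2 * w i := hall i
          _ < z.2 * (K * N) := h2
          _ = _ := by ring
      exact lt_of_mul_lt_mul_left h3 hNz.le
    have hkpos : ∀ k : Kid f J v j, 0 < kapF f J v j k z := by
      intro k
      have h4 := cr_kap (f := f) (J := J) (v := v) hap.2.1 h k
      have h5 : (N : ℤ) * z.1 j - z.2 * w j = 0 := by rw [hΔ]; ring
      rw [h5, mul_zero, add_zero] at h4
      have h6 : 0 < z.2 * kapF f J v j k (emb N w) := mul_pos hmu (kapF_pos hmin hap k)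
      rw [← h4] at h6
      exact pos_of_mul_pos_right h6 hNz.le
    have hdy : dotH v ((Pi.single j 1, 1) : GG n) = 1 := by
      rw [dotH_apply]
      rw [Finset.sum_eq_single j (fun i _ hi => by simp [Pi.single_eq_of_ne hi])
        (fun hj => absurd (Finset.mem_univ _) hj)]
      simp [hap.2.1]
    obtain ⟨p, q, hp, hpq⟩ := MaxTight.proportional (lamX (monF f v) K v (kapF f J v j) ∅)
      (lamX_inj (monF f v) K v (kapF f J v j) ∅) hz ((Pi.single j 1, 1) : GG n) (by
        rintro (((i | u) | (i | _)) | k) hk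
        · have hk' : z.1 i = 0 := hk
          have hij : i ≠ j := by
            rintro rfl
            have h4 := hall i
            rw [hk', mul_zero] at h4
            have h5 : 0 < z.2 * (w i : ℤ) := mul_pos hmu (by exact_mod_cast hap.2.2.1)
            omega
          show (Pi.single j 1 : Fin n → ℤ) i = 0
          exact Pi.single_eq_of_ne hij _
        · have hu : u.1 = v := by
            have h7 : ∀ x ∈ (monF f v).support, x = v := by
              intro x hx
              rw [support_monF hvs, Finset.mem_singleton] at hx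
              exact hx
            exact h7 u.1 u.2
          simp [lamX, lamF, hu]
        · exfalso
          simp only [lamX, lamF, AddMonoidHom.sub_apply, AddMonoidHom.smul_apply, muH_apply,
            coordH_apply, smul_eq_mul] at hk
          have := hzK i
          omega
        · simp only [lamX, lamF, AddMonoidHom.sub_apply, muH_apply, hdy]
          rfl
        · exfalso
          rw [lamX_inr_pos (Finset.notMem_empty k)] at hk
          have := hkpos k
          omega)
    obtain ⟨i, hij, hi⟩ := cr_other hN hap h1 hs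
    have e1 : p * (Pi.single j 1 : Fin n → ℤ) i = q * z.1 i :=
      congrFun (congrArg Prod.fst hpq) i
    have e2 : p * 1 = q * z.2 := congrArg Prod.snd hpq
    rw [Pi.single_eq_of_ne hij, mul_zero] at e1
    have h3 : 0 < z.1 i := by
      have h5 : 0 < z.2 * (w i : ℤ) := mul_pos hmu (by exact_mod_cast hi)
      rw [← hall i] at h5
      exact pos_of_mul_pos_right h5 hNz.le
    rcases mul_eq_zero.1 e1.symm with h4 | h4
    · rw [h4, zero_mul, mul_one] at e2
      exact hp e2
    · omega

end MPb07157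
end
end
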