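import Pool.Agent.Lib.MP_b07157_ag.N3.GenR1

/-!
# Generating functions of polyhedral sets: rationality and decomposition
-/

noncomputable section

namespace MPb07157

open Finset

variable {G ι R : Type} [AddCommGroup G] [Fintype ι] [CommRing R] (lam : ι → G →+ ℤ)

omit [Fintype ι] in
theorem MaxTight.of_subset {E E' : Finset ι} (h : E ⊆ E') {z : G} (hz : MaxTight lam E' z) :
    MaxTight lam E z := by
  obtain ⟨h0, h1, h2⟩ := hz
  refine ⟨h0, ⟨h1.1, fun k hk => h1.2 k (h hk)⟩, fun y hy hy0 hzy => ?_⟩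
  refine h2 y ⟨hy.1, fun j hj => ?_⟩ hy0 hzy
  simpa using hzy j (by simpa using h1.2 j hj)

/-- The denominators of the generating function of a polyhedral set. -/
theorem genR_regP (hinj : ∀ z, (∀ k, lam k z = 0) → z = 0) (om : Multiplicative G →* Rˣ)
    (mu : G →+ ℤ) (E : Finset ι) (W : Set (Rˣ × ℕ))
    (hW : ∀ w, MaxTight lam E w → 0 < mu w → rayP om mu w ∈ W)
    (c : ι → ℤ) (hpos : ∀ z ∈ PSet lam c E, 0 ≤ mu z)
    (hfin : ∀ m : ℤ, {z ∈ PSet lam c E | mu z = m}.Finite) :
    RegP W (genR om mu (PSet lam c E)) := by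
  refine genR_induct lam hinj om mu (regPGroup W) (fun u k => regP_monomial W u k) E
    (fun E' hE hex => ?_) c hpos hfin
  obtain ⟨w, hw⟩ := hex
  refine Or.inr ⟨w, hw, fun hmu F hF => ?_⟩
  have hb : 0 < (rayP om mu w).2 := by
    show 0 < (mu w).toNat
    omega
  exact RegP.div (hW w (MaxTight.of_subset lam hE hw) hmu) hb hF

/-- The decomposition: if for every cone `E' ⊇ E` without rays in `O` all rays lie in one of the
sets `A j`, then the generating function is a sum of series with denominators in `O ∪ A j`. -/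
theorem genR_dec (hinj : ∀ z, (∀ k, lam k z = 0) → z = 0) (om : Multiplicative G →* Rˣ)
    (mu : G →+ ℤ) {Λ : Type} [Fintype Λ] (O : Set G) (A : Λ → Set G) (E : Finset ι)
    (h : ∀ E', E ⊆ E' → (∃ w, MaxTight lam E' w) → (∀ w, MaxTight lam E' w → w ∉ O) →
      ∃ j, ∀ w, MaxTight lam E' w → w ∈ A j)
    (c : ι → ℤ) (hpos : ∀ z ∈ PSet lam c E, 0 ≤ mu z)
    (hfin : ∀ m : ℤ, {z ∈ PSet lam c E | mu z = m}.Finite) :
    ∃ (F₀ : PowerSeries R) (F : Λ → PowerSeries R),
      genR om mu (PSet lam c E) = F₀ + ∑ j, F j ∧ RegP (rayP om mu '' O) F₀ ∧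
        ∀ j, RegP (rayP om mu '' (O ∪ A j)) (F j) := by
  classical
  let C : AddSubgroup (PowerSeries R) :=
    { carrier := {X | ∃ (F₀ : PowerSeries R) (F : Λ → PowerSeries R),
        X = F₀ + ∑ j, F j ∧ RegP (rayP om mu '' O) F₀ ∧
          ∀ j, RegP (rayP om mu '' (O ∪ A j)) (F j)}
      zero_mem' := ⟨0, fun _ => 0, by simp, regP_zero _, fun _ => regP_zero _⟩
      add_mem' := by
        rintro X Y ⟨F₀, F, rfl, hF0, hF⟩ ⟨G₀, H, rfl, hG0, hH⟩
        refine ⟨F₀ + G₀, fun j => F j + H j, ?_, hF0.add hG0, fun j => (hF j).add (hH j)⟩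
        rw [Finset.sum_add_distrib]
        abel
      neg_mem' := by
        rintro X ⟨F₀, F, rfl, hF0, hF⟩
        refine ⟨-F₀, fun j => -F j, ?_, hF0.neg, fun j => (hF j).neg⟩
        rw [Finset.sum_neg_distrib]
        abel }
  have key : genR om mu (PSet lam c E) ∈ C := by
    refine genR_induct lam hinj om mu C (fun u k => ?_) E (fun E' hE hex => ?_) c hpos hfin
    · exact ⟨PowerSeries.C u * PowerSeries.X ^ k, fun _ => 0, by simp, regP_monomial _ u k,
        fun _ => regP_zero _⟩
    · by_cases hO : ∃ w, MaxTight lam E' w ∧ w ∈ O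
      · obtain ⟨w, hw, hwO⟩ := hO
        refine Or.inr ⟨w, hw, fun hmu X hX => ?_⟩
        have hb : 0 < (rayP om mu w).2 := by
          show 0 < (mu w).toNat
          omega
        obtain ⟨u, hu⟩ := isUnit_fac (rayP om mu w) hb
        obtain ⟨F₀, F, hXF, hF0, hF⟩ := hX
        have hmul : ∀ Y : PowerSeries R,
            ((fac (rayP om mu w) : Polynomial R) : PowerSeries R) * ((↑u⁻¹ : PowerSeries R) * Y)
              = Y := by
          intro Y
          rw [← hu, ← mul_assoc, Units.mul_inv, one_mul]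
        refine ⟨(↑u⁻¹ : PowerSeries R) * F₀, fun j => (↑u⁻¹ : PowerSeries R) * F j, ?_, ?_, ?_⟩
        · rw [← Finset.mul_sum, ← mul_add, ← hXF, ← hu, ← mul_assoc, Units.inv_mul, one_mul]
        · refine RegP.div (Set.mem_image_of_mem _ hwO) hb ?_
          rw [hmul]
          exact hF0
        · intro j
          refine RegP.div (Set.mem_image_of_mem _ (Or.inl hwO)) hb ?_
          rw [hmul]
          exact hF j
      · obtain ⟨j, hj⟩ := h E' hE hex (fun w hw hwO => hO ⟨w, hw, hwO⟩)
        refine Or.inl fun c' hpos' hfin' => ?_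
        refine ⟨0, Pi.single j (genR om mu (PSet lam c' E')), ?_, regP_zero _, fun i => ?_⟩
        · rw [zero_add, Finset.sum_pi_single']
          simp
        · by_cases hij : i = j
          · subst hij
            rw [Pi.single_eq_same]
            refine genR_regP lam hinj om mu E' _ (fun w hw _ => ?_) c' hpos' hfin'
            exact Set.mem_image_of_mem _ (Or.inr (hj w hw))
          · rw [Pi.single_eq_of_ne hij]
            exact regP_zero _
  exact key

end MPb07157
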