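import Pool.Agent.Lib.MP_b07157_ag.N3.MonoDefs

/-!
# Coprimality of denominators over the ring of Laurent polynomials
-/

noncomputable section

namespace MPb07157

open Finset

variable {n : ℕ}

/-- `1 - u x^γ` is not a zero divisor for `γ ≠ 0`. -/
theorem eq_zero_of_one_sub_mul {γ : Fin n → ℤ} (hγ : γ ≠ 0) (u : Mot) (r : RX n)
    (h : (1 - AddMonoidAlgebra.single γ u) * r = 0) : r = 0 := by
  have h1 : r = AddMonoidAlgebra.single γ u * r := by
    have h2 : (1 - AddMonoidAlgebra.single γ u) * r = r - AddMonoidAlgebra.single γ u * r := by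
      rw [sub_mul, one_mul]
    rw [h2] at h
    exact sub_eq_zero.mp h
  have hstep : ∀ α : Fin n → ℤ, α ∈ r.coeff.support → -γ + α ∈ r.coeff.support := by
    intro α hα
    rw [Finsupp.mem_support_iff] at hα ⊢
    intro h0
    apply hα
    have h2 : r.coeff α = (AddMonoidAlgebra.single γ u * r).coeff α := congrArg (fun s => s.coeff α) h1
    rw [h2, AddMonoidAlgebra.coeff_single_mul_apply, h0, mul_zero]
  have hsupp : r.coeff.support = ∅ := by
    by_contra hne
    obtain ⟨α, hα⟩ := Finset.nonempty_iff_ne_empty.mpr hne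
    have hall : ∀ k : ℕ, α - (k : ℤ) • γ ∈ r.coeff.support := by
      intro k
      induction k with
      | zero => simpa using hα
      | succ k ih =>
        have := hstep _ ih
        have e : -γ + (α - (k : ℤ) • γ) = α - ((k + 1 : ℕ) : ℤ) • γ := by
          push_cast
          rw [add_smul, one_smul]
          abel
        rwa [e] at this
    obtain ⟨i, hi⟩ := Function.ne_iff.mp hγ
    have hinj : Function.Injective fun k : ℕ => α - (k : ℤ) • γ := by
      intro k k' hkk
      have h2 := congrFun hkk i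
      simp only [Pi.sub_apply, Pi.smul_apply, smul_eq_mul] at h2
      have h3 : ((k : ℤ) - k') * γ i = 0 := by linarith
      rcases mul_eq_zero.mp h3 with h4 | h4
      · omega
      · exact absurd h4 hi
    exact (Set.infinite_of_injective_forall_mem hinj hall) (Finset.finite_toSet _)
  have h3 : r.coeff = 0 := Finsupp.support_eq_empty.mp hsupp
  ext α
  rw [h3]
  rfl

section Abs

variable {R : Type} [CommRing R]

private lemma mono1_fac (u : Rˣ) (b : ℕ) :
    fac (u, b) = (Polynomial.X ^ b - Polynomial.C ((u⁻¹ : Rˣ) : R)) * (-Polynomial.C (u : R)) := by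
  unfold fac
  have h : Polynomial.C ((u⁻¹ : Rˣ) : R) * Polynomial.C (u : R) = 1 := by
    rw [← Polynomial.C_mul, Units.inv_mul, Polynomial.C_1]
  linear_combination (-h)

private lemma mono1_cop {u u' : Rˣ} {b b' : ℕ} (hb : 0 < b)
    (hδ : ∀ r : R, ((u : R) ^ b' - (u' : R) ^ b) * r = 0 → r = 0) : CoP (u, b) (u', b') := by
  intro a c hac
  set δ : R := (u : R) ^ b' - (u' : R) ^ b with hδdef
  obtain ⟨g, hg⟩ := one_sub_dvd_one_sub_pow (Polynomial.C (u' : R) * Polynomial.X ^ b') b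
  obtain ⟨h, hh⟩ := one_sub_dvd_one_sub_pow (Polynomial.C (u : R) * Polynomial.X ^ b) b'
  have hz : fac (u', b') = 1 - Polynomial.C (u' : R) * Polynomial.X ^ b' := rfl
  have hw : fac (u, b) = 1 - Polynomial.C (u : R) * Polynomial.X ^ b := rfl
  rw [← hz] at hg
  rw [← hw] at hh
  have h1 : (Polynomial.C (u : R) * Polynomial.X ^ b) ^ b' -
      (Polynomial.C (u' : R) * Polynomial.X ^ b') ^ b =
      (Polynomial.X ^ b) ^ b' * Polynomial.C δ := by
    rw [hδdef, mul_pow, mul_pow, Polynomial.C_sub, Polynomial.C_pow, Polynomial.C_pow,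
      ← pow_mul, ← pow_mul, mul_comm b' b]
    ring
  have h2 : (Polynomial.X ^ b) ^ b' * (Polynomial.C δ * a) = fac (u, b) * (c * g - h * a) := by
    rw [← mul_assoc, ← h1]
    linear_combination (-a) * hh + a * hg + g * hac
  have hcop : IsCoprime (fac (u, b)) ((Polynomial.X ^ b) ^ b' : Polynomial R) := by
    apply IsCoprime.pow_right
    refine ⟨1, Polynomial.C (u : R), ?_⟩
    rw [hw]
    ring
  have h3 : fac (u, b) ∣ Polynomial.C δ * a := hcop.dvd_of_dvd_mul_left ⟨_, h2⟩
  set q0 : Polynomial R := Polynomial.X ^ b - Polynomial.C ((u⁻¹ : Rˣ) : R) with hq0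
  have hmonic : q0.Monic := Polynomial.monic_X_pow_sub_C _ hb.ne'
  have h4 : q0 ∣ Polynomial.C δ * a := by
    refine dvd_trans ?_ h3
    rw [mono1_fac]
    exact dvd_mul_right _ _
  rw [← Polynomial.modByMonic_eq_zero_iff_dvd hmonic, Polynomial.C_mul',
    Polynomial.smul_modByMonic] at h4
  have h5 : a %ₘ q0 = 0 := by
    ext i
    rw [Polynomial.coeff_zero]
    apply hδ
    have := congrArg (fun p : Polynomial R => p.coeff i) h4
    simpa using this
  obtain ⟨t, ht⟩ := (Polynomial.modByMonic_eq_zero_iff_dvd hmonic).mp h5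
  refine ⟨-Polynomial.C ((u⁻¹ : Rˣ) : R) * t, ?_⟩
  rw [mono1_fac, ht, ← hq0]
  have h6 : Polynomial.C (u : R) * Polynomial.C ((u⁻¹ : Rˣ) : R) = 1 := by
    rw [← Polynomial.C_mul, Units.mul_inv, Polynomial.C_1]
  linear_combination (-(q0 * t)) * h6

end Abs

private lemma mono1_pow (γ : Fin n → ℤ) (e : ℤ) (k : ℕ) :
    (uX γ e : (RX n)ˣ) ^ k = uX ((k : ℤ) • γ) ((k : ℤ) * e) := by
  induction k with
  | zero => rw [pow_zero, Nat.cast_zero, zero_smul, zero_mul, uX_zero]
  | succ k ih =>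
    rw [pow_succ, ih, ← uX_add]
    congr 1
    · push_cast
      rw [add_smul, one_smul]
    · push_cast
      ring

/-- Denominators with nonproportional exponents are coprime. -/
theorem cop_uX {γ γ' : Fin n → ℤ} {e e' : ℤ} {b b' : ℕ} (hb : 0 < b) (hb' : 0 < b')
    (h : (b' : ℤ) • γ ≠ (b : ℤ) • γ') : CoP (uX γ e, b) (uX γ' e', b') := by
  refine mono1_cop hb ?_
  intro r hr
  set γ'' : Fin n → ℤ := (b : ℤ) • γ' - (b' : ℤ) • γ with hγ''
  set e'' : ℤ := (b : ℤ) * e' - (b' : ℤ) * e with he''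
  have hγne : γ'' ≠ 0 := by
    rw [hγ'']
    intro h0
    exact h (sub_eq_zero.mp h0).symm
  have h1 : (uX γ' e' : (RX n)ˣ) ^ b = (uX γ e : (RX n)ˣ) ^ b' * uX γ'' e'' := by
    rw [mono1_pow, mono1_pow, ← uX_add]
    congr 1
    · rw [hγ'']; abel
    · rw [he'']; ring
  have h2 : ((uX γ' e' : (RX n)ˣ) : RX n) ^ b =
      ((uX γ e : (RX n)ˣ) : RX n) ^ b' * ((uX γ'' e'' : (RX n)ˣ) : RX n) := by
    rw [← Units.val_pow_eq_pow_val, h1, Units.val_mul, Units.val_pow_eq_pow_val]
  rw [h2] at hr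
  have h3 : (((uX γ e : (RX n)ˣ) ^ b' : (RX n)ˣ) : RX n) *
      ((1 - ((uX γ'' e'' : (RX n)ˣ) : RX n)) * r) = 0 := by
    rw [Units.val_pow_eq_pow_val, ← hr]
    ring
  have h4 : (1 - ((uX γ'' e'' : (RX n)ˣ) : RX n)) * r = 0 :=
    (Units.mul_right_eq_zero _).mp h3
  rw [uX_val] at h4
  exact eq_zero_of_one_sub_mul hγne _ r h4

end MPb07157
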