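import Pool.Agent.Lib.MP_b07157_ag.N3.PXDefs

/-!
# The parts of the zeta function: specializations and the total sum
-/

noncomputable section

namespace MPb07157

open MvPolynomial Finset

variable {n : ℕ}

theorem map_phiX_ZJx (f : MvPolynomial (Fin n) ℂ) (K : ℕ) (J : Finset (Fin n))
    (θ θ' : (Fin n → ℤ) →+ (Fin n → ℤ)) :
    PowerSeries.map (phiX θ') (ZJx f K J θ) = ZJx f K J (θ'.comp θ) := by
  refine PowerSeries.ext fun m => ?_
  unfold ZJx
  rw [PowerSeries.coeff_map, PowerSeries.coeff_mk, PowerSeries.coeff_mk, map_sum]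
  refine Finset.sum_congr rfl fun a _ => ?_
  rw [phiX_single]
  rfl

theorem map_augX_ZJx (f : MvPolynomial (Fin n) ℂ) (K : ℕ) (J : Finset (Fin n))
    (θ : (Fin n → ℤ) →+ (Fin n → ℤ)) :
    PowerSeries.map (augX n) (ZJx f K J θ) = ZJm f K J := by
  refine PowerSeries.ext fun m => ?_
  unfold ZJx ZJm
  rw [PowerSeries.coeff_map, PowerSeries.coeff_mk, PowerSeries.coeff_mk, map_sum]
  refine Finset.sum_congr rfl fun a _ => ?_
  rw [augX_single]

theorem augX_phiX (θ : (Fin n → ℤ) →+ (Fin n → ℤ)) :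
    (augX n).comp (phiX θ) = augX n := by
  refine RingHom.ext fun x => ?_
  rw [RingHom.comp_apply]
  induction x using AddMonoidAlgebra.induction_linear with
  | zero => rw [map_zero, map_zero]
  | add p q hp hq => rw [map_add, map_add, hp, hq, map_add]
  | single γ r => rw [phiX_single, augX_single, augX_single]

private theorem muE_eq_Wc {f : MvPolynomial (Fin n) ℂ} (hf : f ≠ 0) {K ε : ℕ} (hK : 1 ≤ K)
    (hε : ε ≤ 1) (hnd : ∀ a : Fin n → ℕ, NondegAt f (face f a (nuf f a))) (m : ℕ) :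
    muE f ε (m + 1) m = ∑ a ∈ Fintype.piFinset (fun _ : Fin n => Finset.Icc ε (K * (m + 1))),
      Wc f (K * (m + 1)) m a := by
  have hm : m < K * (m + 1) := by nlinarith
  have hεN : ε ≤ K * (m + 1) := by nlinarith
  rw [← muE_eq f hm hε]
  unfold muE
  rw [clsM_arcs_eq_sum f m hεN, Finset.mul_sum]
  refine Finset.sum_congr rfl fun a ha => ?_
  rw [Fintype.mem_piFinset] at ha
  rw [clsM_stratum hf hm (fun j => (Finset.mem_Icc.1 (ha j)).2) (hnd a)]
  unfold Wc c0 c1
  rfl

/-- The local zeta function is the part with positive orders. -/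
theorem ZE_one_eq {f : MvPolynomial (Fin n) ℂ} (hf : f ≠ 0) {K : ℕ} (hK : 1 ≤ K)
    (hnd : ∀ a : Fin n → ℕ, NondegAt f (face f a (nuf f a))) : ZE f 1 = ZJm f K ∅ := by
  refine PowerSeries.ext fun m => ?_
  unfold ZE ZJm
  rw [PowerSeries.coeff_mk, PowerSeries.coeff_mk, muE_eq_Wc hf hK le_rfl hnd]
  refine Finset.sum_congr ?_ fun _ _ => rfl
  ext a
  rw [mem_boxJ, Fintype.mem_piFinset]
  simp

/-- The global zeta function is the sum of its parts. -/
theorem ZE_zero_eq {f : MvPolynomial (Fin n) ℂ} (hf : f ≠ 0) {K : ℕ} (hK : 1 ≤ K)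
    (hnd : ∀ a : Fin n → ℕ, NondegAt f (face f a (nuf f a))) :
    ZE f 0 = ∑ J : Finset (Fin n), ZJm f K J := by
  classical
  refine PowerSeries.ext fun m => ?_
  rw [map_sum]
  unfold ZE ZJm
  rw [PowerSeries.coeff_mk, muE_eq_Wc hf hK zero_le_one hnd]
  rw [← Finset.sum_fiberwise_of_maps_to (g := fun a : Fin n → ℕ =>
    (Finset.univ.filter fun i => a i = 0)) (t := (Finset.univ : Finset (Finset (Fin n))))
    (fun _ _ => Finset.mem_univ _)]
  refine Finset.sum_congr rfl fun J _ => ?_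
  rw [PowerSeries.coeff_mk]
  refine Finset.sum_congr ?_ fun _ _ => rfl
  ext a
  rw [mem_boxJ, Finset.mem_filter, Fintype.mem_piFinset]
  constructor
  · rintro ⟨h1, h2⟩
    refine ⟨fun j hj => ?_, fun j hj => ?_⟩
    · rw [← h2] at hj
      exact (Finset.mem_filter.1 hj).2
    · have h3 : a j ≠ 0 := by
        intro h4
        apply hj
        rw [← h2]
        exact Finset.mem_filter.2 ⟨Finset.mem_univ _, h4⟩
      exact ⟨Nat.one_le_iff_ne_zero.2 h3, (Finset.mem_Icc.1 (h1 j)).2⟩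
  · rintro ⟨h1, h2⟩
    refine ⟨fun j => ?_, ?_⟩
    · rw [Finset.mem_Icc]
      refine ⟨Nat.zero_le _, ?_⟩
      by_cases hj : j ∈ J
      · rw [h1 j hj]
        exact Nat.zero_le _
      · exact (h2 j hj).2
    · ext j
      rw [Finset.mem_filter]
      constructor
      · rintro ⟨-, h3⟩
        by_contra hj
        have := (h2 j hj).1
        omega
      · intro hj
        exact ⟨Finset.mem_univ _, h1 j hj⟩

end MPb07157
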