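import Pool.Agent.Lib.MP_b07157_ag.N3.RegDefs

/-!
# Power series with prescribed denominators: closure properties
-/

noncomputable section

namespace MPb07157

open Finset

section Reg

variable {R : Type} [CommRing R]

theorem coe_fac (w : Rˣ × ℕ) : ((fac w : Polynomial R) : PowerSeries R) =
    1 - PowerSeries.C (w.1 : R) * PowerSeries.X ^ w.2 := by
  unfold fac
  rw [Polynomial.coe_sub, Polynomial.coe_one, Polynomial.coe_mul, Polynomial.coe_C,
    Polynomial.coe_pow, Polynomial.coe_X]

theorem constantCoeff_fac (w : Rˣ × ℕ) (h : 0 < w.2) :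
    PowerSeries.constantCoeff ((fac w : Polynomial R) : PowerSeries R) = 1 := by
  rw [coe_fac, map_sub, map_mul, map_pow, PowerSeries.constantCoeff_X, zero_pow h.ne', mul_zero,
    map_one, sub_zero]

theorem isUnit_fac (w : Rˣ × ℕ) (h : 0 < w.2) :
    IsUnit ((fac w : Polynomial R) : PowerSeries R) := by
  rw [PowerSeries.isUnit_iff_constantCoeff, constantCoeff_fac w h]
  exact isUnit_one

theorem RegP.mono {W W' : Set (Rˣ × ℕ)} {F : PowerSeries R} (h : RegP W F) (hW : W ⊆ W') :
    RegP W' F := by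
  obtain ⟨s, p, hs, hp⟩ := h
  exact ⟨s, p, fun w hw => ⟨hW (hs w hw).1, (hs w hw).2⟩, hp⟩

theorem regP_poly (W : Set (Rˣ × ℕ)) (p : Polynomial R) : RegP W (p : PowerSeries R) := by
  refine ⟨0, p, fun w hw => absurd hw (Multiset.notMem_zero w), ?_⟩
  rw [Multiset.map_zero, Multiset.prod_zero, Polynomial.coe_one, one_mul]

theorem regP_zero (W : Set (Rˣ × ℕ)) : RegP W (0 : PowerSeries R) := by
  have h := regP_poly W (0 : Polynomial R)
  rwa [Polynomial.coe_zero] at h

theorem regP_monomial (W : Set (Rˣ × ℕ)) (u : R) (k : ℕ) :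
    RegP W (PowerSeries.C u * PowerSeries.X ^ k) := by
  have h := regP_poly W (Polynomial.C u * Polynomial.X ^ k)
  rwa [Polynomial.coe_mul, Polynomial.coe_C, Polynomial.coe_pow, Polynomial.coe_X] at h

theorem RegP.add {W : Set (Rˣ × ℕ)} {F G : PowerSeries R} (hF : RegP W F) (hG : RegP W G) :
    RegP W (F + G) := by
  obtain ⟨s, p, hs, hp⟩ := hF
  obtain ⟨t, q, ht, hq⟩ := hG
  refine ⟨s + t, p * (t.map fac).prod + q * (s.map fac).prod, ?_, ?_⟩
  · intro w hw
    rcases Multiset.mem_add.1 hw with h | h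
    · exact hs w h
    · exact ht w h
  · rw [Multiset.map_add, Multiset.prod_add, Polynomial.coe_mul, Polynomial.coe_add,
      Polynomial.coe_mul, Polynomial.coe_mul, ← hp, ← hq]
    ring

theorem RegP.neg {W : Set (Rˣ × ℕ)} {F : PowerSeries R} (hF : RegP W F) : RegP W (-F) := by
  obtain ⟨s, p, hs, hp⟩ := hF
  refine ⟨s, -p, hs, ?_⟩
  rw [Polynomial.coe_neg, ← hp, mul_neg]

theorem RegP.sub {W : Set (Rˣ × ℕ)} {F G : PowerSeries R} (hF : RegP W F) (hG : RegP W G) :
    RegP W (F - G) := by
  rw [sub_eq_add_neg]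
  exact hF.add hG.neg

theorem RegP.sum {W : Set (Rˣ × ℕ)} {α : Type} (s : Finset α) (F : α → PowerSeries R)
    (h : ∀ i ∈ s, RegP W (F i)) : RegP W (∑ i ∈ s, F i) := by
  classical
  induction s using Finset.induction_on with
  | empty => rw [Finset.sum_empty]; exact regP_zero W
  | insert a s ha ih =>
    rw [Finset.sum_insert ha]
    exact (h a (Finset.mem_insert_self _ _)).add
      (ih fun i hi => h i (Finset.mem_insert_of_mem hi))

theorem RegP.polyMul {W : Set (Rˣ × ℕ)} {F : PowerSeries R} (hF : RegP W F) (q : Polynomial R) :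
    RegP W ((q : PowerSeries R) * F) := by
  obtain ⟨s, p, hs, hp⟩ := hF
  refine ⟨s, q * p, hs, ?_⟩
  rw [Polynomial.coe_mul, ← hp]
  ring

theorem RegP.C_mul {W : Set (Rˣ × ℕ)} {F : PowerSeries R} (hF : RegP W F) (a : R) :
    RegP W (PowerSeries.C a * F) := by
  have h := hF.polyMul (Polynomial.C a)
  rwa [Polynomial.coe_C] at h

theorem RegP.div {W : Set (Rˣ × ℕ)} {F : PowerSeries R} {w : Rˣ × ℕ} (hw : w ∈ W) (hb : 0 < w.2)
    (h : RegP W (((fac w : Polynomial R) : PowerSeries R) * F)) : RegP W F := by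
  obtain ⟨s, p, hs, hp⟩ := h
  refine ⟨w ::ₘ s, p, ?_, ?_⟩
  · intro z hz
    rcases Multiset.mem_cons.1 hz with h | h
    · rw [h]; exact ⟨hw, hb⟩
    · exact hs z h
  · rw [Multiset.map_cons, Multiset.prod_cons, Polynomial.coe_mul, ← hp]
    ring

/-- The additive subgroup of the series in `RegP W`. -/
def regPGroup (W : Set (Rˣ × ℕ)) : AddSubgroup (PowerSeries R) where
  carrier := {F | RegP W F}
  zero_mem' := regP_zero W
  add_mem' := RegP.add
  neg_mem' := RegP.neg

private theorem map_coe_poly {R' : Type} [CommRing R'] (φ : R →+* R') (p : Polynomial R) :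
    PowerSeries.map φ (p : PowerSeries R) = ((p.map φ : Polynomial R') : PowerSeries R') := by
  ext n
  rw [PowerSeries.coeff_map, Polynomial.coeff_coe, Polynomial.coeff_coe, Polynomial.coeff_map]

theorem RegP.map {R' : Type} [CommRing R'] (φ : R →+* R') {W : Set (Rˣ × ℕ)}
    {W' : Set (R'ˣ × ℕ)} (hW : ∀ w ∈ W, 0 < w.2 → (Units.map (φ : R →* R') w.1, w.2) ∈ W')
    {F : PowerSeries R} (h : RegP W F) : RegP W' (PowerSeries.map φ F) := by
  obtain ⟨s, p, hs, hp⟩ := h
  refine ⟨s.map (fun w => (Units.map (φ : R →* R') w.1, w.2)), p.map φ, ?_, ?_⟩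
  · intro z hz
    obtain ⟨w, hw, rfl⟩ := Multiset.mem_map.1 hz
    exact ⟨hW w (hs w hw).1 (hs w hw).2, (hs w hw).2⟩
  · have h1 := congrArg (PowerSeries.map φ) hp
    rw [map_mul, map_coe_poly, map_coe_poly] at h1
    rw [← h1]
    congr 2
    rw [Polynomial.map_multiset_prod, Multiset.map_map, Multiset.map_map]
    congr 1
    apply Multiset.map_congr rfl
    intro w _
    show fac (Units.map (φ : R →* R') w.1, w.2) = (fac w).map φ
    unfold fac
    rw [Polynomial.map_sub, Polynomial.map_one, Polynomial.map_mul, Polynomial.map_C,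
      Polynomial.map_pow, Polynomial.map_X]
    rfl

end Reg

/-- Regular series over `𝓜` without the candidate pole `s₀`. -/
theorem RegP.mem_regularAt {s₀ : ℚ} {W : Set (Motˣ × ℕ)}
    (hW : ∀ w ∈ W, 0 < w.2 → ∃ e : ℤ, w.1 = LU ^ (-e) ∧ (e : ℚ) ≠ -s₀ * w.2)
    {F : PowerSeries Mot} (h : RegP W F) : F ∈ regularAt s₀ := by
  obtain ⟨s, p, hs, hp⟩ := h
  -- polynomials
  have hpoly : ∀ p : Polynomial Mot, (p : PowerSeries Mot) ∈ regularAt s₀ := by
    intro p
    induction p using Polynomial.induction_on' with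
    | add p q hp hq => rw [Polynomial.coe_add]; exact add_mem hp hq
    | monomial n a =>
      rw [← Polynomial.C_mul_X_pow_eq_monomial, Polynomial.coe_mul, Polynomial.coe_C,
        Polynomial.coe_pow, Polynomial.coe_X]
      exact mul_mem (C_mem_regularAt _ _) (pow_mem (X_mem_regularAt _) _)
  -- inverses of the denominators
  have hinv : ∀ s : Multiset (Motˣ × ℕ), (∀ w ∈ s, w ∈ W ∧ 0 < w.2) →
      ∃ g ∈ regularAt s₀, g * (((s.map fac).prod : Polynomial Mot) : PowerSeries Mot) = 1 := by
    intro s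
    induction s using Multiset.induction_on with
    | empty =>
      intro _
      refine ⟨1, one_mem _, ?_⟩
      rw [Multiset.map_zero, Multiset.prod_zero, Polynomial.coe_one, one_mul]
    | cons w s ih =>
      intro hs
      obtain ⟨g, hg, hg1⟩ := ih (fun z hz => hs z (Multiset.mem_cons_of_mem hz))
      obtain ⟨hw, hb⟩ := hs w (Multiset.mem_cons_self w s)
      obtain ⟨e, he, hes⟩ := hW w hw hb
      have hcc : PowerSeries.constantCoeff ((fac w : Polynomial Mot) : PowerSeries Mot) =
          ((1 : Motˣ) : Mot) := by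
        rw [constantCoeff_fac w hb, Units.val_one]
      have hinv := PowerSeries.mul_invOfUnit ((fac w : Polynomial Mot) : PowerSeries Mot) 1 hcc
      have hmem : PowerSeries.invOfUnit ((fac w : Polynomial Mot) : PowerSeries Mot) 1 ∈
          regularAt s₀ := by
        apply Algebra.subset_adjoin
        refine Or.inr ⟨e, w.2, hb, ?_, ?_⟩
        · intro h
          apply hes
          have h2 : (w.2 : ℚ) ≠ 0 := by exact_mod_cast hb.ne'
          rwa [div_eq_iff h2] at h
        · rw [← he, ← coe_fac, mul_comm]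
          exact hinv
      refine ⟨_, mul_mem hmem hg, ?_⟩
      rw [Multiset.map_cons, Multiset.prod_cons, Polynomial.coe_mul]
      calc _ = (((fac w : Polynomial Mot) : PowerSeries Mot) *
            PowerSeries.invOfUnit ((fac w : Polynomial Mot) : PowerSeries Mot) 1) *
            (g * (((s.map fac).prod : Polynomial Mot) : PowerSeries Mot)) := by ring
        _ = 1 := by rw [hinv, hg1, one_mul]
  obtain ⟨g, hg, hg1⟩ := hinv s hs
  have h1 : F = g * (p : PowerSeries Mot) := by
    rw [← hp, ← mul_assoc, hg1, one_mul]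
  rw [h1]
  exact mul_mem hg (hpoly p)

end MPb07157
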