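import Pool.Agent.Lib.MP_b07157_ag.N3.ColDefs

/-!
# Labels of the facets that contribute a candidate pole: definitions
-/

noncomputable section

namespace MPb07157

open MvPolynomial Finset

variable {n : ℕ}

/-- The facets of the part `J` that contribute the candidate pole `s₀`. -/
def HF (f : MvPolynomial (Fin n) ℂ) (J : Finset (Fin n)) (s₀ : ℚ) (w : Fin n → ℕ) (N : ℕ) : Prop :=
  IsFacetWt f w N ∧ (∀ i ∈ J, w i = 0) ∧ ((∑ i, w i : ℕ) : ℚ) = -s₀ * N

/-- Two facets are joined: they meet, and the whole cone of their intersection contributes the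
candidate pole. -/
def Joined (f : MvPolynomial (Fin n) ℂ) (s₀ : ℚ) (w : Fin n → ℕ) (N : ℕ) (w' : Fin n → ℕ)
    (N' : ℕ) : Prop :=
  (∃ u, u ∈ face f w N ∧ u ∈ face f w' N') ∧
    ∀ (y : Fin n → ℤ) (c : ℤ), (∀ i, w i = 0 → w' i = 0 → y i = 0) →
      (∀ u, u ∈ face f w N → u ∈ face f w' N' → ∑ i, y i * (u i : ℤ) = c) →
      ((∑ i, y i : ℤ) : ℚ) = -s₀ * c

/-- A consistent labelling of the contributing facets by B1-directions. -/
structure Labels (f : MvPolynomial (Fin n) ℂ) (J : Finset (Fin n)) (s₀ : ℚ)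
    (lab : (Fin n → ℕ) → ℕ → Fin n) : Prop where
  apex : ∀ w N, HF f J s₀ w N → ∃ v, Apex f J w N (lab w N) v
  join : ∀ w N w' N', HF f J s₀ w N → HF f J s₀ w' N' → Joined f s₀ w N w' N' →
    lab w N = lab w' N'

/-- The denominators that do not contribute the candidate pole. -/
def OH (n : ℕ) (s₀ : ℚ) : Set ((RX n)ˣ × ℕ) :=
  {p | ∃ (γ : Fin n → ℤ) (e : ℤ) (b : ℕ), p = (uX γ e, b) ∧ (e : ℚ) ≠ -s₀ * b}

/-- The denominators of the contributing facets with label `j`. -/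
def AL (f : MvPolynomial (Fin n) ℂ) (J : Finset (Fin n)) (s₀ : ℚ)
    (lab : (Fin n → ℕ) → ℕ → Fin n) (j : Fin n) : Set ((RX n)ˣ × ℕ) :=
  {p | ∃ (w : Fin n → ℕ) (N : ℕ), HF f J s₀ w N ∧ lab w N = j ∧
    p = (uX (zv w) (∑ i, (w i : ℤ)), N)}

/-- No additional forms. -/
def kapE (n : ℕ) : Empty → GG n →+ ℤ := fun k => k.elim

end MPb07157
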