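import Pool.Agent.Lib.MP_b07157_ag.N3.PXDefs

/-!
# Pieces of the zeta function: fibres and coefficients
-/

noncomputable section

namespace MPb07157

open MvPolynomial Finset

variable {n : ℕ} {κ : Type} [Fintype κ]

/-- The points of a piece have nonnegative last coordinate. -/
theorem PX_pos {f : MvPolynomial (Fin n) ℂ} {K : ℕ} {J : Finset (Fin n)}
    {I : Finset (Fin n →₀ ℕ)} {S : Finset (Fin n)} {ty : ℕ} {kap : κ → GG n →+ ℤ} {B : Finset κ}
    {z : GG n} (hz : z ∈ PX f K J I S ty kap B) : 0 ≤ muH n z := by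
  unfold PX at hz
  rw [mem_PX_iff] at hz
  obtain ⟨⟨h1, h2⟩, -, -, ⟨h5, -⟩, -⟩ := hz
  have h0 : ∀ j, 0 ≤ z.1 j := by
    intro j
    by_cases hj : j ∈ J
    · exact (h1 j hj).ge
    · exact le_trans zero_le_one (h2 j hj)
  have hdot : 0 ≤ dotH (v0 I) z := by
    rw [dotH_apply]
    exact Finset.sum_nonneg fun j _ => mul_nonneg (h0 j) (by positivity)
  rw [muH_apply]
  omega

/-- The fibres of a piece are finite. -/
theorem PX_finite {f : MvPolynomial (Fin n) ℂ} {K : ℕ} {J : Finset (Fin n)}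
    {I : Finset (Fin n →₀ ℕ)} {S : Finset (Fin n)} {ty : ℕ} {kap : κ → GG n →+ ℤ} {B : Finset κ}
    (m : ℤ) : {z ∈ PX f K J I S ty kap B | muH n z = m}.Finite := by
  classical
  have hfin : (((Fintype.piFinset (fun _ : Fin n => Finset.Icc (0 : ℤ) (K * m + K))).image
      (fun x => ((x, m) : GG n)) : Finset (GG n)) : Set (GG n)).Finite := Finset.finite_toSet _
  refine hfin.subset ?_
  rintro z ⟨hz, hm⟩
  unfold PX at hz
  rw [mem_PX_iff] at hz
  rw [muH_apply] at hm
  obtain ⟨⟨h1, h2⟩, -, h4, -, -⟩ := hz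
  rw [Finset.mem_coe, Finset.mem_image]
  refine ⟨z.1, ?_, Prod.ext rfl hm.symm⟩
  rw [Fintype.mem_piFinset]
  intro j
  rw [Finset.mem_Icc]
  constructor
  · by_cases hj : j ∈ J
    · exact (h1 j hj).ge
    · exact le_trans zero_le_one (h2 j hj)
  · have e := h4 j
    rw [hm] at e
    by_cases hj : j ∈ S
    · exact (e.1 hj).le
    · have := e.2 hj
      omega

open Classical in
/-- The order vectors belonging to a piece. -/
def boxX (f : MvPolynomial (Fin n) ℂ) (K : ℕ) (J : Finset (Fin n)) (I : Finset (Fin n →₀ ℕ))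
    (S : Finset (Fin n)) (ty : ℕ) (kap : κ → GG n →+ ℤ) (B : Finset κ) (m : ℕ) :
    Finset (Fin n → ℕ) :=
  (boxJ J (K * (m + 1))).filter fun a =>
    (face f a (nuf f a) = I ∧ SS (K * (m + 1)) a = S) ∧
      (nuf f a + ty ≤ m ∧ (ty = 0 → nuf f a = m)) ∧ patX kap m a = B

theorem PX_fiber {f : MvPolynomial (Fin n) ℂ} (hf : f ≠ 0) {K : ℕ} {J : Finset (Fin n)}
    {I : Finset (Fin n →₀ ℕ)} (hI : I.Nonempty) (hIf : I ⊆ f.support) (S : Finset (Fin n))
    (ty m : ℕ) (kap : κ → GG n →+ ℤ) (B : Finset κ) :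
    {z ∈ PX f K J I S ty kap B | muH n z = m} =
      ((boxX f K J I S ty kap B m).image (emb m) : Set (GG n)) := by
  classical
  ext z
  rw [Set.mem_ofPred_eq, muH_apply]
  unfold PX
  rw [mem_PX_iff]
  simp only [Finset.coe_image, Set.mem_image, Finset.mem_coe, boxX, Finset.mem_filter, mem_boxJ]
  have hv0 := v0_mem hI
  constructor
  · rintro ⟨⟨⟨h1, h1'⟩, h2, h3, ⟨h4, h5⟩, h7, h8⟩, h6⟩
    have h0 : ∀ j, 0 ≤ z.1 j := by
      intro j
      by_cases hj : j ∈ J
      · exact (h1 j hj).ge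
      · exact le_trans zero_le_one (h1' j hj)
    have hw : ∃ a : Fin n → ℕ, ∀ j, (a j : ℤ) = z.1 j :=
      ⟨fun j => (z.1 j).toNat, fun j => Int.toNat_of_nonneg (h0 j)⟩
    obtain ⟨a, ha⟩ := hw
    have hz : emb m a = z := by
      refine Prod.ext ?_ h6.symm
      funext j
      exact ha j
    have h2' := h2
    have h4' := h4
    have h5' := h5
    rw [← hz] at h2' h4' h5'
    simp only [dotH_emb] at h2' h4' h5'
    simp only [emb] at h4' h5'
    have hmin : IsMinWt f a (wt a (v0 I)) := by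
      refine ⟨fun v hv => ?_, v0 I, hIf hv0, rfl⟩
      by_cases hvI : v ∈ I
      · have := (h2' v hv).1 hvI
        omega
      · have := (h2' v hv).2 hvI
        omega
    have hnu : nuf f a = wt a (v0 I) := (isMinWt_nuf hf a).eq hmin
    refine ⟨a, ⟨⟨fun j hj => ?_, fun j hj => ?_⟩, ⟨?_, ?_⟩, ⟨?_, ?_⟩, ?_⟩, hz⟩
    · have e1 := h1 j hj
      rw [← ha j] at e1
      exact_mod_cast e1
    · have e1 := h1' j hj
      have e2 := h3 j
      rw [← ha j, h6] at e2
      rw [← ha j] at e1
      refine ⟨by omega, ?_⟩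
      have : ((a j : ℕ) : ℤ) ≤ K * m + K := by
        by_cases hj : j ∈ S
        · exact (e2.1 hj).le
        · have := e2.2 hj
          omega
      have h7 : ((a j : ℕ) : ℤ) ≤ ((K * (m + 1) : ℕ) : ℤ) := by push_cast; linarith
      exact_mod_cast h7
    · rw [hnu]
      ext v
      unfold face
      rw [Finset.mem_filter]
      constructor
      · rintro ⟨hv, h7⟩
        by_contra hvI
        have := (h2' v hv).2 hvI
        omega
      · intro hvI
        have := (h2' v (hIf hvI)).1 hvI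
        exact ⟨hIf hvI, by omega⟩
    · ext j
      unfold SS
      rw [Finset.mem_filter]
      have e2 := h3 j
      rw [← ha j, h6] at e2
      constructor
      · rintro ⟨-, h7⟩
        by_contra hj
        have := e2.2 hj
        have h8 : ((a j : ℕ) : ℤ) = K * m + K := by rw [h7]; push_cast; ring
        omega
      · intro hj
        refine ⟨Finset.mem_univ _, ?_⟩
        have := e2.1 hj
        have h8 : ((a j : ℕ) : ℤ) = ((K * (m + 1) : ℕ) : ℤ) := by rw [this]; push_cast; ring
        exact_mod_cast h8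
    · rw [hnu]; omega
    · intro ht
      rw [hnu]
      have := h5' ht
      omega
    · ext k
      rw [mem_patX, hz]
      constructor
      · intro hk
        by_contra hkB
        have := h8 k hkB
        omega
      · intro hk
        exact h7 k hk
  · rintro ⟨a, ⟨⟨h1, h1'⟩, ⟨h2, h3⟩, ⟨h4, h5⟩, h7⟩, rfl⟩
    simp only [dotH_emb]
    have hmin := isMinWt_nuf hf a
    have hv0' : wt a (v0 I) = nuf f a := by
      rw [← h2] at hv0
      have h9 : v0 (face f a (nuf f a)) ∈ face f a (nuf f a) := hv0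
      rw [face, Finset.mem_filter] at h9
      rw [← h2]
      exact h9.2
    refine ⟨⟨⟨fun j hj => ?_, fun j hj => ?_⟩, fun v hv => ⟨fun hvI => ?_, fun hvI => ?_⟩,
      fun j => ⟨fun hj => ?_, fun hj => ?_⟩, ⟨?_, fun ht => ?_⟩, fun k hk => ?_, fun k hk => ?_⟩,
      rfl⟩
    · simp only [emb]
      exact_mod_cast h1 j hj
    · simp only [emb]
      exact_mod_cast (h1' j hj).1
    · rw [← h2, face, Finset.mem_filter] at hvI
      rw [hv0', hvI.2]
    · rw [hv0']
      have e1 := hmin.1 v hv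
      have e2 : wt a v ≠ nuf f a := by
        intro h7
        apply hvI
        rw [← h2, face, Finset.mem_filter]
        exact ⟨hv, h7⟩
      omega
    · rw [← h3, SS, Finset.mem_filter] at hj
      simp only [emb]
      rw [hj.2]
      push_cast
      ring
    · have e1 : a j ≤ K * (m + 1) := by
        by_cases hjJ : j ∈ J
        · rw [h1 j hjJ]
          exact Nat.zero_le _
        · exact (h1' j hjJ).2
      have e2 : a j ≠ K * (m + 1) := by
        intro h7
        apply hj
        rw [← h3, SS, Finset.mem_filter]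
        exact ⟨Finset.mem_univ _, h7⟩
      have e3 : a j + 1 ≤ K * (m + 1) := by omega
      have e4 : ((a j : ℕ) : ℤ) + 1 ≤ K * (m + 1) := by exact_mod_cast e3
      simp only [emb]
      linarith
    · rw [hv0']
      simp only [emb]
      omega
    · rw [hv0']
      simp only [emb]
      have := h5 ht
      omega
    · rw [← h7, mem_patX] at hk
      exact hk
    · rw [← h7, mem_patX] at hk
      omega

/-- The weight of the generating functions. -/
def omJ (θ : (Fin n → ℤ) →+ (Fin n → ℤ)) (I : Finset (Fin n →₀ ℕ)) :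
    Multiplicative (GG n) →* (RX n)ˣ :=
  omX (θ.comp (AddMonoidHom.fst _ _)) (nuH (v0 I))

theorem coeff_genR_PX {f : MvPolynomial (Fin n) ℂ} (hf : f ≠ 0) {K : ℕ} {J : Finset (Fin n)}
    {I : Finset (Fin n →₀ ℕ)} (hI : I.Nonempty) (hIf : I ⊆ f.support) (S : Finset (Fin n))
    (ty m : ℕ) (kap : κ → GG n →+ ℤ) (B : Finset κ) (θ : (Fin n → ℤ) →+ (Fin n → ℤ)) :
    PowerSeries.coeff m (genR (omJ θ I) (muH n) (PX f K J I S ty kap B)) =
      ∑ a ∈ boxX f K J I S ty kap B m, AddMonoidAlgebra.single (θ (zv a))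
        ((LU ^ (-(((∑ j, a j : ℕ) : ℤ) + ((m - nuf f a : ℕ) : ℤ))) : Motˣ) : Mot) := by
  classical
  unfold genR
  rw [PowerSeries.coeff_mk, PX_fiber hf hI hIf S ty m kap B, finsum_mem_coe_finset,
    Finset.sum_image fun a _ b _ h => emb_injective m h]
  refine Finset.sum_congr rfl fun a ha => ?_
  unfold omJ
  rw [omX_apply, uX_val]
  rw [boxX, Finset.mem_filter] at ha
  obtain ⟨-, ⟨h2, h3⟩, ⟨h4, h5⟩, h7⟩ := ha
  have hv0' : wt a (v0 I) = nuf f a := by
    have hv0 := v0_mem hI
    rw [← h2] at hv0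
    have h9 : v0 (face f a (nuf f a)) ∈ face f a (nuf f a) := hv0
    rw [face, Finset.mem_filter] at h9
    rw [← h2]
    exact h9.2
  have e1 : nuH (v0 I) (emb m a) = ((∑ j, a j : ℕ) : ℤ) + ((m - nuf f a : ℕ) : ℤ) := by
    rw [nuH_apply, dotH_emb, hv0']
    simp only [emb]
    push_cast
    omega
  rw [e1]
  rfl

end MPb07157
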