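import Pool.Agent.Lib.MP_b07157_ag.N3.RegDefs
import Pool.Agent.Lib.MP_b07157_ag.N3.AsmDefs
import Pool.Agent.Lib.MP_b07157_ag.N3.GenR2
import Pool.Agent.Lib.MP_b07157_ag.N3.PX1

section

/-!
# Cones and their rays
-/

noncomputable section

namespace MPb07157

open Finset

variable {G ι : Type} [AddCommGroup G] [Fintype ι] (lam : ι → G →+ ℤ)

/-- A linear form that vanishes on all extremal rays of the recession cone vanishes on the cone. -/
theorem cone_zero (hinj : ∀ z, (∀ k, lam k z = 0) → z = 0) (E : Finset ι) (h : G →+ ℤ)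
    (hh : ∀ z, MaxTight lam E z → h z = 0) (z : G) (hz : z ∈ PSet lam 0 E) : h z = 0 := by
  classical
  induction hN : (Finset.univ.filter (fun k => lam k z ≠ 0)).card using Nat.strong_induction_on
    generalizing z with
  | _ N ih =>
  by_cases hz0 : z = 0
  · rw [hz0, map_zero]
  by_cases hmt : MaxTight lam E z
  · exact hh z hmt
  have hex : ∃ y ∈ PSet lam 0 E, y ≠ 0 ∧ (∀ k, lam k z = 0 → lam k y = 0) ∧
      ∃ k1, lam k1 y = 0 ∧ lam k1 z ≠ 0 := by
    by_contra hcon
    apply hmt
    refine ⟨hz0, hz, fun y hy hy0 hzy k hk => ?_⟩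
    by_contra hkz
    exact hcon ⟨y, hy, hy0, hzy, k, hk, hkz⟩
  obtain ⟨y, hy, hy0, hzy, k1, hk1, hk1z⟩ := hex
  have hlt : ∀ x : G, (∀ k, lam k z = 0 → lam k x = 0) → (∃ k, lam k x = 0 ∧ lam k z ≠ 0) →
      (Finset.univ.filter (fun k => lam k x ≠ 0)).card < N := by
    intro x hx hxk
    obtain ⟨k, hkx, hkz⟩ := hxk
    rw [← hN]
    apply Finset.card_lt_card
    rw [Finset.ssubset_iff_of_subset]
    · exact ⟨k, by simpa using hkz, by simpa using hkx⟩
    · intro l hl
      simp only [Finset.mem_filter, Finset.mem_univ, true_and] at hl ⊢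
      exact fun h0 => hl (hx l h0)
  have hhy : h y = 0 := ih _ (hlt y hzy ⟨k1, hk1, hk1z⟩) y hy rfl
  have hy' : ∀ k, 0 ≤ lam k y := fun k => hy.1 k
  have hz' : ∀ k, 0 ≤ lam k z := fun k => hz.1 k
  have hS : (Finset.univ.filter (fun k => 0 < lam k y)).Nonempty := by
    by_contra hcon
    rw [Finset.not_nonempty_iff_eq_empty] at hcon
    apply hy0
    apply hinj
    intro k
    by_contra hk
    have : k ∈ Finset.univ.filter (fun k => 0 < lam k y) := by
      simp only [Finset.mem_filter, Finset.mem_univ, true_and]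
      exact lt_of_le_of_ne (hy' k) (Ne.symm hk)
    rw [hcon] at this
    exact absurd this (Finset.notMem_empty _)
  obtain ⟨k0, hk0, hmin⟩ := Finset.exists_min_image _ (fun k => (lam k z : ℚ) / lam k y) hS
  simp only [Finset.mem_filter, Finset.mem_univ, true_and] at hk0 hmin
  have hk0z : lam k0 z ≠ 0 := fun h0 => by
    have := hzy k0 h0
    omega
  set x : G := (lam k0 y) • z - (lam k0 z) • y with hx
  have hlx : ∀ k, lam k x = lam k0 y * lam k z - lam k0 z * lam k y := by
    intro k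
    rw [hx, map_sub, map_zsmul, map_zsmul, smul_eq_mul, smul_eq_mul]
  have hxP : x ∈ PSet lam 0 E := by
    refine ⟨fun k => ?_, fun k hk => ?_⟩
    · show 0 ≤ lam k x
      rw [hlx]
      rcases (hy' k).lt_or_eq with h0 | h0
      · have h1 := hmin k h0
        rw [div_le_div_iff₀ (by exact_mod_cast hk0) (by exact_mod_cast h0)] at h1
        have h2 : lam k0 z * lam k y ≤ lam k z * lam k0 y := by exact_mod_cast h1
        linarith
      · rw [← h0, mul_zero, sub_zero]
        exact mul_nonneg hk0.le (hz' k)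
    · show lam k x = 0
      have h1 : lam k z = 0 := hz.2 k hk
      have h2 : lam k y = 0 := hy.2 k hk
      rw [hlx, h1, h2]
      ring
  have hhx : h x = 0 := by
    refine ih _ (hlt x (fun k hk => ?_) ⟨k0, ?_, hk0z⟩) x hxP rfl
    · rw [hlx, hk, hzy k hk]
      ring
    · rw [hlx]
      ring
  have h3 : lam k0 y * h z = 0 := by
    have : h x = lam k0 y * h z - lam k0 z * h y := by
      rw [hx, map_sub, map_zsmul, map_zsmul, smul_eq_mul, smul_eq_mul]
    rw [this, hhy, mul_zero, sub_zero] at hhx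
    exact hhx
  exact (mul_eq_zero.mp h3).resolve_left hk0.ne'

end MPb07157
end
end

section

/-!
# The rays of the pieces, and joined facets
-/

noncomputable section

namespace MPb07157

open MvPolynomial Finset

variable {n : ℕ}

/-- The rays of the pieces: either they do not contribute the candidate pole, or they are facet
vectors. -/
theorem ray_cases {f : MvPolynomial (Fin n) ℂ} {K : ℕ} {J : Finset (Fin n)}
    {I : Finset (Fin n →₀ ℕ)} {S : Finset (Fin n)} {ty : ℕ} {v₀ : Fin n →₀ ℕ}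
    (hv₀ : v₀ ∈ f.support) {s₀ : ℚ} (hK : -s₀ < K) (h1 : s₀ ≠ -1) (z : GG n)
    (hz : MaxTight (lamX f K v₀ (kapE n) ∅) (EX f Empty J I S ty) z) :
    0 < z.2 ∧ (((nuH v₀ z : ℤ) : ℚ) ≠ -s₀ * (z.2 : ℤ) ∨
      ∃ w N, HF f J s₀ w N ∧ z = emb N w ∧ v₀ ∈ face f w N) := by
  obtain ⟨hz0, hzC, hmax⟩ := hz
  have hC := mem_coneX_iff.1 hzC
  obtain ⟨⟨cJ, c1⟩, c2, c3, ⟨c4, c5⟩, -⟩ := hC
  have hdot : 0 ≤ dotH v₀ z := by
    rw [dotH_apply]
    exact Finset.sum_nonneg fun j _ => mul_nonneg (c1 j) (by positivity)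
  have hm : 0 < z.2 := by
    rcases lt_or_eq_of_le (hdot.trans c4) with h | h
    · exact h
    · exfalso
      apply hz0
      refine Prod.ext ?_ h.symm
      funext j
      have := (c3 j).2
      rw [← h, mul_zero] at this
      exact le_antisymm this (c1 j)
  refine ⟨hm, ?_⟩
  have hmq : (0 : ℚ) < z.2 := by exact_mod_cast hm
  by_cases hA : ∃ j, z.1 j = K * z.2
  · left
    rw [nuH_apply]
    obtain ⟨j, hj⟩ := hA
    have h2 : z.1 j ≤ ∑ j, z.1 j := Finset.single_le_sum (fun i _ => c1 i) (Finset.mem_univ j)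
    have h3 : (K : ℤ) * z.2 ≤ ∑ j, z.1 j + (z.2 - dotH v₀ z) := by
      rw [hj] at h2; omega
    have h4 : ((K : ℚ)) * z.2 ≤ ((∑ j, z.1 j + (z.2 - dotH v₀ z) : ℤ) : ℚ) := by
      exact_mod_cast h3
    intro h6
    rw [h6] at h4
    nlinarith
  push Not at hA
  rcases lt_or_eq_of_le c4 with hB | hB
  · -- the ray `(0, 1)`
    left
    have hd : ∀ v : Fin n →₀ ℕ, dotH v ((0, 1) : GG n) = 0 := by
      intro v; rw [dotH_apply]; simp
    obtain ⟨p, q, hp, hpq⟩ := MaxTight.proportional (lamX f K v₀ (kapE n) ∅)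
      (lamX_inj f K v₀ (kapE n) ∅) ⟨hz0, hzC, hmax⟩ ((0, 1) : GG n) (by
        rintro (((i | u) | (i | _)) | k) hk
        · simp [lamX, lamF, coordH_apply]
        · simp [lamX, lamF, hd]
        · exfalso
          simp only [lamX, lamF, AddMonoidHom.sub_apply, AddMonoidHom.smul_apply, muH_apply,
            coordH_apply, smul_eq_mul] at hk
          exact hA i (by omega)
        · exfalso
          simp only [lamX, lamF, AddMonoidHom.sub_apply, muH_apply] at hk
          omega
        · exact k.elim)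
    have e2 : p * 1 = q * z.2 := congrArg Prod.snd hpq
    have hq : q ≠ 0 := by
      rintro rfl
      rw [zero_mul, mul_one] at e2
      exact hp e2
    have hz1 : z.1 = 0 := by
      funext i
      have e1 : p * 0 = q * z.1 i := congrFun (congrArg Prod.fst hpq) i
      rw [mul_zero] at e1
      exact (mul_eq_zero.1 e1.symm).resolve_left hq
    have hd0 : dotH v₀ z = 0 := by rw [dotH_apply, hz1]; simp
    rw [nuH_apply, hz1, hd0]
    simp only [Pi.zero_apply, Finset.sum_const_zero, zero_add, sub_zero]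
    intro h3
    apply h1
    have h6 : (z.2 : ℚ) * (1 + s₀) = 0 := by linear_combination h3
    rcases mul_eq_zero.1 h6 with h7 | h7
    · exact absurd h7 hmq.ne'
    · linarith
  · -- a facet weight
    have hw : ∃ w : Fin n → ℕ, ∀ j, (w j : ℤ) = z.1 j :=
      ⟨fun j => (z.1 j).toNat, fun j => Int.toNat_of_nonneg (c1 j)⟩
    obtain ⟨w, hw⟩ := hw
    have hwt : ∀ v, (wt w v : ℤ) = dotH v z := by
      intro v
      rw [dotH_apply]
      unfold wt
      push_cast
      exact Finset.sum_congr rfl fun j _ => by rw [hw]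
    obtain ⟨N, hN⟩ : ∃ N : ℕ, (N : ℤ) = z.2 := ⟨z.2.toNat, Int.toNat_of_nonneg hm.le⟩
    have hfw : IsFacetWt f w N := by
      refine ⟨⟨fun v hv => ?_, v₀, hv₀, ?_⟩, by omega, ?_⟩
      · have := (c2 v hv).2
        have := hwt v
        omega
      · have := hwt v₀
        omega
      · intro y hy0 hyv
        have hyd : ∀ v : Fin n →₀ ℕ, dotH v ((y, 0) : GG n) = ∑ j, y j * (v j : ℤ) := fun v => rfl
        have hface : ∀ v ∈ f.support, dotH v z = dotH v₀ z → dotH v ((y, 0) : GG n) = 0 := by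
          intro v hv h
          rw [hyd]
          refine hyv v (Finset.mem_filter.2 ⟨hv, ?_⟩)
          have := hwt v
          omega
        obtain ⟨p, q, hp, hpq⟩ := MaxTight.proportional (lamX f K v₀ (kapE n) ∅)
          (lamX_inj f K v₀ (kapE n) ∅)
          ⟨hz0, hzC, hmax⟩ ((y, 0) : GG n) (by
            rintro (((j | v) | (j | _)) | k) hk
            · refine hy0 j ?_
              have h3 : z.1 j = 0 := hk
              have := hw j
              omega
            · simp only [lamX, lamF, AddMonoidHom.sub_apply] at hk ⊢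
              rw [hface v.1 v.2 (by omega), hface v₀ hv₀ rfl, sub_zero]
            · exfalso
              apply hA j
              simp only [lamX, lamF, AddMonoidHom.sub_apply, AddMonoidHom.smul_apply, muH_apply,
                coordH_apply, smul_eq_mul] at hk
              omega
            · simp only [lamX, lamF, AddMonoidHom.sub_apply, muH_apply]
              rw [hface v₀ hv₀ rfl, sub_zero]
            · exact k.elim)
        have h3 : p * 0 = q * z.2 := congrArg Prod.snd hpq
        rw [mul_zero] at h3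
        have h4 : q = 0 := by
          rcases mul_eq_zero.1 h3.symm with h | h
          · exact h
          · omega
        have h5 := congrArg Prod.fst hpq
        rw [h4, zero_smul] at h5
        change p • y = 0 at h5
        exact (smul_eq_zero.1 h5).resolve_left hp
    have hnu : nuH v₀ z = ((∑ i, w i : ℕ) : ℤ) := by
      rw [nuH_apply, ← hB, sub_self, add_zero]
      push_cast
      exact Finset.sum_congr rfl fun i _ => (hw i).symm
    by_cases hs : ((∑ i, w i : ℕ) : ℚ) = -s₀ * N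
    · right
      refine ⟨w, N, ⟨hfw, fun i hi => ?_, hs⟩, ?_, ?_⟩
      · have e1 := cJ i hi
        have e2 := hw i
        omega
      · refine Prod.ext ?_ hN.symm
        funext i
        exact (hw i).symm
      · refine Finset.mem_filter.2 ⟨hv₀, ?_⟩
        have := hwt v₀
        omega
    · left
      rw [hnu]
      intro h3
      apply hs
      have hN2 : ((N : ℕ) : ℚ) = (z.2 : ℚ) := by exact_mod_cast hN
      rw [hN2, ← h3]
      push_cast
      rfl

private theorem as_lt_K {w : Fin n → ℕ} {N : ℕ} (hN : 0 < N) {s₀ : ℚ}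
    (hs : ((∑ i, w i : ℕ) : ℚ) = -s₀ * N) {K : ℕ} (hK : -s₀ < K) (i : Fin n) :
    (w i : ℤ) < K * N := by
  have hNq : (0 : ℚ) < N := by exact_mod_cast hN
  have h1 : w i ≤ ∑ i, w i := Finset.single_le_sum (fun _ _ => Nat.zero_le _) (Finset.mem_univ i)
  have h2 : ((w i : ℕ) : ℚ) ≤ ((∑ i, w i : ℕ) : ℚ) := by exact_mod_cast h1
  have h3 : ((w i : ℕ) : ℚ) < (K : ℚ) * N := by
    rw [hs] at h2
    nlinarith
  exact_mod_cast h3

/-- the linear form -/
private def asH (s₀ : ℚ) (v₀ : Fin n →₀ ℕ) : GG n →+ ℤ :=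
  (s₀.den : ℤ) • nuH v₀ + s₀.num • muH n

private theorem asH_eq_zero {s₀ : ℚ} {v₀ : Fin n →₀ ℕ} {z : GG n} :
    asH s₀ v₀ z = 0 ↔ ((nuH v₀ z : ℤ) : ℚ) = -s₀ * (z.2 : ℤ) := by
  have hden : (0 : ℚ) < s₀.den := by exact_mod_cast s₀.pos
  have h1 : ((asH s₀ v₀ z : ℤ) : ℚ) = s₀.den * (((nuH v₀ z : ℤ) : ℚ) + s₀ * (z.2 : ℤ)) := by
    unfold asH
    simp only [AddMonoidHom.add_apply, AddMonoidHom.smul_apply, muH_apply, smul_eq_mul]
    push_cast
    have h2 : (s₀.num : ℚ) = s₀ * s₀.den := (Rat.mul_den_eq_num s₀).symm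
    rw [h2]
    ring
  rw [← Int.cast_eq_zero (α := ℚ), h1, mul_eq_zero]
  constructor
  · rintro (h | h)
    · exact absurd h hden.ne'
    · linarith
  · intro h
    right
    rw [h]
    ring

/-- If all rays of a cone contribute the candidate pole then they are joined. -/
theorem joined_of_cone {f : MvPolynomial (Fin n) ℂ} {K : ℕ} {J : Finset (Fin n)}
    {v₀ : Fin n →₀ ℕ}
    (hv₀ : v₀ ∈ f.support) {s₀ : ℚ} (hK : -s₀ < K) (E : Finset (II f ⊕ Empty))
    (hall : ∀ z, MaxTight (lamX f K v₀ (kapE n) ∅) E z →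
      ((nuH v₀ z : ℤ) : ℚ) = -s₀ * (z.2 : ℤ))
    {w : Fin n → ℕ} {N : ℕ} {w' : Fin n → ℕ} {N' : ℕ} (hw : HF f J s₀ w N)
    (hw' : HF f J s₀ w' N') (hv : v₀ ∈ face f w N) (hv' : v₀ ∈ face f w' N')
    (hz : emb N w ∈ PSet (lamX f K v₀ (kapE n) ∅) 0 E)
    (hz' : emb N' w' ∈ PSet (lamX f K v₀ (kapE n) ∅) 0 E) : Joined f s₀ w N w' N' := by
  refine ⟨⟨v₀, hv, hv'⟩, fun y c hy0 hyu => ?_⟩
  have hcone : ∀ z ∈ PSet (lamX f K v₀ (kapE n) ∅) 0 E, asH s₀ v₀ z = 0 :=
    cone_zero (lamX f K v₀ (kapE n) ∅) (lamX_inj f K v₀ (kapE n) ∅) E (asH s₀ v₀)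
      (fun z hz => asH_eq_zero.2 (hall z hz))
  have hwv : wt w v₀ = N := (Finset.mem_filter.1 hv).2
  have hwv' : wt w' v₀ = N' := (Finset.mem_filter.1 hv').2
  have hdv : dotH v₀ ((y, c) : GG n) = c := hyu v₀ hv hv'
  -- tight constraints
  have htight : ∀ k, lamX f K v₀ (kapE n) ∅ k (emb N w) = 0 →
      lamX f K v₀ (kapE n) ∅ k (emb N' w') = 0 → lamX f K v₀ (kapE n) ∅ k ((y, c) : GG n) = 0 := by
    rintro (((i | u) | (i | _)) | k) hk hk'
    · refine hy0 i ?_ ?_
      · have h3 : (w i : ℤ) = 0 := hk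
        exact_mod_cast h3
      · have h3 : (w' i : ℤ) = 0 := hk'
        exact_mod_cast h3
    · simp only [lamX, lamF, AddMonoidHom.sub_apply, dotH_emb] at hk hk' ⊢
      have e1 : u.1 ∈ face f w N := Finset.mem_filter.2 ⟨u.2, by omega⟩
      have e2 : u.1 ∈ face f w' N' := Finset.mem_filter.2 ⟨u.2, by omega⟩
      have e3 : dotH u.1 ((y, c) : GG n) = c := hyu u.1 e1 e2
      rw [e3, hdv, sub_self]
    · exfalso
      simp only [lamX, lamF, AddMonoidHom.sub_apply, AddMonoidHom.smul_apply, muH_apply,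
        coordH_apply, smul_eq_mul, emb] at hk
      have := as_lt_K hw.1.2.1 hw.2.2 hK i
      omega
    · simp only [lamX, lamF, AddMonoidHom.sub_apply, muH_apply]
      rw [hdv, sub_self]
    · exact k.elim
  -- the point
  obtain ⟨M, hM⟩ : ∃ M : ℕ, ∀ k, |lamX f K v₀ (kapE n) ∅ k ((y, c) : GG n)| ≤ M := by
    refine ⟨∑ k, (lamX f K v₀ (kapE n) ∅ k ((y, c) : GG n)).natAbs, fun k => ?_⟩
    rw [Int.abs_eq_natAbs]
    have := Finset.single_le_sum (f := fun k => (lamX f K v₀ (kapE n) ∅ k ((y, c) : GG n)).natAbs)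
      (fun _ _ => Nat.zero_le _) (Finset.mem_univ k)
    exact_mod_cast this
  have hmem : M • (emb N w + emb N' w') + ((y, c) : GG n) ∈
      PSet (lamX f K v₀ (kapE n) ∅) 0 E := by
    constructor
    · intro k
      have h1 : 0 ≤ lamX f K v₀ (kapE n) ∅ k (emb N w) := hz.1 k
      have h2 : 0 ≤ lamX f K v₀ (kapE n) ∅ k (emb N' w') := hz'.1 k
      rw [map_add, map_nsmul, map_add, nsmul_eq_mul, Pi.zero_apply]
      by_cases h3 : lamX f K v₀ (kapE n) ∅ k (emb N w) + lamX f K v₀ (kapE n) ∅ k (emb N' w') = 0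
      · rw [htight k (by omega) (by omega), h3]
        simp
      · have h4 : 1 ≤ lamX f K v₀ (kapE n) ∅ k (emb N w) +
            lamX f K v₀ (kapE n) ∅ k (emb N' w') := by omega
        have h5 := hM k
        have h6 := neg_abs_le (lamX f K v₀ (kapE n) ∅ k ((y, c) : GG n))
        have h7 : (M : ℤ) * 1 ≤ (M : ℤ) * (lamX f K v₀ (kapE n) ∅ k (emb N w) +
            lamX f K v₀ (kapE n) ∅ k (emb N' w')) :=
          mul_le_mul_of_nonneg_left h4 (by positivity)
        linarith
    · intro k hk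
      have h1 : lamX f K v₀ (kapE n) ∅ k (emb N w) = 0 := hz.2 k hk
      have h2 : lamX f K v₀ (kapE n) ∅ k (emb N' w') = 0 := hz'.2 k hk
      rw [map_add, map_nsmul, map_add, h1, h2, htight k h1 h2]
      simp
  have e1 := hcone _ hmem
  rw [map_add, map_nsmul, map_add, hcone _ hz, hcone _ hz', add_zero, smul_zero, zero_add] at e1
  have e2 := asH_eq_zero.1 e1
  rw [nuH_apply, hdv] at e2
  simpa using e2

end MPb07157
end
end

section

/-!
# Pieces of the zeta function: the sum of the pieces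
-/

noncomputable section

namespace MPb07157

open MvPolynomial Finset

variable {n : ℕ} {κ : Type} [Fintype κ]

/-- The part with a given pattern is the sum of the generating functions of the pieces. -/
theorem ZPx_eq {f : MvPolynomial (Fin n) ℂ} (hf : f ≠ 0) (K : ℕ) (J : Finset (Fin n))
    (θ : (Fin n → ℤ) →+ (Fin n → ℤ)) (kap : κ → GG n →+ ℤ) (B : Finset κ) :
    ZPx f K J θ kap B = ∑ p ∈ (f.support.powerset.filter Finset.Nonempty) ×ˢ
      (Finset.univ : Finset (Finset (Fin n))),
      (PowerSeries.C (AddMonoidAlgebra.single 0 (c0 f p.1 p.2) : RX n) *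
          genR (omJ θ p.1) (muH n) (PX f K J p.1 p.2 0 kap B) +
        PowerSeries.C (AddMonoidAlgebra.single 0 (c1 f p.1 p.2) : RX n) *
          genR (omJ θ p.1) (muH n) (PX f K J p.1 p.2 1 kap B)) := by
  classical
  ext1 m
  rw [ZPx, PowerSeries.coeff_mk, map_sum]
  rw [← Finset.sum_fiberwise_of_maps_to (g := fun a : Fin n → ℕ =>
    (face f a (nuf f a), SS (K * (m + 1)) a)) (t := (f.support.powerset.filter Finset.Nonempty) ×ˢ
      (Finset.univ : Finset (Finset (Fin n))))]
  · refine Finset.sum_congr rfl fun p hp => ?_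
    obtain ⟨I, S⟩ := p
    rw [Finset.mem_product, Finset.mem_filter, Finset.mem_powerset] at hp
    obtain ⟨⟨hIf, hI⟩, -⟩ := hp
    simp only at hIf hI ⊢
    rw [map_add, PowerSeries.coeff_C_mul, PowerSeries.coeff_C_mul, coeff_genR_PX hf hI hIf,
      coeff_genR_PX hf hI hIf, Finset.mul_sum, Finset.mul_sum]
    have hb0 : boxX f K J I S 0 kap B m = ((((boxJ J (K * (m + 1))).filter fun a =>
        patX kap m a = B).filter fun a => (face f a (nuf f a), SS (K * (m + 1)) a) =
          (I, S))).filter fun a => nuf f a = m := by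
      ext a
      simp only [boxX, Finset.mem_filter, Prod.mk.injEq]
      constructor
      · rintro ⟨h1, h2, ⟨h3, h4⟩, h5⟩
        exact ⟨⟨⟨h1, h5⟩, h2⟩, h4 trivial⟩
      · rintro ⟨⟨⟨h1, h5⟩, h2⟩, h3⟩
        exact ⟨h1, h2, ⟨by omega, fun _ => h3⟩, h5⟩
    have hb1 : boxX f K J I S 1 kap B m = ((((boxJ J (K * (m + 1))).filter fun a =>
        patX kap m a = B).filter fun a => (face f a (nuf f a), SS (K * (m + 1)) a) =
          (I, S))).filter fun a => nuf f a < m := by
      ext a
      simp only [boxX, Finset.mem_filter, Prod.mk.injEq]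
      constructor
      · rintro ⟨h1, h2, ⟨h3, h4⟩, h5⟩
        exact ⟨⟨⟨h1, h5⟩, h2⟩, by omega⟩
      · rintro ⟨⟨⟨h1, h5⟩, h2⟩, h3⟩
        exact ⟨h1, h2, ⟨by omega, fun h => by omega⟩, h5⟩
    rw [hb0, hb1, Finset.sum_filter (fun a => nuf f a = m), Finset.sum_filter
      (fun a => nuf f a < m), ← Finset.sum_add_distrib]
    refine Finset.sum_congr rfl fun a ha => ?_
    rw [Finset.mem_filter, Prod.mk.injEq] at ha
    obtain ⟨h1, h2, h3⟩ := ha
    rw [Wc, h2, h3]
    rcases lt_trichotomy (nuf f a) m with h | h | h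
    · rw [if_neg h.ne, if_pos h, if_neg h.ne, if_pos h, zero_add,
        AddMonoidAlgebra.single_mul_single, zero_add]
    · rw [if_pos h, if_pos h, if_neg (by omega), add_zero, AddMonoidAlgebra.single_mul_single,
        zero_add, h, Nat.sub_self, Nat.cast_zero, add_zero]
    · rw [if_neg (by omega), if_neg (by omega), if_neg (by omega), if_neg (by omega), add_zero,
        AddMonoidAlgebra.single_zero]
  · intro a _
    rw [Finset.mem_product, Finset.mem_filter, Finset.mem_powerset]
    refine ⟨⟨Finset.filter_subset _ _, ?_⟩, Finset.mem_univ _⟩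
    obtain ⟨-, v, hv, h⟩ := isMinWt_nuf hf a
    exact ⟨v, Finset.mem_filter.2 ⟨hv, h⟩⟩

/-- The whole part is the sum over the patterns. -/
theorem ZJx_eq_sum (f : MvPolynomial (Fin n) ℂ) (K : ℕ) (J : Finset (Fin n))
    (θ : (Fin n → ℤ) →+ (Fin n → ℤ)) (kap : κ → GG n →+ ℤ) :
    ZJx f K J θ = ∑ B : Finset κ, ZPx f K J θ kap B := by
  classical
  ext1 m
  rw [ZJx, PowerSeries.coeff_mk, map_sum]
  rw [← Finset.sum_fiberwise_of_maps_to (g := fun a : Fin n → ℕ => patX kap m a)
    (t := (Finset.univ : Finset (Finset κ))) (fun _ _ => Finset.mem_univ _)]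
  refine Finset.sum_congr rfl fun B _ => ?_
  rw [ZPx, PowerSeries.coeff_mk]

end MPb07157
end
end
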