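import Pool.Agent.Lib.MP_b07157_ag.N3.PXDefs

/-!
# Columns in the direction of a B1 coordinate: definitions
-/

noncomputable section

namespace MPb07157

open MvPolynomial Finset

variable {n : ℕ}

/-- `u` dominates `v` outside `J`. -/
def Dom (J : Finset (Fin n)) (v u : Fin n →₀ ℕ) : Prop :=
  (∀ i ∉ J, v i ≤ u i) ∧ ∃ i ∉ J, v i < u i

/-- `v` is an apex of the facet `w` in the direction `j`: `v_j = 1` and all other exponents `u` of
the facet have `u_j = 0` or dominate `v` outside `J`. -/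
def Apex (f : MvPolynomial (Fin n) ℂ) (J : Finset (Fin n)) (w : Fin n → ℕ) (N : ℕ) (j : Fin n)
    (v : Fin n →₀ ℕ) : Prop :=
  v ∈ face f w N ∧ v j = 1 ∧ 0 < w j ∧ ∀ u ∈ face f w N, u ≠ v → u j = 0 ∨ Dom J v u

/-- The exponents with `u_j = 0`. -/
def U0 (f : MvPolynomial (Fin n) ℂ) (j : Fin n) : Finset (Fin n →₀ ℕ) :=
  f.support.filter fun u => u j = 0

open Classical in
/-- The exponents different from `v` with `u_j ≥ 1` that do not dominate `v`. -/
def KKs (f : MvPolynomial (Fin n) ℂ) (J : Finset (Fin n)) (v : Fin n →₀ ℕ) (j : Fin n) :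
    Finset (Fin n →₀ ℕ) :=
  f.support.filter fun u => u ≠ v ∧ 1 ≤ u j ∧ ¬ Dom J v u

/-- The index type of the additional linear forms. -/
abbrev Kid (f : MvPolynomial (Fin n) ℂ) (J : Finset (Fin n)) (v : Fin n →₀ ℕ) (j : Fin n) : Type :=
  {u // u ∈ U0 f j} ⊕ ({u // u ∈ KKs f J v j} ⊕ ({u // u ∈ KKs f J v j} × {u // u ∈ U0 f j}))

/-- The additional linear forms. -/
def kapF (f : MvPolynomial (Fin n) ℂ) (J : Finset (Fin n)) (v : Fin n →₀ ℕ) (j : Fin n) :
    Kid f J v j → GG n →+ ℤ
  | .inl u => dotH u.1 - dotH v + coordH j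
  | .inr (.inl u) => dotH u.1 - dotH v
  | .inr (.inr (u, u')) => dotH u.1 - dotH v + ((u.1 j : ℤ) - 1) • (dotH u'.1 - dotH v)

/-- The map that sets the coordinate `j` equal to zero. -/
def thj (j : Fin n) : (Fin n → ℤ) →+ (Fin n → ℤ) where
  toFun a i := if i = j then 0 else a i
  map_zero' := by
    funext i
    simp
  map_add' a b := by
    funext i
    simp only [Pi.add_apply]
    split_ifs <;> simp

theorem thj_apply (j : Fin n) (a : Fin n → ℤ) (i : Fin n) :
    thj j a i = if i = j then 0 else a i := rfl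

/-- The monomial of an apex. -/
def monF (f : MvPolynomial (Fin n) ℂ) (v : Fin n →₀ ℕ) : MvPolynomial (Fin n) ℂ :=
  monomial v (coeff v f)

theorem support_monF {f : MvPolynomial (Fin n) ℂ} {v : Fin n →₀ ℕ} (hv : v ∈ f.support) :
    (monF f v).support = {v} := by
  classical
  unfold monF
  rw [support_monomial, if_neg (mem_support_iff.1 hv)]

end MPb07157
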