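import Pool.Agent.Lib.MP_b07157_ag.N3.Exc3

/-!
# The root theorem for exceptional edges in three variables
-/

noncomputable section

namespace MPb07157

open MvPolynomial Finset

private theorem exc4_cover : ∀ i j k l : Fin 3, i ≠ j → i ≠ k → j ≠ k → l = i ∨ l = j ∨ l = k := by
  decide

/-- An edge with end points `v = (1,1,a)` and `u = (0,0,b)` of a compact face gives a root, unless
`u` is a unit vector and `v = (1,1,0)`. -/
theorem exc_root_three {f : MvPolynomial (Fin 3) ℂ} (hf : f ≠ 0)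
    (halg : AlgebraicIndependent ℚ (cf f)) {ω : Fin 3 → ℕ} {Nω : ℕ}
    (hω : ∀ l, 0 < ω l) (hωmin : IsMinWt f ω Nω) {v u : Fin 3 →₀ ℕ} (hv : v ∈ face f ω Nω)
    (hu : u ∈ face f ω Nω) {i j k : Fin 3} (hij : i ≠ j) (hik : i ≠ k) (hjk : j ≠ k)
    (hvi : v i = 1) (hvj : v j = 1) (hui : u i = 0) (huj : u j = 0) (huk : u k ≠ 0)
    (hne : ¬ (v k = 0 ∧ u k = 1)) {w : Fin 3 → ℕ} {N : ℕ} (hN : 0 < N) (hvw : wt w v = N)
    (huw : wt w u = N) {s₀ : ℚ} (hs : ((∑ l, w l : ℕ) : ℚ) = -s₀ * N) :
    IsBernsteinSatoRoot f s₀ ∧ IsLocalBernsteinSatoRoot f s₀ := by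
  classical
  obtain ⟨hvs, hvN⟩ := Finset.mem_filter.1 hv
  obtain ⟨hus, huN⟩ := Finset.mem_filter.1 hu
  have hNω : 0 < Nω := by
    rw [← hvN]
    have h1 : ω i * v i ≤ wt ω v :=
      Finset.single_le_sum (f := fun l => ω l * v l) (fun _ _ => Nat.zero_le _) (Finset.mem_univ i)
    rw [hvi, mul_one] at h1
    exact lt_of_lt_of_le (hω i) h1
  set V : Sf f := ⟨v, hvs⟩ with hV
  set U : Sf f := ⟨u, hus⟩ with hU
  have hVU : V ≠ U := by
    intro h
    have h1 : v = u := congrArg Subtype.val h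
    rw [h1, hui] at hvi
    exact absurd hvi (by norm_num)
  have hB : (0 : ℚ) < (u k : ℚ) := by exact_mod_cast Nat.pos_of_ne_zero huk
  -- sums over `{V, U}`
  have hsum : ∀ (g : Sf f → ℚ), (∀ x, x ∉ ({V, U} : Finset (Sf f)) → g x = 0) → ∀ l,
      ∑ x, g x * ((x.1 l : ℕ) : ℚ) = g V * ((v l : ℕ) : ℚ) + g U * ((u l : ℕ) : ℚ) := by
    intro g hg l
    rw [Fintype.sum_eq_add V U hVU]
    intro x hx
    rw [hg x (by simp [hx.1, hx.2]), zero_mul]
  have hsum1 : ∀ (g : Sf f → ℚ), (∀ x, x ∉ ({V, U} : Finset (Sf f)) → g x = 0) →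
      ∑ x, g x = g V + g U := by
    intro g hg
    rw [Fintype.sum_eq_add V U hVU]
    intro x hx
    exact hg x (by simp [hx.1, hx.2])
  have span : ∀ W : Fin 3 → ℚ, W i = W j → ∃ τ : Sf f → ℚ,
      (∀ x, x ∉ ({V, U} : Finset (Sf f)) → τ x = 0) ∧
      (∀ l, ∑ x, τ x * ((x.1 l : ℕ) : ℚ) = W l) ∧ τ V = W i ∧
        τ U = (W k - (v k : ℚ) * W i) / (u k : ℚ) := by
    intro W hW
    refine ⟨fun x => if x = V then W i else if x = U then (W k - (v k : ℚ) * W i) / (u k : ℚ)
      else 0, ?_, ?_, ?_, ?_⟩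
    · intro x hx
      simp only [Finset.mem_insert, Finset.mem_singleton, not_or] at hx
      simp [hx.1, hx.2]
    · intro l
      rw [hsum _ (by
        intro x hx
        simp only [Finset.mem_insert, Finset.mem_singleton, not_or] at hx
        simp [hx.1, hx.2])]
      simp only [if_true, if_neg hVU.symm]
      rcases exc4_cover i j k l hij hik hjk with rfl | rfl | rfl
      · rw [hvi, hui]; simp
      · rw [hvj, huj, hW]; simp
      · field_simp
        ring
    · simp
    · simp [hVU.symm]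
  obtain ⟨γ, hγ0, hγ, hγV, hγU⟩ := span (fun _ => 1) rfl
  refine roots_of_form fun b hb => ?_
  have key := exc_root_form hf halg hNω hω hωmin.1 ({V, U} : Finset (Sf f)) (by
      intro x hx
      simp only [Finset.mem_insert, Finset.mem_singleton] at hx
      rcases hx with rfl | rfl
      · exact hvN
      · exact huN) hij (by
      intro g hg hl
      have h1 := hl i
      rw [hsum g hg, hvi, hui] at h1
      have h2 := hl k
      rw [hsum g hg] at h2
      simp only [Nat.cast_one, mul_one, Nat.cast_zero, mul_zero, add_zero] at h1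
      rw [h1, zero_mul, zero_add] at h2
      have h3 : g U = 0 := by
        rcases mul_eq_zero.1 h2 with h | h
        · exact h
        · exact absurd h hB.ne'
      funext x
      by_cases hx : x ∈ ({V, U} : Finset (Sf f))
      · simp only [Finset.mem_insert, Finset.mem_singleton] at hx
        rcases hx with rfl | rfl
        · exact h1
        · exact h3
      · exact hg x hx) (fun W hW => by
      obtain ⟨τ, h1, h2, -, -⟩ := span W hW
      exact ⟨τ, h1, h2⟩) V (by simp) hvi hvj (by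
      intro x hx hxV
      simp only [Finset.mem_insert, Finset.mem_singleton] at hx
      rcases hx with hx | hx
      · exact absurd hx hxV
      · rw [hx]; exact ⟨hui, huj⟩) γ hγ0 hγ (by
      intro x hxV m hm
      by_cases hxU : x = U
      · rw [hxU, hγU] at hm
        rw [div_eq_iff hB.ne'] at hm
        have h4 : (1 : ℤ) - (v k : ℤ) = ((m : ℤ) + 1) * (u k : ℤ) := by
          have : ((1 - (v k : ℚ) * 1 : ℚ)) = ((m : ℚ) + 1) * (u k : ℚ) := hm
          rw [mul_one] at this
          exact_mod_cast this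
        have h5 : 1 ≤ (u k : ℤ) := by exact_mod_cast Nat.pos_of_ne_zero huk
        have h6 : (0 : ℤ) ≤ (v k : ℤ) := Int.natCast_nonneg _
        have h7 : (0 : ℤ) ≤ (m : ℤ) * (u k : ℤ) := by positivity
        apply hne
        constructor
        · have : (v k : ℤ) = 0 := by nlinarith
          exact_mod_cast this
        · have : (u k : ℤ) = 1 := by nlinarith
          exact_mod_cast this
      · rw [hγ0 x (by simp [hxV, hxU])] at hm
        have : (0 : ℚ) < (m : ℚ) + 1 := by positivity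
        exact this.ne hm) b hb
  have hs0 : s₀ = -(∑ x, γ x) := by
    rw [hsum1 γ hγ0]
    have h1 : (γ V + γ U) * N = ((∑ l, w l : ℕ) : ℚ) := by
      have e1 : (N : ℚ) = ∑ l, (w l : ℚ) * (v l : ℚ) := by
        rw [← hvw, wt]; push_cast; rfl
      have e2 : (N : ℚ) = ∑ l, (w l : ℚ) * (u l : ℚ) := by
        rw [← huw, wt]; push_cast; rfl
      have e3 : (γ V + γ U) * (N : ℚ) = γ V * (∑ l, (w l : ℚ) * (v l : ℚ))
          + γ U * (∑ l, (w l : ℚ) * (u l : ℚ)) := by
        rw [← e1, ← e2]; ring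
      rw [e3, Finset.mul_sum, Finset.mul_sum, ← Finset.sum_add_distrib]
      push_cast
      refine Finset.sum_congr rfl fun l _ => ?_
      have h2 := hγ l
      rw [hsum γ hγ0] at h2
      calc γ V * ((w l : ℚ) * (v l : ℚ)) + γ U * ((w l : ℚ) * (u l : ℚ))
          = (w l : ℚ) * (γ V * (v l : ℚ) + γ U * (u l : ℚ)) := by ring
        _ = (w l : ℚ) := by rw [h2, mul_one]
    have hN' : (0 : ℚ) < (N : ℚ) := by exact_mod_cast hN
    have h3 : (γ V + γ U) * N = -s₀ * N := h1.trans hs
    have h4 : γ V + γ U = -s₀ := mul_right_cancel₀ hN'.ne' h3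
    rw [h4]; ring
  rw [hs0]
  exact key

end MPb07157
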