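import Pool.Agent.Lib.MP_b07157_ag.N3.AsmDefs
import Pool.Agent.Lib.MP_b07157_ag.N3.Exc4
import Pool.Agent.Lib.MP_b07157_ag.NewtLemB
import Pool.Agent.Lib.MP_b07157_ag.NewtAllLoc

/-!
# Facets of Newton polyhedra in three variables that are not thick
-/

noncomputable section

namespace MPb07157

open MvPolynomial Finset

variable {n : ℕ}

/-- `s₀` is not a root of both the global and the local Bernstein–Sato polynomial. -/
def NRoot (f : MvPolynomial (Fin n) ℂ) (s₀ : ℚ) : Prop :=
  ¬ (IsBernsteinSatoRoot f s₀ ∧ IsLocalBernsteinSatoRoot f s₀)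

theorem HF.not_thickC {f : MvPolynomial (Fin n) ℂ} (hf : f ≠ 0)
    (halg : AlgebraicIndependent ℚ (cf f)) {s₀ : ℚ} (hnr : NRoot f s₀) {J : Finset (Fin n)}
    {w : Fin n → ℕ} {N : ℕ} (h : HF f J s₀ w N) : ¬ ThickC f w N := by
  intro hth
  exact hnr (hth.root hf halg h.1.2.1 h.1.1.1 h.2.2)

theorem HF.sum_ne {f : MvPolynomial (Fin n) ℂ} {s₀ : ℚ} (h1 : s₀ ≠ -1) {J : Finset (Fin n)}
    {w : Fin n → ℕ} {N : ℕ} (h : HF f J s₀ w N) : ∑ i, w i ≠ N := by
  intro h2
  have hs := h.2.2
  rw [h2] at hs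
  apply h1
  have h3 : (0 : ℚ) < N := by exact_mod_cast h.1.2.1
  have h4 : (N : ℚ) * (1 + s₀) = 0 := by linarith
  rcases mul_eq_zero.1 h4 with h5 | h5
  · exact absurd h5 h3.ne'
  · linarith

private theorem c1_sum3 {M : Type} [AddCommMonoid M] {i j k : Fin 3} (hij : i ≠ j) (hik : i ≠ k)
    (hjk : j ≠ k) (F : Fin 3 → M) : ∑ l, F l = F i + F j + F k := by
  have h : (Finset.univ : Finset (Fin 3)) = {i, j, k} := by
    ext l
    simp only [Finset.mem_univ, Finset.mem_insert, Finset.mem_singleton, true_iff]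
    omega
  rw [h, Finset.sum_insert (by simp [hij, hik]), Finset.sum_insert (by simp [hjk]),
    Finset.sum_singleton, add_assoc]

private theorem c1_wt3 {w : Fin 3 → ℕ} {i j k : Fin 3} (hij : i ≠ j) (hik : i ≠ k)
    (hjk : j ≠ k) (v : Fin 3 →₀ ℕ) : wt w v = w i * v i + w j * v j + w k * v k := by
  unfold wt
  exact c1_sum3 hij hik hjk _

/-- Linear independence on a finite set of exponents. -/
private theorem c1_lin {w : Fin n → ℕ} (ρ : Finset (Fin n →₀ ℕ))
    (h : ∀ g : (Fin n →₀ ℕ) → ℚ, (∀ j, 0 < w j → ∑ v ∈ ρ, g v * (v j : ℚ) = 0) →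
      ∀ v ∈ ρ, g v = 0) :
    LinearIndependent ℚ (fun (v : {v // v ∈ ρ}) (j : {j // 0 < w j}) => ((v.1 j.1 : ℕ) : ℚ)) := by
  have h1 : LinearIndepOn ℚ
      (fun (v : Fin n →₀ ℕ) (j : {j // 0 < w j}) => ((v j.1 : ℕ) : ℚ)) (ρ : Set (Fin n →₀ ℕ)) := by
    rw [linearIndepOn_finset_iff]
    intro g hg
    refine h g fun j hj => ?_
    have h2 := congrFun hg ⟨j, hj⟩
    rw [Finset.sum_apply] at h2
    simpa using h2
  exact h1

/-- A spanning triple. -/
private theorem c1_triple {f : MvPolynomial (Fin 3) ℂ} {w : Fin 3 → ℕ} {N : ℕ}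
    (hw : IsFacetWt f w N) (hpos : ∀ l, 0 < w l) :
    ∃ a ∈ face f w N, ∃ b ∈ face f w N, ∃ c ∈ face f w N, det3 a b c ≠ 0 := by
  obtain ⟨hmin, hN, hsp⟩ := hw
  by_contra hcon
  push Not at hcon
  obtain ⟨a, ha, haN⟩ := hmin.2
  have haP : a ∈ face f w N := Finset.mem_filter.2 ⟨ha, haN⟩
  -- all cross products vanish
  have hcross : ∀ b ∈ face f w N, (a 1 : ℤ) * b 2 - a 2 * b 1 = 0 ∧
      (a 2 : ℤ) * b 0 - a 0 * b 2 = 0 ∧ (a 0 : ℤ) * b 1 - a 1 * b 0 = 0 := by
    intro b hb
    have h1 := hsp ![(a 1 : ℤ) * b 2 - a 2 * b 1, (a 2 : ℤ) * b 0 - a 0 * b 2,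
      (a 0 : ℤ) * b 1 - a 1 * b 0] (fun j hj => absurd hj (hpos j).ne') (by
        intro c hc
        have h2 := hcon a haP b hb c hc
        unfold det3 at h2
        simp only [Fin.sum_univ_three, Matrix.cons_val_zero, Matrix.cons_val_one, Matrix.cons_val]
        linear_combination h2)
    have e0 := congrFun h1 0
    have e1 := congrFun h1 1
    have e2 := congrFun h1 2
    simp only [Matrix.cons_val_zero, Matrix.cons_val_one, Matrix.cons_val, Pi.zero_apply]
      at e0 e1 e2
    exact ⟨e0, e1, e2⟩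
  have h1 := hsp ![(a 1 : ℤ), -(a 0 : ℤ), 0] (fun j hj => absurd hj (hpos j).ne') (by
    intro c hc
    have h2 := (hcross c hc).2.2
    simp only [Fin.sum_univ_three, Matrix.cons_val_zero, Matrix.cons_val_one, Matrix.cons_val]
    linear_combination -h2)
  have h2 := hsp ![(a 2 : ℤ), 0, -(a 0 : ℤ)] (fun j hj => absurd hj (hpos j).ne') (by
    intro c hc
    have h2 := (hcross c hc).2.1
    simp only [Fin.sum_univ_three, Matrix.cons_val_zero, Matrix.cons_val_one, Matrix.cons_val]
    linear_combination h2)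
  have e0 := congrFun h1 0
  have e1 := congrFun h1 1
  have e2 := congrFun h2 0
  simp only [Matrix.cons_val_zero, Matrix.cons_val_one, Pi.zero_apply] at e0 e1 e2
  have f1 : a 1 = 0 := by omega
  have f0 : a 0 = 0 := by omega
  have f2 : a 2 = 0 := by omega
  unfold wt at haN
  rw [Fin.sum_univ_three, f0, f1, f2] at haN
  omega

/-- Facets with positive weight. -/
theorem struct_pos {f : MvPolynomial (Fin 3) ℂ} {w : Fin 3 → ℕ} {N : ℕ} (hw : IsFacetWt f w N)
    (hth : ¬ ThickC f w N) (hpos : ∀ l, 0 < w l) :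
    (∃ l, ∃ v ∈ face f w N, v l = 1 ∧ ∀ u ∈ face f w N, u ≠ v → u l = 0) ∨
      ∃ i j, i ≠ j ∧ ∃ v ∈ face f w N, ∃ u ∈ face f w N, v i = 1 ∧ v j = 1 ∧ u i = 0 ∧ u j = 0 := by
  classical
  let co : (Fin 3 →₀ ℕ) → (Fin 3 → ℕ) := fun v => v
  have hcoe : Function.Injective co := DFunLike.coe_injective
  have key := lemB w hpos N hw.2.1 ((face f w N).image co) ?_ ?_ ?_
  · rcases key with ⟨l, v, hv, hvl, h⟩ | ⟨i, j, hij, v, hv, u, hu, h1, h2, h3, h4⟩
    · obtain ⟨v', hv', rfl⟩ := Finset.mem_image.1 hv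
      refine Or.inl ⟨l, v', hv', hvl, fun u hu huv => ?_⟩
      exact h u (Finset.mem_image_of_mem _ hu) fun h5 => huv (hcoe h5)
    · obtain ⟨v', hv', rfl⟩ := Finset.mem_image.1 hv
      obtain ⟨u', hu', rfl⟩ := Finset.mem_image.1 hu
      exact Or.inr ⟨i, j, hij, v', hv', u', hu', h1, h2, h3, h4⟩
  · intro v hv
    obtain ⟨v', hv', rfl⟩ := Finset.mem_image.1 hv
    exact (Finset.mem_filter.1 hv').2
  · obtain ⟨a, ha, b, hb, c, hc, h⟩ := c1_triple hw hpos
    exact ⟨a, Finset.mem_image_of_mem _ ha, b, Finset.mem_image_of_mem _ hb, c,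
      Finset.mem_image_of_mem _ hc, h⟩
  · intro a ha b hb c hc hdet
    obtain ⟨a, ha', rfl⟩ := Finset.mem_image.1 ha
    obtain ⟨b, hb', rfl⟩ := Finset.mem_image.1 hb
    obtain ⟨c, hc', rfl⟩ := Finset.mem_image.1 hc
    change det3 a b c ≠ 0 at hdet
    change B1like a b c
    by_contra hB
    apply hth
    have hab : a ≠ b := by
      rintro rfl
      apply hdet
      unfold det3
      ring
    have hac : a ≠ c := by
      rintro rfl
      apply hdet
      unfold det3
      ring
    have hbc : b ≠ c := by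
      rintro rfl
      apply hdet
      unfold det3
      ring
    have hsum : ∀ F : (Fin 3 →₀ ℕ) → ℚ, ∑ v ∈ ({a, b, c} : Finset (Fin 3 →₀ ℕ)), F v =
        F a + F b + F c := by
      intro F
      rw [Finset.sum_insert (by simp [hab, hac]), Finset.sum_insert (by simp [hbc]),
        Finset.sum_singleton, add_assoc]
    have hsumN : ∀ F : (Fin 3 →₀ ℕ) → ℕ, ∑ v ∈ ({a, b, c} : Finset (Fin 3 →₀ ℕ)), F v =
        F a + F b + F c := by
      intro F
      rw [Finset.sum_insert (by simp [hab, hac]), Finset.sum_insert (by simp [hbc]),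
        Finset.sum_singleton, add_assoc]
    have hρ : ({a, b, c} : Finset (Fin 3 →₀ ℕ)) ⊆ face f w N := by
      intro v hv
      simp only [Finset.mem_insert, Finset.mem_singleton] at hv
      rcases hv with rfl | rfl | rfl
      · exact ha'
      · exact hb'
      · exact hc'
    refine ⟨w, N, {a, b, c}, hpos, hw.1, hρ, hρ, c1_lin _ fun g hg => ?_, ?_, ?_⟩
    · have hq : (det3 a b c : ℚ) ≠ 0 := by exact_mod_cast hdet
      have e0 := hg 0 (hpos 0)
      have e1 := hg 1 (hpos 1)
      have e2 := hg 2 (hpos 2)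
      rw [hsum] at e0 e1 e2
      unfold det3 at hq
      push_cast at hq
      have ga : g a = 0 := by
        refine (mul_eq_zero.1 (?_ : g a * _ = 0)).resolve_right hq
        linear_combination ((b 1 : ℚ) * c 2 - b 2 * c 1) * e0 - ((b 0 : ℚ) * c 2 - b 2 * c 0) * e1
          + ((b 0 : ℚ) * c 1 - b 1 * c 0) * e2
      have gb : g b = 0 := by
        refine (mul_eq_zero.1 (?_ : g b * _ = 0)).resolve_right hq
        linear_combination ((c 1 : ℚ) * a 2 - c 2 * a 1) * e0 - ((c 0 : ℚ) * a 2 - c 2 * a 0) * e1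
          + ((c 0 : ℚ) * a 1 - c 1 * a 0) * e2
      have gc : g c = 0 := by
        refine (mul_eq_zero.1 (?_ : g c * _ = 0)).resolve_right hq
        linear_combination ((a 1 : ℚ) * b 2 - a 2 * b 1) * e0 - ((a 0 : ℚ) * b 2 - a 2 * b 0) * e1
          + ((a 0 : ℚ) * b 1 - a 1 * b 0) * e2
      intro v hv
      simp only [Finset.mem_insert, Finset.mem_singleton] at hv
      rcases hv with rfl | rfl | rfl
      · exact ga
      · exact gb
      · exact gc
    · rw [Fintype.card_subtype, Finset.filter_true_of_mem fun j _ => hpos j, Finset.card_univ,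
        Fintype.card_fin, Finset.card_insert_of_notMem (by simp [hab, hac]),
        Finset.card_insert_of_notMem (by simp [hbc]), Finset.card_singleton]
    · intro l _
      rw [hsumN]
      by_contra hlt
      apply hB
      have h0 : ¬ (a l = 0 ∧ b l = 0 ∧ c l = 0) := by
        rintro ⟨h1, h2, h3⟩
        apply hdet
        unfold det3
        fin_cases l
        · simp only [Fin.zero_eta] at h1 h2 h3
          rw [h1, h2, h3]
          push_cast
          ring
        · simp only [Fin.mk_one] at h1 h2 h3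
          rw [h1, h2, h3]
          push_cast
          ring
        · simp only [Fin.reduceFinMk] at h1 h2 h3
          rw [h1, h2, h3]
          push_cast
          ring
      refine ⟨l, ?_⟩
      unfold Pat
      omega

/-- Two exponents on both sides of a cut that lie in a common compact face. -/
private theorem c1_star {f : MvPolynomial (Fin 3) ℂ} {w : Fin 3 → ℕ} {N : ℕ}
    (hmin : IsMinWt f w N) {i j k : Fin 3} (hij : i ≠ j) (hik : i ≠ k)
    (hjk : j ≠ k) (hwj : 0 < w j) (hwk : 0 < w k) (a : ℕ)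
    (hL : ∃ v ∈ face f w N, v j ≤ a) (hR : ∃ u ∈ face f w N, a < u j) :
    ∃ v ∈ face f w N, ∃ u ∈ face f w N, v j ≤ a ∧ a < u j ∧ ∃ (ω : Fin 3 → ℕ) (Nω : ℕ),
      (∀ j, 0 < ω j) ∧ IsMinWt f ω Nω ∧ v ∈ face f ω Nω ∧ u ∈ face f ω Nω := by
  classical
  set L : Finset (Fin 3 →₀ ℕ) := (face f w N).filter fun v => v j ≤ a with hLd
  set R : Finset (Fin 3 →₀ ℕ) := (face f w N).filter fun v => a < v j with hRd
  have hLne : L.Nonempty := by
    obtain ⟨v, hv, hva⟩ := hL
    exact ⟨v, Finset.mem_filter.2 ⟨hv, hva⟩⟩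
  have hRne : R.Nonempty := by
    obtain ⟨v, hv, hva⟩ := hR
    exact ⟨v, Finset.mem_filter.2 ⟨hv, hva⟩⟩
  let lam : (Fin 3 →₀ ℕ) → (Fin 3 →₀ ℕ) → ℚ := fun v u =>
    ((v i : ℚ) - u i) / ((u j : ℚ) - v j)
  have hex : ∀ v, ∃ u ∈ R, ∀ u' ∈ R, lam v u' ≤ lam v u := fun v =>
    R.exists_max_image (lam v) hRne
  choose U hUR hUmax using hex
  obtain ⟨vs, hvs, hvsmin⟩ := L.exists_min_image (fun v => lam v (U v)) hLne
  set ls : ℚ := lam vs (U vs) with hls
  let φ : (Fin 3 →₀ ℕ) → ℚ := fun t => (t i : ℚ) + ls * t j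
  obtain ⟨v', hv', hv'min⟩ := L.exists_min_image φ hLne
  have hpos : ∀ v ∈ L, ∀ u ∈ R, (0 : ℚ) < (u j : ℚ) - v j := by
    intro v hv u hu
    have h1 := (Finset.mem_filter.1 hv).2
    have h2 := (Finset.mem_filter.1 hu).2
    have h3 : v j < u j := by omega
    have h4 : (v j : ℚ) < u j := by exact_mod_cast h3
    linarith
  have h1 : ∀ u ∈ R, φ v' ≤ φ u := by
    intro u hu
    have h2 := hUmax vs u hu
    rw [← hls] at h2
    have h3 := hpos vs hvs u hu
    have h4 : (vs i : ℚ) - u i ≤ ls * ((u j : ℚ) - vs j) := (div_le_iff₀ h3).1 h2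
    have h5 := hv'min vs hvs
    simp only [φ] at h5 ⊢
    linarith
  have h2 : φ (U v') ≤ φ v' := by
    have h3 := hvsmin v' hv'
    have h4 := hpos v' hv' (U v') (hUR v')
    have h5 : ls * (((U v') j : ℚ) - v' j) ≤ (v' i : ℚ) - (U v') i := (le_div_iff₀ h4).1 h3
    simp only [φ]
    linarith
  have hv'P : v' ∈ face f w N := (Finset.mem_filter.1 hv').1
  have huP : U v' ∈ face f w N := (Finset.mem_filter.1 (hUR v')).1
  have hminP : ∀ x ∈ face f w N, φ v' ≤ φ x := by
    intro x hx
    by_cases hxa : x j ≤ a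
    · exact hv'min x (Finset.mem_filter.2 ⟨hx, hxa⟩)
    · exact h1 x (Finset.mem_filter.2 ⟨hx, not_le.1 hxa⟩)
  have hden : (0 : ℚ) < (ls.den : ℚ) := by exact_mod_cast ls.den_pos
  have hq : (ls.den : ℚ) * ls = ls.num := by
    have := Rat.mul_den_eq_num ls
    rw [mul_comm]
    exact this
  obtain ⟨ω, hωpos, K, hω, hlt⟩ := exists_perturb f w N hmin
    (fun l => if l = i then (ls.den : ℤ) else if l = j then ls.num else 0) (by
      intro l hl
      have h3 : l = i := by
        by_contra h4
        have h5 : l = j ∨ l = k := by omega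
        rcases h5 with rfl | rfl
        · omega
        · omega
      rw [if_pos h3]
      exact_mod_cast ls.den_pos)
  have hθ : ∀ t : Fin 3 →₀ ℕ, ((wtZ (fun l => if l = i then (ls.den : ℤ) else
      if l = j then ls.num else 0) t : ℤ) : ℚ) = ls.den * φ t := by
    intro t
    unfold wtZ
    rw [c1_sum3 hij hik hjk]
    simp only [if_true, if_neg hij.symm, if_neg hik.symm, if_neg hjk.symm]
    push_cast
    simp only [φ]
    rw [← hq]
    ring
  have hval : ∀ x ∈ face f w N, ((wt ω x : ℕ) : ℚ) = ls.den * φ x + K * N := by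
    intro x hx
    rw [← hθ, ← (Finset.mem_filter.1 hx).2]
    have := hω x
    exact_mod_cast this
  have hge : ∀ x ∈ f.support, wt ω v' ≤ wt ω x := by
    intro x hx
    by_cases hxN : wt w x = N
    · have hxP : x ∈ face f w N := Finset.mem_filter.2 ⟨hx, hxN⟩
      have h3 := hval x hxP
      have h4 := hval v' hv'P
      have h5 := hminP x hxP
      have h6 : ((wt ω v' : ℕ) : ℚ) ≤ (wt ω x : ℕ) := by
        rw [h3, h4]
        nlinarith
      exact_mod_cast h6
    · exact (hlt v' (Finset.mem_filter.1 hv'P).1 x hx (Finset.mem_filter.1 hv'P).2 hxN).le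
  have hmin' : IsMinWt f ω (wt ω v') := ⟨hge, v', (Finset.mem_filter.1 hv'P).1, rfl⟩
  have hequ : wt ω (U v') = wt ω v' := by
    have h3 := hval (U v') huP
    have h4 := hval v' hv'P
    have h5 : φ (U v') = φ v' := le_antisymm h2 (hminP _ huP)
    rw [h5, ← h4] at h3
    exact_mod_cast h3
  exact ⟨v', hv'P, U v', huP, (Finset.mem_filter.1 hv').2, (Finset.mem_filter.1 (hUR v')).2, ω,
    wt ω v', hωpos, hmin', Finset.mem_filter.2 ⟨(Finset.mem_filter.1 hv'P).1, rfl⟩,
    Finset.mem_filter.2 ⟨(Finset.mem_filter.1 huP).1, hequ⟩⟩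

/-- Facets whose weight has exactly one zero coordinate. -/
theorem struct_one {f : MvPolynomial (Fin 3) ℂ} {w : Fin 3 → ℕ} {N : ℕ} (hw : IsFacetWt f w N)
    (hth : ¬ ThickC f w N) (hs : ∑ i, w i ≠ N) {i j k : Fin 3} (hij : i ≠ j) (hik : i ≠ k)
    (hjk : j ≠ k) (hwi : w i = 0) (hwj : 0 < w j) (hwk : 0 < w k) :
    (∀ u ∈ face f w N, u j ≤ 1) ∨ ∀ u ∈ face f w N, u k ≤ 1 := by
  classical
  by_contra hcon
  push Not at hcon
  obtain ⟨⟨t, ht, htj⟩, t', ht', htk⟩ := hcon
  have hP : ∀ v ∈ face f w N, w j * v j + w k * v k = N := by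
    intro v hv
    have h1 := (Finset.mem_filter.1 hv).2
    rw [c1_wt3 hij hik hjk, hwi] at h1
    omega
  have hs' : w j + w k ≠ N := by
    rw [c1_sum3 hij hik hjk, hwi] at hs
    omega
  -- a good pair gives a contradiction
  have hgood : ∀ v ∈ face f w N, ∀ u ∈ face f w N, v j < u j →
      ∀ (ω : Fin 3 → ℕ) (Nω : ℕ), (∀ j, 0 < ω j) → IsMinWt f ω Nω → v ∈ face f ω Nω →
      u ∈ face f ω Nω → 2 ≤ v j + u j → 2 ≤ v k + u k → False := by
    intro v hv u hu hlt ω Nω hω hωmin hvω huω h2j h2k
    have hvu : v ≠ u := by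
      rintro rfl
      omega
    have hdet : (v j : ℚ) * u k - v k * u j ≠ 0 := by
      intro h0
      have h1 : (v j : ℤ) * u k - v k * u j = 0 := by exact_mod_cast h0
      have h2 : (w j : ℤ) * v j + w k * v k = N := by exact_mod_cast hP v hv
      have h3 : (w j : ℤ) * u j + w k * u k = N := by exact_mod_cast hP u hu
      have h4 : (N : ℤ) * ((u j : ℤ) - v j) = 0 := by
        linear_combination (-(u j : ℤ)) * h2 + (v j : ℤ) * h3 - (w k : ℤ) * h1
      have hN := hw.2.1
      rcases mul_eq_zero.1 h4 with h5 | h5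
      · omega
      · omega
    have hsum : ∀ F : (Fin 3 →₀ ℕ) → ℚ, ∑ v ∈ ({v, u} : Finset (Fin 3 →₀ ℕ)), F v =
        F v + F u := fun F => Finset.sum_pair hvu
    have hsumN : ∀ F : (Fin 3 →₀ ℕ) → ℕ, ∑ v ∈ ({v, u} : Finset (Fin 3 →₀ ℕ)), F v =
        F v + F u := fun F => Finset.sum_pair hvu
    apply hth
    refine ⟨ω, Nω, {v, u}, hω, hωmin, ?_, ?_, c1_lin _ fun g hg => ?_, ?_, ?_⟩
    · intro x hx
      simp only [Finset.mem_insert, Finset.mem_singleton] at hx
      rcases hx with rfl | rfl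
      · exact hv
      · exact hu
    · intro x hx
      simp only [Finset.mem_insert, Finset.mem_singleton] at hx
      rcases hx with rfl | rfl
      · exact hvω
      · exact huω
    · have e1 := hg j hwj
      have e2 := hg k hwk
      rw [hsum] at e1 e2
      have gv : g v = 0 := by
        refine (mul_eq_zero.1 (?_ : g v * _ = 0)).resolve_right hdet
        linear_combination (u k : ℚ) * e1 - (u j : ℚ) * e2
      have gu : g u = 0 := by
        refine (mul_eq_zero.1 (?_ : g u * _ = 0)).resolve_right hdet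
        linear_combination (v j : ℚ) * e2 - (v k : ℚ) * e1
      intro x hx
      simp only [Finset.mem_insert, Finset.mem_singleton] at hx
      rcases hx with rfl | rfl
      · exact gv
      · exact gu
    · have h1 : (Finset.univ.filter fun l => 0 < w l) = ({j, k} : Finset (Fin 3)) := by
        ext l
        simp only [Finset.mem_filter, Finset.mem_univ, true_and, Finset.mem_insert,
          Finset.mem_singleton]
        constructor
        · intro hl
          by_contra h2
          have h3 : l = i := by omega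
          rw [h3, hwi] at hl
          omega
        · rintro (rfl | rfl)
          · exact hwj
          · exact hwk
      rw [Fintype.card_subtype, h1, Finset.card_pair hvu, Finset.card_pair hjk]
    · intro l hl
      rw [hsumN]
      have h1 : l = i ∨ l = j ∨ l = k := by omega
      rcases h1 with rfl | rfl | rfl
      · omega
      · exact h2j
      · exact h2k
  have hN := hw.2.1
  rcases lt_or_gt_of_ne hs' with hlt | hgt
  · -- `w j + w k < N`
    obtain ⟨x₀, hx₀, hx₀min⟩ := (face f w N).exists_min_image (fun v => v j) ⟨t, ht⟩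
    by_cases hx1 : x₀ j ≤ 1
    · obtain ⟨v, hv, u, hu, hva, hua, ω, Nω, hω, hωmin, hvω, huω⟩ :=
        c1_star hw.1 hij hik hjk hwj hwk 1 ⟨x₀, hx₀, hx1⟩ ⟨t, ht, htj⟩
      refine hgood v hv u hu (by omega) ω Nω hω hωmin hvω huω (by omega) ?_
      have h1 := hP v hv
      have h2 : w j * v j ≤ w j * 1 := Nat.mul_le_mul_left _ hva
      have h3 : w k * 1 < w k * v k := by omega
      have h4 := Nat.lt_of_mul_lt_mul_left h3
      omega
    · have hR : ∃ u ∈ face f w N, x₀ j < u j := by
        by_contra hcon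
        push Not at hcon
        have hall : ∀ u ∈ face f w N, u j = x₀ j := fun u hu =>
          le_antisymm (hcon u hu) (hx₀min u hu)
        have hallk : ∀ u ∈ face f w N, u k = x₀ k := by
          intro u hu
          have h1 := hP u hu
          have h2 := hP x₀ hx₀
          rw [hall u hu] at h1
          have h3 : w k * u k = w k * x₀ k := by omega
          exact Nat.eq_of_mul_eq_mul_left hwk h3
        have h1 := hw.2.2 (fun l => if l = j then (x₀ k : ℤ) else if l = k then -(x₀ j : ℤ) else 0)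
          (by
            intro l hl
            have h2 : l = i := by
              by_contra h4
              have h5 : l = j ∨ l = k := by omega
              rcases h5 with rfl | rfl
              · omega
              · omega
            rw [if_neg (by rw [h2]; exact hij), if_neg (by rw [h2]; exact hik)])
          (by
            intro u hu
            rw [c1_sum3 hij hik hjk, if_neg hij, if_neg hik, if_pos rfl, if_neg hjk.symm,
              if_pos rfl, hall u hu, hallk u hu]
            ring)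
        have h2 := congrFun h1 k
        simp only [if_neg hjk.symm, if_true, Pi.zero_apply] at h2
        omega
      obtain ⟨v, hv, u, hu, hva, hua, ω, Nω, hω, hωmin, hvω, huω⟩ :=
        c1_star hw.1 hij hik hjk hwj hwk (x₀ j) ⟨x₀, hx₀, le_refl _⟩ hR
      refine hgood v hv u hu (by omega) ω Nω hω hωmin hvω huω (by omega) ?_
      have h1 := hP v hv
      have h2 := hP t' ht'
      have h3 : v j ≤ t' j := hva.trans (hx₀min t' ht')
      have h4 : w j * v j ≤ w j * t' j := Nat.mul_le_mul_left _ h3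
      have h5 : w k * t' k ≤ w k * v k := by omega
      have h6 := Nat.le_of_mul_le_mul_left h5 hwk
      omega
  · -- `N < w j + w k`
    have hor : ∀ v ∈ face f w N, v j = 0 ∨ v k = 0 := by
      intro v hv
      by_contra hcon
      push Not at hcon
      have h1 := hP v hv
      have h2 : w j * 1 ≤ w j * v j := Nat.mul_le_mul_left _ (Nat.one_le_iff_ne_zero.2 hcon.1)
      have h3 : w k * 1 ≤ w k * v k := Nat.mul_le_mul_left _ (Nat.one_le_iff_ne_zero.2 hcon.2)
      omega
    have ht'j : t' j = 0 := (hor t' ht').resolve_right (by omega)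
    have htk0 : t k = 0 := (hor t ht).resolve_left (by omega)
    obtain ⟨v, hv, u, hu, hva, hua, ω, Nω, hω, hωmin, hvω, huω⟩ :=
      c1_star hw.1 hij hik hjk hwj hwk 0 ⟨t', ht', by omega⟩ ⟨t, ht, by omega⟩
    have hvj : v j = 0 := by omega
    have huk : u k = 0 := (hor u hu).resolve_left (by omega)
    have hvk : v k = t' k := by
      have h1 := hP v hv
      have h2 := hP t' ht'
      rw [hvj] at h1
      rw [ht'j] at h2
      have h3 : w k * v k = w k * t' k := by omega
      exact Nat.eq_of_mul_eq_mul_left hwk h3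
    have huj : u j = t j := by
      have h1 := hP u hu
      have h2 := hP t ht
      rw [huk] at h1
      rw [htk0] at h2
      have h3 : w j * u j = w j * t j := by omega
      exact Nat.eq_of_mul_eq_mul_left hwj h3
    exact hgood v hv u hu (by omega) ω Nω hω hωmin hvω huω (by omega) (by omega)

/-- Facets whose weight has two zero coordinates. -/
theorem struct_two {f : MvPolynomial (Fin 3) ℂ} {w : Fin 3 → ℕ} {N : ℕ} (hw : IsFacetWt f w N)
    (hth : ¬ ThickC f w N) (hs : ∑ i, w i ≠ N) {i k : Fin 3} (hik : i ≠ k)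
    (hwi : w i = 0) (hwk : w k = 0) : False := by
  classical
  obtain ⟨j, hij, hjk⟩ : ∃ j : Fin 3, i ≠ j ∧ j ≠ k := by
    have h : ∀ i k : Fin 3, ∃ j : Fin 3, i ≠ j ∧ j ≠ k := by decide
    exact h i k
  have hN := hw.2.1
  obtain ⟨ω, Nω, hω, hωmin, hωw, -⟩ := exists_compact_face f w N hw.1 hw.2.2
  obtain ⟨v, hv, hvω⟩ := hωmin.2
  have hvN := hωw v hv hvω
  have h1 : w j * v j = N := by
    rw [c1_wt3 hij hik hjk, hwi, hwk] at hvN
    omega
  rw [c1_sum3 hij hik hjk, hwi, hwk] at hs
  have hwj : 0 < w j := by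
    rcases Nat.eq_zero_or_pos (w j) with h | h
    · rw [h] at h1
      omega
    · exact h
  have hvj : v j ≠ 0 := by
    intro h
    rw [h] at h1
    omega
  have hvj1 : v j ≠ 1 := by
    intro h
    rw [h] at h1
    omega
  apply hth
  refine ⟨ω, Nω, {v}, hω, hωmin, ?_, ?_, c1_lin _ fun g hg => ?_, ?_, ?_⟩
  · rw [Finset.singleton_subset_iff]
    exact Finset.mem_filter.2 ⟨hv, hvN⟩
  · rw [Finset.singleton_subset_iff]
    exact Finset.mem_filter.2 ⟨hv, hvω⟩
  · have e1 := hg j hwj
    rw [Finset.sum_singleton] at e1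
    intro x hx
    rw [Finset.mem_singleton] at hx
    rw [hx]
    exact (mul_eq_zero.1 e1).resolve_right (by exact_mod_cast hvj)
  · have h1 : (Finset.univ.filter fun l => 0 < w l) = ({j} : Finset (Fin 3)) := by
      ext l
      simp only [Finset.mem_filter, Finset.mem_univ, true_and, Finset.mem_singleton]
      constructor
      · intro hl
        by_contra h2
        have h3 : l = i ∨ l = k := by omega
        rcases h3 with h3 | h3
        · rw [h3, hwi] at hl
          omega
        · rw [h3, hwk] at hl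
          omega
      · rintro rfl
        exact hwj
    rw [Fintype.card_subtype, h1, Finset.card_singleton, Finset.card_singleton]
  · intro l hl
    rw [Finset.sum_singleton]
    have h3 : l = i ∨ l = j ∨ l = k := by omega
    rcases h3 with h3 | h3 | h3
    · rw [h3, hwi] at hl
      omega
    · rw [h3]
      omega
    · rw [h3, hwk] at hl
      omega

end MPb07157
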