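import Pool.Agent.Lib.MP_b07157_ag.N3.Comb1

/-!
# Existence of an apex
-/

noncomputable section

namespace MPb07157

open MvPolynomial Finset

private theorem cb2_wt_single {n : ℕ} (w : Fin n → ℕ) (k : Fin n) :
    wt w (Finsupp.single k 1) = w k := by
  unfold wt
  rw [Finset.sum_eq_single k]
  · simp
  · intro b _ hb
    rw [Finsupp.single_eq_of_ne hb, mul_zero]
  · intro h
    exact absurd (Finset.mem_univ k) h

private theorem cb2_univ : ∀ i j k : Fin 3, i ≠ j → i ≠ k → j ≠ k →
    (Finset.univ : Finset (Fin 3)) = {i, j, k} := by decide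

private theorem cb2_wt {w : Fin 3 → ℕ} {i j k : Fin 3} (hij : i ≠ j) (hik : i ≠ k)
    (hjk : j ≠ k) (u : Fin 3 →₀ ℕ) : wt w u = w i * u i + (w j * u j + w k * u k) := by
  unfold wt
  rw [cb2_univ i j k hij hik hjk, Finset.sum_insert (by simp [hij, hik]),
    Finset.sum_insert (by simp [hjk]), Finset.sum_singleton]

private theorem cb2_cases : ∀ i j k : Fin 3, i ≠ j → i ≠ k → j ≠ k →
    ∀ l, l = i ∨ l = j ∨ l = k := by decide

private theorem cb2_third : ∀ i j : Fin 3, i ≠ j → ∃ k, i ≠ k ∧ j ≠ k := by decide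

private theorem cb2_two : ∀ i : Fin 3, ∃ j k, i ≠ j ∧ i ≠ k ∧ j ≠ k := by decide

/-- A unit vector in a facet is an apex. -/
theorem apex_single {n : ℕ} {f : MvPolynomial (Fin n) ℂ} {w : Fin n → ℕ} {N : ℕ} (hN : 0 < N)
    {k : Fin n} (hk : Finsupp.single k 1 ∈ face f w N) :
    Apex f ∅ w N k (Finsupp.single k 1) := by
  have hwk : wt w (Finsupp.single k 1) = N := (Finset.mem_filter.1 hk).2
  rw [cb2_wt_single] at hwk
  refine ⟨hk, Finsupp.single_eq_same, by omega, fun u hu hne => ?_⟩
  by_cases h0 : u k = 0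
  · exact Or.inl h0
  · right
    have hle : ∀ i, (Finsupp.single k 1 : Fin n →₀ ℕ) i ≤ u i := by
      intro i
      by_cases hi : i = k
      · subst hi
        rw [Finsupp.single_eq_same]
        omega
      · rw [Finsupp.single_eq_of_ne hi]
        exact Nat.zero_le _
    refine ⟨fun i _ => hle i, ?_⟩
    by_contra hcon
    push Not at hcon
    apply hne
    ext i
    exact le_antisymm (hcon i (Finset.notMem_empty i)) (hle i)

/-- If a facet contains a unit vector `e_l` and has an apex in the direction `l`, the apex is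
`e_l`. -/
theorem apex_eq_single {n : ℕ} {f : MvPolynomial (Fin n) ℂ} {w : Fin n → ℕ} {N : ℕ}
    {l : Fin n} (hl : Finsupp.single l 1 ∈ face f w N) {v : Fin n →₀ ℕ}
    (hv : Apex f ∅ w N l v) : v = Finsupp.single l 1 := by
  by_contra hne
  rcases hv.2.2.2 _ hl (fun h => hne h.symm) with h | ⟨h1, i, -, h2⟩
  · rw [Finsupp.single_eq_same] at h
    exact one_ne_zero h
  · by_cases hi : i = l
    · subst hi
      rw [Finsupp.single_eq_same, hv.2.1] at h2
      exact lt_irrefl _ h2
    · rw [Finsupp.single_eq_of_ne hi] at h2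
      exact Nat.not_lt_zero _ h2

/-- Facets with one zero coordinate: the apex over a coordinate bounded by one. -/
theorem apex_of_le_one {f : MvPolynomial (Fin 3) ℂ} {w : Fin 3 → ℕ} {N : ℕ}
    (hw : IsFacetWt f w N) {i j k : Fin 3} (hij : i ≠ j) (hik : i ≠ k)
    (hjk : j ≠ k) (hwi : w i = 0) (hwj : 0 < w j) (hwk : 0 < w k)
    (hle : ∀ u ∈ face f w N, u j ≤ 1) : ∃ v, Apex f ∅ w N j v := by
  classical
  have hwt : ∀ u ∈ face f w N, w j * u j + w k * u k = N := by
    intro u hu
    have h1 : wt w u = N := (Finset.mem_filter.1 hu).2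
    rw [cb2_wt hij hik hjk, hwi, zero_mul, zero_add] at h1
    exact h1
  -- some exponent has `u_j = 1`
  have hex : ∃ u ∈ face f w N, u j = 1 := by
    by_contra hcon
    push Not at hcon
    have h0 : ∀ u ∈ face f w N, u j = 0 := by
      intro u hu
      have h1 := hle u hu
      have h2 := hcon u hu
      omega
    have hy := hw.2.2 (Pi.single j 1) (by
      intro l hl
      have hlj : l ≠ j := by
        rintro rfl
        omega
      rw [Pi.single_eq_of_ne hlj]) (by
      intro u hu
      rw [Finset.sum_eq_single j]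
      · rw [h0 u hu]
        simp
      · intro b _ hb
        rw [Pi.single_eq_of_ne hb, zero_mul]
      · intro h
        exact absurd (Finset.mem_univ j) h)
    have hyj := congrFun hy j
    rw [Pi.single_eq_same] at hyj
    exact one_ne_zero hyj
  obtain ⟨u₀, hu₀, hu₀j⟩ := hex
  obtain ⟨v, hv, hmin⟩ := Finset.exists_min_image ((face f w N).filter fun u => u j = 1)
    (fun u => u i) ⟨u₀, Finset.mem_filter.2 ⟨hu₀, hu₀j⟩⟩
  rw [Finset.mem_filter] at hv
  refine ⟨v, hv.1, hv.2, hwj, fun t ht htv => ?_⟩
  by_cases h0 : t j = 0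
  · exact Or.inl h0
  · right
    have htj : t j = 1 := by
      have := hle t ht
      omega
    have h1 := hmin t (Finset.mem_filter.2 ⟨ht, htj⟩)
    have h2 := hwt t ht
    have h3 := hwt v hv.1
    rw [htj] at h2
    rw [hv.2] at h3
    have h4 : t k = v k := Nat.eq_of_mul_eq_mul_left hwk (by omega)
    have h5 : v i ≠ t i := by
      intro he
      apply htv
      ext l
      rcases cb2_cases i j k hij hik hjk l with rfl | rfl | rfl
      · exact he.symm
      · rw [htj, hv.2]
      · exact h4
    refine ⟨fun l _ => ?_, i, Finset.notMem_empty i, lt_of_le_of_ne h1 h5⟩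
    rcases cb2_cases i j k hij hik hjk l with rfl | rfl | rfl
    · exact h1
    · rw [htj, hv.2]
    · exact h4.ge

/-- Every contributing facet has an apex if the candidate pole is not a root. -/
theorem exists_apex {f : MvPolynomial (Fin 3) ℂ} (hf : f ≠ 0)
    (halg : AlgebraicIndependent ℚ (cf f)) {s₀ : ℚ} (hnr : NRoot f s₀) (h1 : s₀ ≠ -1)
    {w : Fin 3 → ℕ} {N : ℕ} (h : HF f ∅ s₀ w N) : ∃ l v, Apex f ∅ w N l v := by
  have hth := h.not_thickC hf halg hnr
  have hs := h.sum_ne h1
  obtain ⟨hF, -, hsum⟩ := h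
  by_cases hpos : ∀ l, 0 < w l
  · rcases struct_pos hF hth hpos with ⟨l, v, hv, hvl, hu⟩ | ⟨i, j, hij, v, hv, u, hu, hvi, hvj,
      hui, huj⟩
    · exact ⟨l, v, hv, hvl, hpos l, fun u hu' hne => Or.inl (hu u hu' hne)⟩
    · obtain ⟨k, hik, hjk⟩ := cb2_third i j hij
      have huw : wt w u = N := (Finset.mem_filter.1 hu).2
      have hvw : wt w v = N := (Finset.mem_filter.1 hv).2
      have huk : u k ≠ 0 := by
        intro h0
        rw [cb2_wt hij hik hjk, hui, huj, h0] at huw
        have := hF.2.1
        omega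
      by_cases hne : v k = 0 ∧ u k = 1
      · have hus : u = Finsupp.single k 1 := by
          ext l
          rcases cb2_cases i j k hij hik hjk l with rfl | rfl | rfl
          · rw [hui, Finsupp.single_eq_of_ne hik]
          · rw [huj, Finsupp.single_eq_of_ne hjk]
          · rw [hne.2, Finsupp.single_eq_same]
        rw [hus] at hu
        exact ⟨k, _, apex_single hF.2.1 hu⟩
      · exact absurd (exc_root_three hf halg hpos hF.1 hv hu hij hik hjk hvi hvj hui huj huk hne
          hF.2.1 hvw huw hsum) hnr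
  · push Not at hpos
    obtain ⟨i, hi⟩ := hpos
    have hwi : w i = 0 := by omega
    obtain ⟨j, k, hij, hik, hjk⟩ := cb2_two i
    rcases Nat.eq_zero_or_pos (w j) with hwj | hwj
    · exact (struct_two hF hth hs hij hwi hwj).elim
    · rcases Nat.eq_zero_or_pos (w k) with hwk | hwk
      · exact (struct_two hF hth hs hik hwi hwk).elim
      · rcases struct_one hF hth hs hij hik hjk hwi hwj hwk with hle | hle
        · exact ⟨j, apex_of_le_one hF hij hik hjk hwi hwj hwk hle⟩
        · exact ⟨k, apex_of_le_one hF hik hij hjk.symm hwi hwk hwj hle⟩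

end MPb07157
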