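import Pool.Agent.Lib.MP_b07157_ag.N3.Comb2

/-!
# The labels in three variables: the local part
-/

noncomputable section

namespace MPb07157

open MvPolynomial Finset

open Classical in
/-- The least element with a property (`2` if there is none). -/
def leastFin (P : Fin 3 → Prop) : Fin 3 := if P 0 then 0 else if P 1 then 1 else 2

theorem leastFin_spec {P : Fin 3 → Prop} (h : ∃ k, P k) : P (leastFin P) := by
  unfold leastFin
  split_ifs with h0 h1
  · exact h0
  · exact h1
  · obtain ⟨k, hk⟩ := h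
    fin_cases k
    · exact absurd hk h0
    · exact absurd hk h1
    · exact hk

theorem leastFin_congr {P Q : Fin 3 → Prop} (h : ∀ k, P k ↔ Q k) : leastFin P = leastFin Q := by
  have : P = Q := funext fun k => propext (h k)
  rw [this]

open Classical in
/-- The label of a facet: the least `k` with `e_k` in the facet, if there is one, and otherwise the
least B1-direction. -/
def lab3 (f : MvPolynomial (Fin 3) ℂ) (w : Fin 3 → ℕ) (N : ℕ) : Fin 3 :=
  if ∃ k, (Finsupp.single k 1 : Fin 3 →₀ ℕ) ∈ face f w N then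
    leastFin fun k => (Finsupp.single k 1 : Fin 3 →₀ ℕ) ∈ face f w N
  else leastFin fun l => ∃ v, Apex f ∅ w N l v


/-! auxiliary lemmas -/

private theorem c3_cases {i j k : Fin 3} (hij : i ≠ j) (hik : i ≠ k) (hjk : j ≠ k) (l : Fin 3) :
    l = i ∨ l = j ∨ l = k := by
  revert hij hik hjk
  revert i j k l
  decide

private theorem c3_sum {M : Type*} [AddCommMonoid M] (F : Fin 3 → M) {i j k : Fin 3} (hij : i ≠ j)
    (hik : i ≠ k) (hjk : j ≠ k) : ∑ l, F l = F i + F j + F k := by
  have h : (Finset.univ : Finset (Fin 3)) = {i, j, k} := by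
    revert hij hik hjk
    revert i j k
    decide
  rw [h, Finset.sum_insert, Finset.sum_insert, Finset.sum_singleton, add_assoc]
  · simp [hjk]
  · simp [hij, hik]

private theorem c3_third {i j : Fin 3} (hij : i ≠ j) : ∃ k, i ≠ k ∧ j ≠ k := by
  revert hij
  revert i j
  decide

private theorem c3_others (i : Fin 3) : ∃ j k, i ≠ j ∧ i ≠ k ∧ j ≠ k := by
  revert i
  decide

private theorem c3_mem {n : ℕ} {f : MvPolynomial (Fin n) ℂ} {w : Fin n → ℕ} {N : ℕ}
    {u : Fin n →₀ ℕ} : u ∈ face f w N ↔ u ∈ f.support ∧ wt w u = N := by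
  unfold face
  rw [Finset.mem_filter]

private theorem c3_wt {w : Fin 3 → ℕ} {u : Fin 3 →₀ ℕ} {i j k : Fin 3} (hij : i ≠ j)
    (hik : i ≠ k) (hjk : j ≠ k) : wt w u = w i * u i + w j * u j + w k * u k := by
  unfold wt
  exact c3_sum (fun l => w l * u l) hij hik hjk

private theorem c3_wt_mul {n : ℕ} {w w' : Fin n → ℕ} {N N' : ℕ} (h : ∀ i, N' * w i = N * w' i)
    (u : Fin n →₀ ℕ) : N' * wt w u = N * wt w' u := by
  unfold wt
  rw [Finset.mul_sum, Finset.mul_sum]
  refine Finset.sum_congr rfl fun i _ => ?_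
  rw [← mul_assoc, ← mul_assoc, h]

private theorem c3_wt_add {n : ℕ} (w w' : Fin n → ℕ) (u : Fin n →₀ ℕ) :
    wt (fun i => w i + w' i) u = wt w u + wt w' u := by
  unfold wt
  rw [← Finset.sum_add_distrib]
  refine Finset.sum_congr rfl fun i _ => ?_
  rw [add_mul]

private theorem c3_single_sum {n : ℕ} (l : Fin n) (u : Fin n →₀ ℕ) :
    ∑ i, (Pi.single l (1 : ℤ) : Fin n → ℤ) i * (u i : ℤ) = u l := by
  rw [Finset.sum_eq_single l]
  · simp
  · intro b _ hb
    rw [Pi.single_eq_of_ne hb, zero_mul]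
  · intro h
    exact absurd (Finset.mem_univ l) h

private theorem c3_single_one {n : ℕ} (l : Fin n) :
    ∑ i, (Pi.single l (1 : ℤ) : Fin n → ℤ) i = 1 := by
  rw [Finset.sum_eq_single l]
  · simp
  · intro b _ hb
    rw [Pi.single_eq_of_ne hb]
  · intro h
    exact absurd (Finset.mem_univ l) h

private theorem c3_joined_single {n : ℕ} {f : MvPolynomial (Fin n) ℂ} {s₀ : ℚ} {w : Fin n → ℕ}
    {N : ℕ} {w' : Fin n → ℕ} {N' : ℕ} (hj : Joined f s₀ w N w' N') (l : Fin n)
    (hl : 0 < w l ∨ 0 < w' l) (c : ℕ)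
    (hc : ∀ u, u ∈ face f w N → u ∈ face f w' N' → u l = c) : (1 : ℚ) = -s₀ * c := by
  have h := hj.2 (Pi.single l 1) c (fun i h1 h2 => by
    by_cases hi : i = l
    · subst hi
      omega
    · exact Pi.single_eq_of_ne hi _) (fun u h1 h2 => by rw [c3_single_sum, hc u h1 h2])
  rw [c3_single_one] at h
  exact_mod_cast h

private theorem c3_joined_symm {n : ℕ} {f : MvPolynomial (Fin n) ℂ} {s₀ : ℚ} {w : Fin n → ℕ}
    {N : ℕ} {w' : Fin n → ℕ} {N' : ℕ} (hj : Joined f s₀ w N w' N') : Joined f s₀ w' N' w N := by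
  obtain ⟨⟨u, hu1, hu2⟩, h⟩ := hj
  exact ⟨⟨u, hu2, hu1⟩, fun y c h1 h2 => h y c (fun i a b => h1 i b a) (fun u a b => h2 u b a)⟩

private theorem c3_single_eq {i j k : Fin 3} (hij : i ≠ j) (hik : i ≠ k) (hjk : j ≠ k)
    {u : Fin 3 →₀ ℕ} (hi : u i = 0) (hj : u j = 0) (hk : u k = 1) : u = Finsupp.single k 1 := by
  ext l
  rcases c3_cases hij hik hjk l with rfl | rfl | rfl
  · rw [hi, Finsupp.single_eq_of_ne hik]
  · rw [hj, Finsupp.single_eq_of_ne hjk]
  · rw [hk, Finsupp.single_eq_same]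

/-- Proportional facet weights have the same faces. -/
theorem face_eq_of_prop {n : ℕ} {f : MvPolynomial (Fin n) ℂ} {w w' : Fin n → ℕ} {N N' : ℕ}
    (hN : 0 < N) (hN' : 0 < N') (h : ∀ i, N' * w i = N * w' i) : face f w N = face f w' N' := by
  ext u
  rw [c3_mem, c3_mem]
  have h1 := c3_wt_mul h u
  refine and_congr_right fun _ => ⟨fun h2 => ?_, fun h2 => ?_⟩
  · rw [h2, mul_comm] at h1
    exact (Nat.eq_of_mul_eq_mul_left hN h1).symm
  · rw [h2, mul_comm N N'] at h1
    exact Nat.eq_of_mul_eq_mul_left hN' h1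

/-- Facets with a common zero coordinate that are joined are proportional. -/
theorem join_case_zero {f : MvPolynomial (Fin 3) ℂ} {s₀ : ℚ} (h1 : s₀ ≠ -1)
    {w : Fin 3 → ℕ} {N : ℕ} {w' : Fin 3 → ℕ} {N' : ℕ} (hN : 0 < N) (hN' : 0 < N')
    {i j k : Fin 3} (hij : i ≠ j) (hik : i ≠ k) (hjk : j ≠ k) (hwi : w i = 0) (hwi' : w' i = 0)
    (hwj : 0 < w j) (hwk : 0 < w k)
    (hle : (∀ u ∈ face f w N, u j ≤ 1) ∨ ∀ u ∈ face f w N, u k ≤ 1)
    (hj : Joined f s₀ w N w' N') : ∀ l, N' * w l = N * w' l := by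
  by_contra hcon
  obtain ⟨u0, hu0, hu0'⟩ := hj.1
  have e1 := (c3_mem.1 hu0).2
  have e2 := (c3_mem.1 hu0').2
  rw [c3_wt hij hik hjk, hwi, zero_mul, zero_add] at e1
  rw [c3_wt hij hik hjk, hwi', zero_mul, zero_add] at e2
  have z1 : (w j : ℤ) * u0 j + w k * u0 k = N := by exact_mod_cast e1
  have z2 : (w' j : ℤ) * u0 j + w' k * u0 k = N' := by exact_mod_cast e2
  have hdet : (w j : ℤ) * w' k - w k * w' j ≠ 0 := by
    intro hd
    apply hcon
    intro l
    rcases c3_cases hij hik hjk l with rfl | rfl | rfl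
    · rw [hwi, hwi', mul_zero, mul_zero]
    · have : (N' : ℤ) * w l = N * w' l := by
        rw [← z1, ← z2]
        linear_combination (u0 k : ℤ) * hd
      exact_mod_cast this
    · have : (N' : ℤ) * w l = N * w' l := by
        rw [← z1, ← z2]
        linear_combination (-(u0 j : ℤ)) * hd
      exact_mod_cast this
  have huniq : ∀ u, u ∈ face f w N → u ∈ face f w' N' → u j = u0 j ∧ u k = u0 k := by
    intro u hu hu'
    have a1 := (c3_mem.1 hu).2
    have a2 := (c3_mem.1 hu').2
    rw [c3_wt hij hik hjk, hwi, zero_mul, zero_add] at a1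
    rw [c3_wt hij hik hjk, hwi', zero_mul, zero_add] at a2
    have y1 : (w j : ℤ) * u j + w k * u k = N := by exact_mod_cast a1
    have y2 : (w' j : ℤ) * u j + w' k * u k = N' := by exact_mod_cast a2
    have d1 : ((w j : ℤ) * w' k - w k * w' j) * ((u j : ℤ) - u0 j) = 0 := by
      linear_combination (w' k : ℤ) * y1 - (w k : ℤ) * y2 - (w' k : ℤ) * z1 + (w k : ℤ) * z2
    have d2 : ((w j : ℤ) * w' k - w k * w' j) * ((u k : ℤ) - u0 k) = 0 := by
      linear_combination (w j : ℤ) * y2 - (w' j : ℤ) * y1 - (w j : ℤ) * z2 + (w' j : ℤ) * z1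
    have d3 := (mul_eq_zero.1 d1).resolve_left hdet
    have d4 := (mul_eq_zero.1 d2).resolve_left hdet
    constructor <;> omega
  have r1 := c3_joined_single hj j (Or.inl hwj) (u0 j) (fun u a b => (huniq u a b).1)
  have r2 := c3_joined_single hj k (Or.inl hwk) (u0 k) (fun u a b => (huniq u a b).2)
  have hs0 : s₀ ≠ 0 := by
    rintro rfl
    rw [neg_zero, zero_mul] at r1
    exact one_ne_zero r1
  have heq : (u0 j : ℚ) = u0 k := by
    have h3 : -s₀ * (u0 j : ℚ) = -s₀ * (u0 k : ℚ) := by rw [← r1, ← r2]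
    exact mul_left_cancel₀ (neg_ne_zero.2 hs0) h3
  have heq' : u0 j = u0 k := by exact_mod_cast heq
  have hne0 : u0 j ≠ 0 := by
    intro h0
    rw [h0, Nat.cast_zero, mul_zero] at r1
    exact one_ne_zero r1
  have hone : u0 j = 1 := by
    rcases hle with h | h
    · have := h u0 hu0
      omega
    · have := h u0 hu0
      omega
  rw [hone, Nat.cast_one, mul_one] at r1
  apply h1
  linarith

/-- Facets without a common zero coordinate that are joined and not proportional: the structure of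
their intersection. -/
theorem join_case_pos {f : MvPolynomial (Fin 3) ℂ} {s₀ : ℚ}
    {w : Fin 3 → ℕ} {N : ℕ} {w' : Fin 3 → ℕ} {N' : ℕ} (hw : IsMinWt f w N) (hw' : IsMinWt f w' N')
    (hpos : ∀ l, 0 < w l ∨ 0 < w' l)
    (hj : Joined f s₀ w N w' N') {l : Fin 3} {v : Fin 3 →₀ ℕ} (hv : Apex f ∅ w N l v) :
    v ∈ face f w' N' ∧ ∀ u ∈ face f w N, u ∈ face f w' N' → u ≠ v → u l = 0 := by
  obtain ⟨hvf, hvl, hwl, hdom⟩ := hv
  have key : ∀ u ∈ face f w N, u ∈ face f w' N' → u ≠ v → u l = 0 := by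
    intro u hu hu' huv
    rcases hdom u hu huv with h | h
    · exact h
    · exfalso
      obtain ⟨hle, i, -, hi⟩ := h
      have hle' : ∀ i, v i ≤ u i := fun i => hle i (Finset.notMem_empty i)
      have e1 := (c3_mem.1 hvf).2
      have e2 := (c3_mem.1 hu).2
      have e3 := (c3_mem.1 hu').2
      have e4 := hw'.1 v (c3_mem.1 hvf).1
      rcases hpos i with h0 | h0
      · have hlt : wt w v < wt w u := by
          unfold wt
          exact Finset.sum_lt_sum (fun j _ => Nat.mul_le_mul_left _ (hle' j))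
            ⟨i, Finset.mem_univ i, Nat.mul_lt_mul_of_pos_left hi h0⟩
        omega
      · have hlt : wt w' v < wt w' u := by
          unfold wt
          exact Finset.sum_lt_sum (fun j _ => Nat.mul_le_mul_left _ (hle' j))
            ⟨i, Finset.mem_univ i, Nat.mul_lt_mul_of_pos_left hi h0⟩
        omega
  refine ⟨?_, key⟩
  by_contra hvn
  have r := c3_joined_single hj l (Or.inl hwl) 0 (fun u a b => key u a b (by
    rintro rfl
    exact hvn b))
  rw [Nat.cast_zero, mul_zero] at r
  exact one_ne_zero r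

/-- The two-point structure of the intersection. -/
theorem join_two {f : MvPolynomial (Fin 3) ℂ} {s₀ : ℚ} (h1 : s₀ ≠ -1)
    {w : Fin 3 → ℕ} {N : ℕ} {w' : Fin 3 → ℕ} {N' : ℕ} (hN : 0 < N) (hN' : 0 < N')
    (hw : IsMinWt f w N)
    (hw' : IsMinWt f w' N') (hpos : ∀ l, 0 < w l ∨ 0 < w' l)
    (hnp : ¬ ∀ l, N' * w l = N * w' l)
    (hj : Joined f s₀ w N w' N') {l : Fin 3} {v : Fin 3 →₀ ℕ} (hv : Apex f ∅ w N l v) :
    ∃ u, u ∈ face f w N ∧ u ∈ face f w' N' ∧ u ≠ v ∧ u l = 0 ∧
      (∀ t, t ∈ face f w N → t ∈ face f w' N' → t = v ∨ t = u) ∧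
      ∀ m k, l ≠ m → l ≠ k → m ≠ k →
        (1 - (v m : ℤ)) * (u k : ℤ) = (1 - (v k : ℤ)) * (u m : ℤ) := by
  obtain ⟨hvf', hzero⟩ := join_case_pos hw hw' hpos hj hv
  obtain ⟨hvf, hvl, hwl, -⟩ := id hv
  obtain ⟨u, hu, hu', huv⟩ : ∃ u, u ∈ face f w N ∧ u ∈ face f w' N' ∧ u ≠ v := by
    by_contra hno
    push Not at hno
    have r := c3_joined_single hj l (Or.inl hwl) 1 (fun u a b => by rw [hno u a b, hvl])
    rw [Nat.cast_one, mul_one] at r
    apply h1
    linarith
  have hul : u l = 0 := hzero u hu hu' huv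
  obtain ⟨m, k, hlm, hlk, hmk⟩ := c3_others l
  -- the equations
  have hu1 := (c3_mem.1 hu).2
  have hu2 := (c3_mem.1 hu').2
  have hv1 := (c3_mem.1 hvf).2
  have hv2 := (c3_mem.1 hvf').2
  rw [c3_wt hlm hlk hmk, hul, mul_zero, zero_add] at hu1 hu2
  rw [c3_wt hlm hlk hmk, hvl, mul_one] at hv1 hv2
  have zu1 : (w m : ℤ) * u m + w k * u k = N := by exact_mod_cast hu1
  have zu2 : (w' m : ℤ) * u m + w' k * u k = N' := by exact_mod_cast hu2
  have zv1 : (w l : ℤ) + w m * v m + w k * v k = N := by exact_mod_cast hv1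
  have zv2 : (w' l : ℤ) + w' m * v m + w' k * v k = N' := by exact_mod_cast hv2
  have hdet : (w m : ℤ) * w' k - w k * w' m ≠ 0 := by
    intro hd
    apply hnp
    intro i
    rcases c3_cases hlm hlk hmk i with rfl | rfl | rfl
    · have : (N' : ℤ) * w i = N * w' i := by
        have a1 : (w i : ℤ) = N - w m * v m - w k * v k := by linarith
        have a2 : (w' i : ℤ) = N' - w' m * v m - w' k * v k := by linarith
        rw [a1, a2, ← zu1, ← zu2]
        linear_combination ((u m : ℤ) * v k - (u k : ℤ) * v m) * hd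
      exact_mod_cast this
    · have : (N' : ℤ) * w i = N * w' i := by
        rw [← zu1, ← zu2]
        linear_combination (u k : ℤ) * hd
      exact_mod_cast this
    · have : (N' : ℤ) * w i = N * w' i := by
        rw [← zu1, ← zu2]
        linear_combination (-(u m : ℤ)) * hd
      exact_mod_cast this
  have hall : ∀ t, t ∈ face f w N → t ∈ face f w' N' → t ≠ v → t = u := by
    intro t ht ht' htv
    have htl := hzero t ht ht' htv
    have ht1 := (c3_mem.1 ht).2
    have ht2 := (c3_mem.1 ht').2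
    rw [c3_wt hlm hlk hmk, htl, mul_zero, zero_add] at ht1 ht2
    have zt1 : (w m : ℤ) * t m + w k * t k = N := by exact_mod_cast ht1
    have zt2 : (w' m : ℤ) * t m + w' k * t k = N' := by exact_mod_cast ht2
    have d1 : ((w m : ℤ) * w' k - w k * w' m) * ((t m : ℤ) - u m) = 0 := by
      linear_combination (w' k : ℤ) * zt1 - (w k : ℤ) * zt2 - (w' k : ℤ) * zu1 +
        (w k : ℤ) * zu2
    have d2 : ((w m : ℤ) * w' k - w k * w' m) * ((t k : ℤ) - u k) = 0 := by
      linear_combination (w m : ℤ) * zt2 - (w' m : ℤ) * zt1 - (w m : ℤ) * zu2 +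
        (w' m : ℤ) * zu1
    have d3 := (mul_eq_zero.1 d1).resolve_left hdet
    have d4 := (mul_eq_zero.1 d2).resolve_left hdet
    ext i
    rcases c3_cases hlm hlk hmk i with rfl | rfl | rfl
    · rw [htl, hul]
    · omega
    · omega
  refine ⟨u, hu, hu', huv, hul, fun t ht ht' => ?_, fun m k hlm hlk hmk => ?_⟩
  · by_cases htv : t = v
    · exact Or.inl htv
    · exact Or.inr (hall t ht ht' htv)
  · set y : Fin 3 → ℤ := fun i => if i = l then (v m : ℤ) * u k - v k * u m else
      if i = m then -(u k : ℤ) else (u m : ℤ) with hy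
    have yl : y l = (v m : ℤ) * u k - v k * u m := by simp [hy]
    have ym : y m = -(u k : ℤ) := by simp [hy, hlm.symm]
    have yk : y k = (u m : ℤ) := by simp [hy, hlk.symm, hmk.symm]
    have r := hj.2 y 0 (fun i a b => by have := hpos i; omega) (fun t ht ht' => by
      by_cases htv : t = v
      · subst htv
        rw [c3_sum _ hlm hlk hmk, yl, ym, yk, hvl]
        push_cast
        ring
      · rw [hall t ht ht' htv, c3_sum _ hlm hlk hmk, yl, ym, yk, hul]
        push_cast
        ring)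
    rw [c3_sum _ hlm hlk hmk, yl, ym, yk, Int.cast_zero, mul_zero] at r
    have r' : (v m : ℤ) * u k - v k * u m + -(u k : ℤ) + u m = 0 := by exact_mod_cast r
    linarith

/-- **The labels are consistent** (part of the zeta function with all orders positive). -/
theorem labels_empty {f : MvPolynomial (Fin 3) ℂ} (hf : f ≠ 0)
    (halg : AlgebraicIndependent ℚ (cf f)) {s₀ : ℚ} (hnr : NRoot f s₀) (h1 : s₀ ≠ -1) :
    Labels f ∅ s₀ (lab3 f) := by
  classical
  -- a unit vector in the facet
  have hsingle : ∀ (w : Fin 3 → ℕ) (N : ℕ) (k : Fin 3),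
      (Finsupp.single k 1 : Fin 3 →₀ ℕ) ∈ face f w N →
      (Finsupp.single (lab3 f w N) 1 : Fin 3 →₀ ℕ) ∈ face f w N := by
    intro w N k hk
    have hex : ∃ k, (Finsupp.single k 1 : Fin 3 →₀ ℕ) ∈ face f w N := ⟨k, hk⟩
    have e : lab3 f w N = leastFin fun k => (Finsupp.single k 1 : Fin 3 →₀ ℕ) ∈ face f w N := by
      unfold lab3
      rw [if_pos hex]
    rw [e]
    exact leastFin_spec (P := fun k => (Finsupp.single k 1 : Fin 3 →₀ ℕ) ∈ face f w N) hex
  have hapex : ∀ w N, HF f ∅ s₀ w N → ∃ v, Apex f ∅ w N (lab3 f w N) v := by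
    intro w N h
    by_cases hex : ∃ k, (Finsupp.single k 1 : Fin 3 →₀ ℕ) ∈ face f w N
    · obtain ⟨k, hk⟩ := hex
      exact ⟨_, apex_single h.1.2.1 (hsingle w N k hk)⟩
    · have e : lab3 f w N = leastFin fun l => ∃ v, Apex f ∅ w N l v := by
        unfold lab3
        rw [if_neg hex]
      rw [e]
      exact leastFin_spec (P := fun l => ∃ v, Apex f ∅ w N l v) (exists_apex hf halg hnr h1 h)
  refine ⟨hapex, fun w N w' N' h h' hj => ?_⟩
  have hN : 0 < N := h.1.2.1
  have hN' : 0 < N' := h'.1.2.1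
  by_cases hP : ∀ l, N' * w l = N * w' l
  · have hface : face f w N = face f w' N' := face_eq_of_prop hN hN' hP
    have hpos : ∀ l, 0 < w l ↔ 0 < w' l := by
      intro l
      have e := hP l
      constructor
      · intro h0
        rcases Nat.eq_zero_or_pos (w' l) with h2 | h2
        · rw [h2, mul_zero] at e
          have := Nat.mul_pos hN' h0
          omega
        · exact h2
      · intro h0
        rcases Nat.eq_zero_or_pos (w l) with h2 | h2
        · rw [h2, mul_zero] at e
          have := Nat.mul_pos hN h0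
          omega
        · exact h2
    have hap : ∀ l v, Apex f ∅ w N l v ↔ Apex f ∅ w' N' l v := by
      intro l v
      unfold Apex
      rw [hface, hpos]
    unfold lab3
    simp only [hface, hap]
  by_cases hz : ∃ i, w i = 0 ∧ w' i = 0
  · exfalso
    obtain ⟨i, hwi, hwi'⟩ := hz
    obtain ⟨j, k, hij, hik, hjk⟩ := c3_others i
    have hth := h.not_thickC hf halg hnr
    have hs := h.sum_ne h1
    have hwj : 0 < w j := Nat.pos_of_ne_zero fun h0 => struct_two h.1 hth hs hij hwi h0
    have hwk : 0 < w k := Nat.pos_of_ne_zero fun h0 => struct_two h.1 hth hs hik hwi h0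
    exact hP (join_case_zero h1 hN hN' hij hik hjk hwi hwi' hwj hwk
      (struct_one h.1 hth hs hij hik hjk hwi hwj hwk) hj)
  have hpos : ∀ l, 0 < w l ∨ 0 < w' l := by
    intro l
    by_contra hcon
    push Not at hcon
    exact hz ⟨l, by omega, by omega⟩
  have hpos' : ∀ l, 0 < w' l ∨ 0 < w l := fun l => (hpos l).symm
  obtain ⟨v, hv⟩ := hapex w N h
  obtain ⟨v', hv'⟩ := hapex w' N' h'
  have hj' := c3_joined_symm hj
  have hmin := h.1.1
  have hmin' := h'.1.1
  obtain ⟨hvf', hz1⟩ := join_case_pos hmin hmin' hpos hj hv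
  obtain ⟨hvf2, hz2⟩ := join_case_pos hmin' hmin hpos' hj' hv'
  obtain ⟨u, hu, hu', huv, hul, htwo, hrel⟩ := join_two h1 hN hN' hmin hmin' hpos hP hj hv
  have hvf := hv.1
  have hvl := hv.2.1
  have hv'f := hv'.1
  have hv'l := hv'.2.1
  by_contra hll
  set l := lab3 f w N with hl
  set l' := lab3 f w' N' with hl'
  obtain ⟨k, hlk, hlk'⟩ := c3_third hll
  have hs := h.2.2
  rcases htwo v' hvf2 hv'f with hvv | hvu
  · -- the same apex
    subst hvv
    have hul' : u l' = 0 := hz2 u hu' hu huv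
    have hwu := (c3_mem.1 hu).2
    have huk : u k ≠ 0 := by
      intro h0
      rw [c3_wt hll hlk hlk', hul, hul', h0] at hwu
      simp only [mul_zero, add_zero] at hwu
      omega
    by_cases hne : v' k = 0 ∧ u k = 1
    · have hue : u = Finsupp.single k 1 := c3_single_eq hll hlk hlk' hul hul' hne.2
      have h3 := hsingle w N k (hue ▸ hu)
      have h4 := apex_eq_single h3 hv
      rw [h4, Finsupp.single_eq_of_ne (Ne.symm hll)] at hv'l
      exact zero_ne_one hv'l
    · apply hnr
      have hω : ∀ i, 0 < (fun i => w i + w' i) i := by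
        intro i
        have := hpos i
        simp only
        omega
      have hωmin : IsMinWt f (fun i => w i + w' i) (N + N') := by
        refine ⟨fun t ht => ?_, v', (c3_mem.1 hvf).1, ?_⟩
        · rw [c3_wt_add]
          have := hmin.1 t ht
          have := hmin'.1 t ht
          omega
        · rw [c3_wt_add, (c3_mem.1 hvf).2, (c3_mem.1 hvf').2]
      have hvω : v' ∈ face f (fun i => w i + w' i) (N + N') := by
        rw [c3_mem, c3_wt_add, (c3_mem.1 hvf).2, (c3_mem.1 hvf').2]
        exact ⟨(c3_mem.1 hvf).1, rfl⟩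
      have huω : u ∈ face f (fun i => w i + w' i) (N + N') := by
        rw [c3_mem, c3_wt_add, (c3_mem.1 hu).2, (c3_mem.1 hu').2]
        exact ⟨(c3_mem.1 hu).1, rfl⟩
      exact exc_root_three hf halg hω hωmin hvω huω hll hlk hlk' hvl hv'l hul hul' huk hne hN
        (c3_mem.1 hvf).2 (c3_mem.1 hu).2 hs
  · -- different apexes
    subst hvu
    have hvl' : v l' = 0 := hz2 v hvf' hvf (fun h0 => huv h0.symm)
    have hr := hrel l' k hll hlk hlk'
    rw [hvl', hv'l] at hr
    push_cast at hr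
    have hr2 : (v' k : ℤ) = 1 - v k := by linarith
    have hvk : v k = 0 ∨ v k = 1 := by omega
    rcases hvk with h0 | h0
    · have huk : v' k = 1 := by omega
      have hve : v = Finsupp.single l 1 :=
        c3_single_eq (Ne.symm hlk') (Ne.symm hlk) (Ne.symm hll) h0 hvl' hvl
      have h3 := hsingle w' N' l (hve ▸ hvf')
      have h4 := apex_eq_single h3 hv'
      rw [h4, Finsupp.single_eq_of_ne (Ne.symm hlk')] at huk
      exact zero_ne_one huk
    · have huk : v' k = 0 := by omega
      have hue : v' = Finsupp.single l' 1 :=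
        c3_single_eq (Ne.symm hlk) (Ne.symm hlk') hll huk hul hv'l
      have h3 := hsingle w N l' (hue ▸ hu)
      have h4 := apex_eq_single h3 hv
      rw [h4, Finsupp.single_eq_of_ne (Ne.symm hlk)] at h0
      exact zero_ne_one h0

end MPb07157
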