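import Pool.Agent.Lib.MP_b07157_ag.N3.Comb3

/-!
# The labels in three variables: the nonlocal parts
-/

noncomputable section

namespace MPb07157

open MvPolynomial Finset

/-- The label of a facet in the part `J`: the least B1-direction. -/
def labJ (f : MvPolynomial (Fin 3) ℂ) (J : Finset (Fin 3)) (w : Fin 3 → ℕ) (N : ℕ) : Fin 3 :=
  leastFin fun l => ∃ v, Apex f J w N l v

private theorem cb4_sum3 {i j k : Fin 3} (hij : i ≠ j) (hik : i ≠ k) (hjk : j ≠ k) {M : Type*}
    [AddCommMonoid M] (F : Fin 3 → M) : ∑ l, F l = F i + F j + F k := by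
  have h : (Finset.univ : Finset (Fin 3)) = {i, j, k} := by
    ext l
    simp only [Finset.mem_univ, Finset.mem_insert, Finset.mem_singleton, true_iff]
    omega
  rw [h, Finset.sum_insert (by simp [hij, hik]), Finset.sum_insert (by simp [hjk]),
    Finset.sum_singleton, add_assoc]

private theorem cb4_cases {i j k : Fin 3} (hij : i ≠ j) (hik : i ≠ k) (hjk : j ≠ k) (l : Fin 3) :
    l = i ∨ l = j ∨ l = k := by
  omega

private theorem cb4_ext {i j k : Fin 3} (hij : i ≠ j) (hik : i ≠ k) (hjk : j ≠ k)
    {u v : Fin 3 →₀ ℕ} (h1 : u i = v i) (h2 : u j = v j) (h3 : u k = v k) : u = v := by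
  refine Finsupp.ext fun l => ?_
  rcases cb4_cases hij hik hjk l with rfl | rfl | rfl
  · exact h1
  · exact h2
  · exact h3

/-- The special facet. -/
private theorem cb4_special {f : MvPolynomial (Fin 3) ℂ} (hf : f ≠ 0)
    (halg : AlgebraicIndependent ℚ (cf f)) {s₀ : ℚ} (hnr : ¬ IsBernsteinSatoRoot f s₀)
    {i j k : Fin 3} (hij : i ≠ j) (hik : i ≠ k) (hjk : j ≠ k)
    {w : Fin 3 → ℕ} {N : ℕ} (h : HF f {i} s₀ w N) (hwi : w i = 0) (hwj : 0 < w j)
    (hwk : 0 < w k) (hle : ∀ u ∈ face f w N, u j ≤ 1) (hna : ∀ v, ¬ Apex f {i} w N j v) :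
    s₀ = -2 ∧ (∀ v ∈ f.support, 1 ≤ v j + v k) ∧ (∃ v ∈ f.support, v j = 1 ∧ v k = 0) ∧
        ∃ v ∈ f.support, v j = 0 ∧ v k = 1 := by
  classical
  obtain ⟨⟨⟨hmin, hex⟩, hN, hsp⟩, hJ, hs⟩ := h
  have hwt : ∀ t : Fin 3 →₀ ℕ, wt w t = w j * t j + w k * t k := by
    intro t
    unfold wt
    rw [cb4_sum3 hij hik hjk, hwi]
    ring
  have hface : ∀ t ∈ face f w N, w j * t j + w k * t k = N := by
    intro t ht
    rw [← hwt]
    exact (Finset.mem_filter.1 ht).2
  -- some exponent has `t_j = 1`
  obtain ⟨v, hv, hvj⟩ : ∃ v ∈ face f w N, v j = 1 := by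
    by_contra hcon
    push Not at hcon
    have h0 : ∀ t ∈ face f w N, t j = 0 := by
      intro t ht
      have h1 := hle t ht
      have h2 := hcon t ht
      omega
    have h3 := hsp (Pi.single j 1) (fun m hm => by
      have hmj : m ≠ j := by rintro rfl; omega
      rw [Pi.single_eq_of_ne hmj]) (fun t ht => by
      rw [Finset.sum_eq_single j (fun m _ hm => by rw [Pi.single_eq_of_ne hm, zero_mul])
        (fun hm => absurd (Finset.mem_univ j) hm), Pi.single_eq_same, h0 t ht]
      simp)
    have h4 := congrFun h3 j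
    rw [Pi.single_eq_same] at h4
    exact one_ne_zero h4
  -- some exponent has `t_j = 0`
  obtain ⟨u, hu, huj⟩ : ∃ u ∈ face f w N, u j = 0 := by
    by_contra hcon
    push Not at hcon
    have h0 : ∀ t ∈ face f w N, t j = 1 := by
      intro t ht
      have h1 := hle t ht
      have h2 := hcon t ht
      omega
    have h5 : ∀ t ∈ face f w N, t k = v k := by
      intro t ht
      have h6 := hface t ht
      have h7 := hface v hv
      rw [h0 t ht] at h6
      rw [hvj] at h7
      have h8 : w k * t k = w k * v k := by omega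
      exact Nat.eq_of_mul_eq_mul_left hwk h8
    have h3 := hsp (fun m => if m = j then (v k : ℤ) else if m = k then -1 else 0) (fun m hm => by
      have hmj : m ≠ j := by rintro rfl; omega
      have hmk : m ≠ k := by rintro rfl; omega
      simp [hmj, hmk]) (fun t ht => by
      rw [cb4_sum3 hij hik hjk]
      simp only [if_neg hij, if_neg hik, if_true, if_neg hjk.symm]
      rw [h0 t ht, h5 t ht]
      push_cast
      ring)
    have h4 := congrFun h3 k
    simp only [if_neg hjk.symm, if_true, Pi.zero_apply] at h4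
    norm_num at h4
  -- a second exponent with `t_j = 1`
  obtain ⟨v', hv', hne, hv'j⟩ : ∃ v' ∈ face f w N, v' ≠ v ∧ v' j = 1 := by
    have h1 := hna v
    unfold Apex at h1
    push Not at h1
    obtain ⟨t, ht, htv, ht0, -⟩ := h1 hv hvj hwj
    exact ⟨t, ht, htv, by have := hle t ht; omega⟩
  have hvf := hface v hv
  have hv'f := hface v' hv'
  have huf := hface u hu
  have hkk : v' k = v k := by
    rw [hvj] at hvf
    rw [hv'j] at hv'f
    have h8 : w k * v' k = w k * v k := by omega
    exact Nat.eq_of_mul_eq_mul_left hwk h8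
  have hii : v' i ≠ v i := by
    intro h
    exact hne (cb4_ext hij hik hjk h (by rw [hv'j, hvj]) hkk)
  have huk : 1 ≤ u k := by
    rw [huj, mul_zero, zero_add] at huf
    rcases Nat.eq_zero_or_pos (u k) with h | h
    · rw [h, mul_zero] at huf
      omega
    · exact h
  have huv : u ≠ v := by rintro rfl; omega
  have huv' : u ≠ v' := by rintro rfl; omega
  -- the facet is not thick
  have hnth : ¬ Thick f w N := fun h => hnr (h.root hf halg hN hmin hs)
  have hsmall : 2 * v k + u k ≤ 1 := by
    by_contra hcon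
    push Not at hcon
    apply hnth
    have hsum : ∀ F : (Fin 3 →₀ ℕ) → ℚ, ∑ t ∈ ({v, v', u} : Finset (Fin 3 →₀ ℕ)), F t =
        F v + F v' + F u := by
      intro F
      rw [Finset.sum_insert (by simp [hne.symm, huv.symm]), Finset.sum_insert (by simp [huv'.symm]),
        Finset.sum_singleton, add_assoc]
    have hsumN : ∀ F : (Fin 3 →₀ ℕ) → ℕ, ∑ t ∈ ({v, v', u} : Finset (Fin 3 →₀ ℕ)), F t =
        F v + F v' + F u := by
      intro F
      rw [Finset.sum_insert (by simp [hne.symm, huv.symm]), Finset.sum_insert (by simp [huv'.symm]),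
        Finset.sum_singleton, add_assoc]
    refine ⟨{v, v', u}, ?_, ?_, ?_, ?_⟩
    · intro t ht
      simp only [Finset.mem_insert, Finset.mem_singleton] at ht
      rcases ht with rfl | rfl | rfl
      · exact hv
      · exact hv'
      · exact hu
    · rw [Fintype.linearIndependent_iff]
      intro g hg
      let g' : (Fin 3 →₀ ℕ) → ℚ := fun t =>
        if h : t ∈ ({v, v', u} : Finset (Fin 3 →₀ ℕ)) then g ⟨t, h⟩ else 0
      have hg' : ∀ m, g' v * (v m : ℚ) + g' v' * (v' m : ℚ) + g' u * (u m : ℚ) = 0 := by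
        intro m
        have h1 := congrFun hg m
        rw [Finset.sum_apply] at h1
        simp only [Pi.smul_apply, smul_eq_mul, Pi.zero_apply] at h1
        rw [← hsum (fun t => g' t * (t m : ℚ)), ← h1,
          ← Finset.sum_coe_sort ({v, v', u} : Finset (Fin 3 →₀ ℕ)) (fun t => g' t * (t m : ℚ))]
        refine Finset.sum_congr rfl fun t _ => ?_
        simp only [g']
        rw [dif_pos t.2]
      have e1 := hg' j
      have e2 := hg' k
      have e3 := hg' i
      rw [hvj, hv'j, huj] at e1
      rw [hkk] at e2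
      push_cast at e1
      have e4 : g' v + g' v' = 0 := by linarith
      have e5 : g' u * (u k : ℚ) = 0 := by
        have : g' u * (u k : ℚ) = -((g' v + g' v') * (v k : ℚ)) := by linarith
        rw [this, e4]; ring
      have e6 : g' u = 0 := by
        rcases mul_eq_zero.1 e5 with h | h
        · exact h
        · exfalso
          have : u k = 0 := by exact_mod_cast h
          omega
      have e7 : g' v' * ((v' i : ℚ) - (v i : ℚ)) = 0 := by
        rw [e6] at e3
        have : g' v = -g' v' := by linarith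
        rw [this] at e3
        linarith
      have e8 : g' v' = 0 := by
        rcases mul_eq_zero.1 e7 with h | h
        · exact h
        · exfalso
          apply hii
          have : (v' i : ℚ) = (v i : ℚ) := by linarith
          exact_mod_cast this
      have e9 : g' v = 0 := by linarith
      intro t
      have h2 : g t = g' t.1 := by
        simp only [g']
        rw [dif_pos t.2]
      rw [h2]
      have h3 := t.2
      simp only [Finset.mem_insert, Finset.mem_singleton] at h3
      rcases h3 with h | h | h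
      · rw [h]; exact e9
      · rw [h]; exact e8
      · rw [h]; exact e6
    · refine ⟨fun t => if t = v then 1 else if t = u then (1 - (v k : ℚ)) / (u k : ℚ) else 0, ?_⟩
      intro m hm
      rw [hsum]
      simp only [if_true, if_neg hne, if_neg huv'.symm, if_neg huv]
      rcases cb4_cases hij hik hjk m with rfl | rfl | rfl
      · omega
      · rw [hvj, hv'j, huj]
        push_cast
        ring
      · have : (u m : ℚ) ≠ 0 := by
          have : u m ≠ 0 := by omega
          exact_mod_cast this
        field_simp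
        ring
    · intro m hm
      rw [hsumN]
      rcases cb4_cases hij hik hjk m with rfl | rfl | rfl
      · omega
      · omega
      · omega
  have hvk : v k = 0 := by omega
  have huk1 : u k = 1 := by omega
  have hwkN : w k = N := by rw [huj, huk1] at huf; omega
  have hwjN : w j = N := by rw [hvj, hvk] at hvf; omega
  refine ⟨?_, ?_, ⟨v, (Finset.mem_filter.1 hv).1, hvj, hvk⟩, ⟨u, (Finset.mem_filter.1 hu).1, huj,
    huk1⟩⟩
  · rw [cb4_sum3 hij hik hjk, hwi, hwjN, hwkN] at hs
    push_cast at hs
    have hNq : (0 : ℚ) < N := by exact_mod_cast hN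
    have h1 : (N : ℚ) * (s₀ + 2) = 0 := by linarith
    rcases mul_eq_zero.1 h1 with h2 | h2
    · exact absurd h2 hNq.ne'
    · linarith
  · intro t ht
    have h1 := hmin t ht
    rw [hwt, hwjN, hwkN, ← Nat.mul_add] at h1
    by_contra hcon
    have h2 : t j + t k = 0 := by omega
    rw [h2, mul_zero] at h1
    omega

/-- The part `J = {i}`: either the labels are consistent, or there is the special facet. -/
theorem labels_single {f : MvPolynomial (Fin 3) ℂ} (hf : f ≠ 0)
    (halg : AlgebraicIndependent ℚ (cf f)) {s₀ : ℚ} (hnr : ¬ IsBernsteinSatoRoot f s₀)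
    (h1 : s₀ ≠ -1) {i j k : Fin 3} (hij : i ≠ j) (hik : i ≠ k) (hjk : j ≠ k) :
    Labels f {i} s₀ (labJ f {i}) ∨
      (s₀ = -2 ∧ (∀ v ∈ f.support, 1 ≤ v j + v k) ∧ (∃ v ∈ f.support, v j = 1 ∧ v k = 0) ∧
        ∃ v ∈ f.support, v j = 0 ∧ v k = 1) := by
  have hnr' : NRoot f s₀ := fun h => hnr h.1
  have hpos : ∀ w N, HF f {i} s₀ w N → w i = 0 ∧ 0 < w j ∧ 0 < w k := by
    intro w N h
    have hwi : w i = 0 := h.2.1 i (Finset.mem_singleton_self i)
    have hth := h.not_thickC hf halg hnr'
    have hsn := h.sum_ne h1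
    refine ⟨hwi, Nat.pos_of_ne_zero fun h0 => ?_, Nat.pos_of_ne_zero fun h0 => ?_⟩
    · exact struct_two h.1 hth hsn hij hwi h0
    · exact struct_two h.1 hth hsn hik hwi h0
  have hstr : ∀ w N, HF f {i} s₀ w N →
      (∀ u ∈ face f w N, u j ≤ 1) ∨ ∀ u ∈ face f w N, u k ≤ 1 := by
    intro w N h
    obtain ⟨hwi, hwj, hwk⟩ := hpos w N h
    exact struct_one h.1 (h.not_thickC hf halg hnr') (h.sum_ne h1) hij hik hjk hwi hwj hwk
  by_cases hall : ∀ w N, HF f {i} s₀ w N → ∃ l v, Apex f {i} w N l v
  · left
    refine ⟨fun w N h => leastFin_spec (hall w N h), fun w N w' N' h h' hj => ?_⟩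
    obtain ⟨hwi, hwj, hwk⟩ := hpos w N h
    obtain ⟨hwi', -, -⟩ := hpos w' N' h'
    have hN := h.1.2.1
    have hN' := h'.1.2.1
    have hprop := join_case_zero h1 hN hN' hij hik hjk hwi hwi' hwj hwk (hstr w N h) hj
    have hfe := face_eq_of_prop (f := f) hN hN' hprop
    have hwl : ∀ l, 0 < w l ↔ 0 < w' l := by
      intro l
      have := hprop l
      constructor
      · intro h2
        rcases Nat.eq_zero_or_pos (w' l) with h3 | h3
        · rw [h3, mul_zero] at this
          have := Nat.mul_pos hN' h2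
          omega
        · exact h3
      · intro h2
        rcases Nat.eq_zero_or_pos (w l) with h3 | h3
        · rw [h3, mul_zero] at this
          have := Nat.mul_pos hN h2
          omega
        · exact h3
    refine leastFin_congr fun l => exists_congr fun v => ?_
    unfold Apex
    rw [hfe, hwl l]
  · right
    push Not at hall
    obtain ⟨w, N, h, hna⟩ := hall
    obtain ⟨hwi, hwj, hwk⟩ := hpos w N h
    rcases hstr w N h with hle | hle
    · exact cb4_special hf halg hnr hij hik hjk h hwi hwj hwk hle (hna j)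
    · obtain ⟨e1, e2, ⟨v, hv, hv1, hv2⟩, u, hu, hu1, hu2⟩ :=
        cb4_special hf halg hnr hik hij hjk.symm h hwi hwk hwj hle (hna k)
      exact ⟨e1, fun t ht => by have := e2 t ht; omega, ⟨u, hu, hu2, hu1⟩, v, hv, hv2, hv1⟩

/-- The parts with `|J| ≥ 2`: there are no contributing facets. -/
theorem labels_large {f : MvPolynomial (Fin 3) ℂ} (hf : f ≠ 0)
    (halg : AlgebraicIndependent ℚ (cf f)) {s₀ : ℚ} (hnr : ¬ IsBernsteinSatoRoot f s₀)
    (h1 : s₀ ≠ -1) {J : Finset (Fin 3)} (hJ : 2 ≤ J.card) :
    Labels f J s₀ (fun _ _ => 0) := by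
  have hnr' : NRoot f s₀ := fun h => hnr h.1
  obtain ⟨i, hi, k, hk, hik⟩ := Finset.one_lt_card.1 (show 1 < J.card by omega)
  have hno : ∀ w N, ¬ HF f J s₀ w N := by
    intro w N h
    exact struct_two h.1 (h.not_thickC hf halg hnr') (h.sum_ne h1) hik (h.2.1 i hi) (h.2.1 k hk)
  exact ⟨fun w N h => absurd h (hno w N), fun w N _ _ h => absurd h (hno w N)⟩

end MPb07157
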