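import Pool.Agent.Lib.MP_b07157_ag.NewtRootLoc

/-!
# Functionals of degree one
-/

noncomputable section

namespace MPb07157

open MvPolynomial Finset

variable {n : ℕ} {f : MvPolynomial (Fin n) ℂ}

/-- The linear functional on polynomials that only depends on the part of degree one, with the
values `lc v` on the variables. -/
def lamL (lc : Sf f → ℚ) : MvPolynomial (Sf f) ℚ →ₗ[ℚ] ℝ where
  toFun g := ((∑ v, lc v * coeff (Finsupp.single v 1) g : ℚ) : ℝ)
  map_add' g h := by
    rw [← Rat.cast_add, ← Finset.sum_add_distrib]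
    congr 1
    refine Finset.sum_congr rfl fun v _ => ?_
    rw [coeff_add, mul_add]
  map_smul' a g := by
    rw [RingHom.id_apply, Rat.smul_def, ← Rat.cast_mul, Finset.mul_sum]
    congr 1
    refine Finset.sum_congr rfl fun v _ => ?_
    rw [coeff_smul, smul_eq_mul]
    ring

theorem lamL_apply (lc : Sf f → ℚ) (g : MvPolynomial (Sf f) ℚ) :
    lamL lc g = ((∑ v, lc v * coeff (Finsupp.single v 1) g : ℚ) : ℝ) := rfl

private theorem coeff_single_one_mul {σ : Type} [DecidableEq σ] (v : σ)
    (g P : MvPolynomial σ ℚ) : coeff (Finsupp.single v 1) (g * P) =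
      constantCoeff g * coeff (Finsupp.single v 1) P +
        coeff (Finsupp.single v 1) g * constantCoeff P := by
  rw [coeff_mul, Finsupp.antidiagonal_single, Finset.sum_map, Finset.Nat.antidiagonal_succ]
  simp [constantCoeff_eq]

theorem lamL_mul (lc : Sf f → ℚ) {P : MvPolynomial (Sf f) ℚ} (hP : constantCoeff P = 0)
    (g : MvPolynomial (Sf f) ℚ) : lamL lc (g * P) = ((constantCoeff g : ℚ) : ℝ) * lamL lc P := by
  classical
  rw [lamL_apply, lamL_apply, ← Rat.cast_mul, Finset.mul_sum]
  congr 1
  refine Finset.sum_congr rfl fun v _ => ?_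
  rw [coeff_single_one_mul, hP]
  ring

theorem lamL_X (lc : Sf f → ℚ) (v : Sf f) : lamL lc (X v) = ((lc v : ℚ) : ℝ) := by
  classical
  rw [lamL_apply]
  congr 1
  rw [Finset.sum_eq_single v]
  · rw [coeff_X, if_pos rfl, mul_one]
  · intro u _ hu
    rw [coeff_X, if_neg, mul_zero]
    intro h
    exact hu (Finsupp.single_left_injective one_ne_zero h).symm
  · intro h
    exact absurd (Finset.mem_univ v) h

theorem lamL_LF (lc c : Sf f → ℚ) :
    lamL lc (∑ v, C (c v) * X v) = ((∑ v, c v * lc v : ℚ) : ℝ) := by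
  rw [map_sum, Rat.cast_sum]
  refine Finset.sum_congr rfl fun v _ => ?_
  rw [lamL_mul lc (by simp) (C (c v)), lamL_X, constantCoeff_C, Rat.cast_mul]

/-- Multiples of a product of two polynomials without constant term are killed. -/
theorem lamL_eq_zero_of_dvd (lc : Sf f → ℚ) {P Q g : MvPolynomial (Sf f) ℚ}
    (hP : constantCoeff P = 0) (hQ : constantCoeff Q = 0) (h : P * Q ∣ g) : lamL lc g = 0 := by
  obtain ⟨k, rfl⟩ := h
  have h1 : P * Q * k = (Q * k) * P := by ring
  rw [h1, lamL_mul lc hP, map_mul, hQ, zero_mul, Rat.cast_zero, zero_mul]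

/-- Multiples of a polynomial without constant term that is killed are killed. -/
theorem lamL_eq_zero_of_dvd' (lc : Sf f → ℚ) {P g : MvPolynomial (Sf f) ℚ}
    (hP : constantCoeff P = 0) (h0 : lamL lc P = 0) (h : P ∣ g) : lamL lc g = 0 := by
  obtain ⟨k, rfl⟩ := h
  rw [mul_comm, lamL_mul lc hP, h0, mul_zero]

end MPb07157
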