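import Mathlib

/-!
# Segments in the dual polyhedron
-/

noncomputable section

namespace MPb07157

open Finset

/-- The expansion of the sum of slacks. -/
theorem exc_identity {A : Type} [Fintype A] {n : ℕ} (vec : A → Fin n → ℕ) (α : A → ℕ)
    (η : ℚ) (y : Fin n → ℚ) (δ : A → ℤ) (D : Fin n → ℤ)
    (hD : ∀ l, ∑ v, δ v * (vec v l : ℤ) = D l) :
    ∑ v, (δ v : ℚ) * (∑ l, (vec v l : ℚ) * y l - (1 - η * α v)) =
      ∑ l, (D l : ℚ) * y l - ∑ v, (δ v : ℚ) + η * ∑ v, (α v : ℚ) * δ v := by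
  have h1 : ∀ v, (δ v : ℚ) * (∑ l, (vec v l : ℚ) * y l - (1 - η * α v)) =
      (∑ l, (δ v : ℚ) * (vec v l : ℚ) * y l) - (δ v : ℚ) + η * ((α v : ℚ) * δ v) := by
    intro v
    rw [mul_sub, Finset.mul_sum]
    have : ∀ l, (δ v : ℚ) * ((vec v l : ℚ) * y l) = (δ v : ℚ) * (vec v l : ℚ) * y l := by
      intro l; ring
    simp only [this]
    ring
  simp only [h1]
  rw [Finset.sum_add_distrib, Finset.sum_sub_distrib, Finset.sum_comm, ← Finset.mul_sum]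
  congr 2
  refine Finset.sum_congr rfl fun l _ => ?_
  rw [← Finset.sum_mul, ← hD l]
  push_cast
  rfl

theorem exc_slack_nonneg {A : Type} [Fintype A] {n : ℕ} (vec : A → Fin n → ℕ) (ρ : Finset A)
    (α : A → ℕ) (hαρ : ∀ v ∈ ρ, α v = 0) {η : ℚ}
    {y : Fin n → ℚ} (hρy : ∀ r ∈ ρ, ∑ l, (vec r l : ℚ) * y l = 1)
    (hge : ∀ q, 1 - η * α q ≤ ∑ l, (vec q l : ℚ) * y l) {δ : A → ℤ}
    (hneg : ∀ q, q ∉ ρ → δ q < 0 → ∑ l, (vec q l : ℚ) * y l = 1 - η * α q) :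
    0 ≤ ∑ v, (δ v : ℚ) * (∑ l, (vec v l : ℚ) * y l - (1 - η * α v)) := by
  refine Finset.sum_nonneg fun v _ => ?_
  by_cases hv : v ∈ ρ
  · rw [hρy v hv, hαρ v hv]; simp
  · by_cases hd : δ v < 0
    · rw [hneg v hv hd]; simp
    · have h1 : (0 : ℚ) ≤ (δ v : ℚ) := by exact_mod_cast not_lt.mp hd
      exact mul_nonneg h1 (sub_nonneg.mpr (hge v))

theorem exc_alpha_le {A : Type} [Fintype A] (α : A → ℕ) {K : ℕ} {η : ℚ} (hη : 0 < η)
    {δ : A → ℤ} (hδK : ∀ v, |δ v| ≤ K) :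
    η * ∑ v, (α v : ℚ) * δ v ≤ η * (K * ∑ v, (α v : ℚ)) := by
  refine mul_le_mul_of_nonneg_left ?_ hη.le
  rw [Finset.mul_sum]
  refine Finset.sum_le_sum fun v _ => ?_
  have h1 : (δ v : ℚ) ≤ K := by
    have : δ v ≤ (K : ℤ) := (le_abs_self _).trans (hδK v)
    exact_mod_cast this
  have h2 : (0 : ℚ) ≤ (α v : ℚ) := Nat.cast_nonneg _
  nlinarith

/-- Moving a point in the direction `e_i - e_j`. -/
theorem exc_move {A : Type} {n : ℕ} (vec : A → Fin n → ℕ) (i j : Fin n) (y₀ : Fin n → ℚ) (s : ℚ)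
    (q : A) :
    ∑ l, (vec q l : ℚ) * (y₀ l + (if l = i then s else 0) - (if l = j then s else 0)) =
      ∑ l, (vec q l : ℚ) * y₀ l + s * ((vec q i : ℚ) - vec q j) := by
  have h1 : ∀ l, (vec q l : ℚ) * (y₀ l + (if l = i then s else 0) - (if l = j then s else 0)) =
      (vec q l : ℚ) * y₀ l + (if l = i then (vec q l : ℚ) * s else 0) -
        (if l = j then (vec q l : ℚ) * s else 0) := by
    intro l
    split_ifs <;> ring
  simp only [h1]
  rw [Finset.sum_sub_distrib, Finset.sum_add_distrib, Finset.sum_ite_eq' Finset.univ i,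
    Finset.sum_ite_eq' Finset.univ j]
  simp only [Finset.mem_univ, if_true]
  ring

/-- Everything at a point `y₀ + s (e_i - e_j)`, `0 ≤ s ≤ y₀ j`. -/
theorem exc_move_props {A : Type} [Fintype A] {n : ℕ} (vec : A → Fin n → ℕ) (ρ : Finset A)
    {i j : Fin n} (hij : i ≠ j) (y₀ : Fin n → ℚ) (hy₀ : ∀ l, 0 < y₀ l)
    (hρ : ∀ r ∈ ρ, ∑ l, (vec r l : ℚ) * y₀ l = 1) (hρij : ∀ r ∈ ρ, vec r i = vec r j)
    (hge : ∀ q, 1 ≤ ∑ l, (vec q l : ℚ) * y₀ l) (α : A → ℕ) {η s : ℚ} (hη : 0 < η)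
    (hs : 0 ≤ s) (hsj : s ≤ y₀ j)
    (hQ : ∀ q, q ∉ ρ → vec q i < vec q j →
      ∑ l, (vec q l : ℚ) * y₀ l - 1 < y₀ j * ((vec q j : ℚ) - vec q i) →
      s * ((vec q j : ℚ) - vec q i) ≤ ∑ l, (vec q l : ℚ) * y₀ l - 1 + η * α q) :
    (∀ l, 0 ≤ y₀ l + (if l = i then s else 0) - (if l = j then s else 0)) ∧
      (∀ r ∈ ρ, ∑ l, (vec r l : ℚ) *
        (y₀ l + (if l = i then s else 0) - (if l = j then s else 0)) = 1) ∧
      (∀ q, 1 - η * α q ≤ ∑ l, (vec q l : ℚ) *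
        (y₀ l + (if l = i then s else 0) - (if l = j then s else 0))) := by
  refine ⟨fun l => ?_, fun r hr => ?_, fun q => ?_⟩
  · by_cases h1 : l = j
    · subst h1
      rw [if_neg (fun h => hij h.symm), if_pos rfl]
      linarith
    · rw [if_neg h1]
      have := hy₀ l
      split_ifs <;> linarith
  · rw [exc_move, hρ r hr, hρij r hr]; ring
  · rw [exc_move]
    have hα0 : (0 : ℚ) ≤ η * α q := mul_nonneg hη.le (Nat.cast_nonneg _)
    by_cases hqρ : q ∈ ρ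
    · rw [hρ q hqρ, hρij q hqρ]; linarith
    · by_cases hlt : vec q i < vec q j
      · have hlt' : (0 : ℚ) < (vec q j : ℚ) - vec q i := by
          rw [sub_pos]; exact_mod_cast hlt
        by_cases hq : ∑ l, (vec q l : ℚ) * y₀ l - 1 < y₀ j * ((vec q j : ℚ) - vec q i)
        · have := hQ q hqρ hlt hq
          nlinarith
        · push Not at hq
          have : s * ((vec q j : ℚ) - vec q i) ≤ y₀ j * ((vec q j : ℚ) - vec q i) :=
            mul_le_mul_of_nonneg_right hsj hlt'.le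
          nlinarith
      · push Not at hlt
        have hlt' : (0 : ℚ) ≤ (vec q i : ℚ) - vec q j := by
          rw [sub_nonneg]; exact_mod_cast hlt
        have := mul_nonneg hs hlt'
        have := hge q
        linarith

/-- The end point of the segment of points `y` with `r·y = 1` for `r ∈ ρ` in the direction
`e_i - e_j`: either the coordinate `j` vanishes there, or another constraint is tight and all
coordinates are bounded below by a constant that does not depend on the perturbation `η`. -/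
theorem endpoint {A : Type} [Fintype A] {n : ℕ} (vec : A → Fin n → ℕ) (ρ : Finset A)
    {i j : Fin n} (hij : i ≠ j) (y₀ : Fin n → ℚ) (hy₀ : ∀ l, 0 < y₀ l)
    (hρ : ∀ r ∈ ρ, ∑ l, (vec r l : ℚ) * y₀ l = 1) (hρij : ∀ r ∈ ρ, vec r i = vec r j)
    (hge : ∀ q, 1 ≤ ∑ l, (vec q l : ℚ) * y₀ l) (α : A → ℕ) (hαρ : ∀ v ∈ ρ, α v = 0)
    (hα : ∀ v, v ∉ ρ → 1 ≤ α v) :
    ∃ η₀ θ : ℚ, 0 < η₀ ∧ 0 < θ ∧ ∀ η : ℚ, 0 < η → η ≤ η₀ →
      ∃ y : Fin n → ℚ, (∀ l, 0 ≤ y l) ∧ (∀ r ∈ ρ, ∑ l, (vec r l : ℚ) * y l = 1) ∧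
        (∀ q, 1 - η * α q ≤ ∑ l, (vec q l : ℚ) * y l) ∧
        (y j = 0 ∨ ∃ q, q ∉ ρ ∧ vec q i < vec q j ∧ (∀ l, θ ≤ y l) ∧
          ∑ l, (vec q l : ℚ) * y l = 1 - η * α q) := by
  classical
  set V : A → ℚ := fun q => ∑ l, (vec q l : ℚ) * y₀ l with hV
  set Q : Finset A := Finset.univ.filter fun q =>
    q ∉ ρ ∧ vec q i < vec q j ∧ V q - 1 < y₀ j * ((vec q j : ℚ) - vec q i) with hQdef
  have memQ : ∀ q, q ∈ Q ↔
      (q ∉ ρ ∧ vec q i < vec q j ∧ V q - 1 < y₀ j * ((vec q j : ℚ) - vec q i)) := by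
    intro q; simp [hQdef]
  by_cases hQe : Q = ∅
  · refine ⟨1, 1, one_pos, one_pos, fun η hη _ => ?_⟩
    obtain ⟨h1, h2, h3⟩ := exc_move_props vec ρ hij y₀ hy₀ hρ hρij hge α hη (hy₀ j).le le_rfl
      (fun q hq1 hq2 hq3 => by
        have : q ∈ Q := (memQ q).mpr ⟨hq1, hq2, hq3⟩
        rw [hQe] at this
        simp at this)
    refine ⟨_, h1, h2, h3, Or.inl ?_⟩
    rw [if_neg (fun h => hij h.symm), if_pos rfl]
    ring
  · have hQne : Q.Nonempty := Finset.nonempty_iff_ne_empty.mpr hQe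
    obtain ⟨q₀, hq₀Q, hq₀⟩ := Q.exists_min_image
      (fun q => y₀ j - (V q - 1) / ((vec q j : ℚ) - vec q i)) hQne
    obtain ⟨l₀, _, hl₀⟩ := (Finset.univ : Finset (Fin n)).exists_min_image y₀ ⟨i, Finset.mem_univ i⟩
    set θ₀ : ℚ := y₀ j - (V q₀ - 1) / ((vec q₀ j : ℚ) - vec q₀ i) with hθ₀
    have hdiff : ∀ q ∈ Q, (1 : ℚ) ≤ (vec q j : ℚ) - vec q i := by
      intro q hq
      have h := ((memQ q).mp hq).2.1
      have h' : vec q i + 1 ≤ vec q j := h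
      have h'' : ((vec q i : ℚ) + 1) ≤ vec q j := by exact_mod_cast h'
      linarith
    have hθpos : 0 < θ₀ := by
      have h := ((memQ q₀).mp hq₀Q).2.2
      have hd := hdiff q₀ hq₀Q
      rw [hθ₀, sub_pos, div_lt_iff₀ (by linarith)]
      exact h
    have hS0 : (0 : ℚ) ≤ ∑ v, (α v : ℚ) := Finset.sum_nonneg fun v _ => Nat.cast_nonneg _
    refine ⟨θ₀ / (2 * (1 + ∑ v, (α v : ℚ))), min (θ₀ / 2) (y₀ l₀), by positivity,
      lt_min (by positivity) (hy₀ l₀), fun η hη hηle => ?_⟩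
    obtain ⟨qA, hqA, hmin⟩ := Q.exists_min_image
      (fun q => (V q - 1 + η * α q) / ((vec q j : ℚ) - vec q i)) hQne
    set s : ℚ := (V qA - 1 + η * α qA) / ((vec qA j : ℚ) - vec qA i) with hs
    have hdA := hdiff qA hqA
    have hαA : (0 : ℚ) ≤ η * α qA := mul_nonneg hη.le (Nat.cast_nonneg _)
    have hgeA : 1 ≤ V qA := hge qA
    have hs0 : 0 ≤ s := div_nonneg (by linarith) (by linarith)
    have hηS : η * α qA ≤ θ₀ / 2 := by
      have h1 : (α qA : ℚ) ≤ ∑ v, (α v : ℚ) :=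
        Finset.single_le_sum (f := fun v => (α v : ℚ)) (fun v _ => Nat.cast_nonneg _)
          (Finset.mem_univ qA)
      rw [le_div_iff₀ (by positivity)] at hηle
      nlinarith
    have hsle : s ≤ y₀ j - θ₀ / 2 := by
      have h1 : θ₀ ≤ y₀ j - (V qA - 1) / ((vec qA j : ℚ) - vec qA i) := hq₀ qA hqA
      have h2 : s = (V qA - 1) / ((vec qA j : ℚ) - vec qA i) +
          (η * α qA) / ((vec qA j : ℚ) - vec qA i) := by rw [hs, add_div]
      have h3 : (η * α qA) / ((vec qA j : ℚ) - vec qA i) ≤ η * α qA := div_le_self hαA hdA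
      linarith
    obtain ⟨h1, h2, h3⟩ := exc_move_props vec ρ hij y₀ hy₀ hρ hρij hge α hη hs0
      (by linarith) (fun q hq1 hq2 hq3 => by
        have hq : q ∈ Q := (memQ q).mpr ⟨hq1, hq2, hq3⟩
        have hd := hdiff q hq
        have := hmin q hq
        rw [le_div_iff₀ (by linarith)] at this
        exact this)
    refine ⟨_, h1, h2, h3, Or.inr ⟨qA, ((memQ qA).mp hqA).1, ((memQ qA).mp hqA).2.1,
      fun l => ?_, ?_⟩⟩
    · by_cases hlj : l = j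
      · subst hlj
        rw [if_neg (fun h => hij h.symm), if_pos rfl]
        refine (min_le_left _ _).trans ?_
        linarith
      · rw [if_neg hlj]
        refine (min_le_right _ _).trans ?_
        have := hl₀ l (Finset.mem_univ l)
        split_ifs <;> linarith
    · rw [exc_move]
      have h4 : s * ((vec qA j : ℚ) - vec qA i) = V qA - 1 + η * α qA := by
        rw [hs, div_mul_cancel₀]
        linarith
      change V qA + s * ((vec qA i : ℚ) - vec qA j) = 1 - η * α qA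
      linarith

/-- Displacements of total degree zero. -/
theorem exc_zero {A : Type} [Fintype A] {n : ℕ} (vec : A → Fin n → ℕ) (ρ : Finset A)
    (lin : ∀ g : A → ℤ, (∀ v, v ∉ ρ → g v = 0) →
      (∀ l, ∑ v, g v * (vec v l : ℤ) = 0) → g = 0) (α : A → ℕ) (hαρ : ∀ v ∈ ρ, α v = 0)
    {K : ℕ} (hgen : ∀ δ : A → ℤ, (∀ v, |δ v| ≤ K) → ∑ v, (α v : ℤ) * δ v = 0 →
      ∀ v, v ∉ ρ → δ v = 0) {η θ : ℚ} (hη : 0 < η) (hηθ : η * (K * ∑ v, (α v : ℚ)) < θ)
    {y : Fin n → ℚ} (hy : ∀ l, θ ≤ y l) (hρy : ∀ r ∈ ρ, ∑ l, (vec r l : ℚ) * y l = 1)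
    (hge : ∀ q, 1 - η * α q ≤ ∑ l, (vec q l : ℚ) * y l) {δ : A → ℤ} (hδ0 : δ ≠ 0)
    (hδK : ∀ v, |δ v| ≤ K) (hsum : ∑ v, δ v = 0) {μ : Fin n → ℕ}
    (hμ : ∀ l, ∑ v, δ v * (vec v l : ℤ) = -(μ l : ℤ))
    (hneg : ∀ q, q ∉ ρ → δ q < 0 → ∑ l, (vec q l : ℚ) * y l = 1 - η * α q) :
    μ = 0 ∧ 0 < ∑ v, (α v : ℤ) * δ v := by
  have hid := exc_identity vec α η y δ (fun l => -(μ l : ℤ)) hμ
  have hnn := exc_slack_nonneg vec ρ α hαρ hρy hge hneg
  have hle := exc_alpha_le α hη hδK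
  have hs0 : ∑ v, (δ v : ℚ) = 0 := by exact_mod_cast hsum
  rw [hid, hs0] at hnn
  have hαnn : (0 : ℚ) ≤ ∑ v, (α v : ℚ) := Finset.sum_nonneg fun v _ => Nat.cast_nonneg _
  have hθ : 0 < θ := by
    refine lt_of_le_of_lt ?_ hηθ
    positivity
  have hneg' : ∑ l, ((-(μ l : ℤ) : ℤ) : ℚ) * y l = -∑ l, (μ l : ℚ) * y l := by
    rw [← Finset.sum_neg_distrib]
    refine Finset.sum_congr rfl fun l _ => ?_
    push_cast; ring
  rw [hneg'] at hnn
  have hμ0 : μ = 0 := by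
    by_contra hne
    obtain ⟨l, hl⟩ := Function.ne_iff.mp hne
    have hl1 : (1 : ℚ) ≤ (μ l : ℚ) := by
      exact_mod_cast Nat.one_le_iff_ne_zero.mpr hl
    have h1 : (μ l : ℚ) * y l ≤ ∑ l, (μ l : ℚ) * y l :=
      Finset.single_le_sum (f := fun l => (μ l : ℚ) * y l)
        (fun l _ => mul_nonneg (Nat.cast_nonneg _) (hθ.le.trans (hy l))) (Finset.mem_univ l)
    have h2 : θ ≤ (μ l : ℚ) * y l := by
      have := hy l
      nlinarith
    linarith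
  refine ⟨hμ0, ?_⟩
  have h3 : (0 : ℚ) ≤ η * ∑ v, (α v : ℚ) * δ v := by
    have : ∑ l, (μ l : ℚ) * y l = 0 := by
      rw [hμ0]; simp
    rw [this] at hnn
    linarith
  have h4 : (0 : ℚ) ≤ ∑ v, (α v : ℚ) * δ v := by
    by_contra h
    push Not at h
    have := mul_neg_of_pos_of_neg hη h
    linarith
  have h5 : (0 : ℤ) ≤ ∑ v, (α v : ℤ) * δ v := by exact_mod_cast h4
  refine lt_of_le_of_ne h5 fun h6 => hδ0 ?_
  refine lin δ (hgen δ hδK h6.symm) fun l => ?_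
  rw [hμ l, hμ0]; simp

/-- Displacements of total degree one. -/
theorem exc_one {A : Type} [Fintype A] {n : ℕ} (vec : A → Fin n → ℕ) (ρ : Finset A)
    (α : A → ℕ) (hαρ : ∀ v ∈ ρ, α v = 0) {K : ℕ} {η : ℚ} (hη : 0 < η)
    (hη1 : η * (K * ∑ v, (α v : ℚ)) < 1)
    {y : Fin n → ℚ} (hy : ∀ l, 0 ≤ y l) (hρy : ∀ r ∈ ρ, ∑ l, (vec r l : ℚ) * y l = 1)
    (hge : ∀ q, 1 - η * α q ≤ ∑ l, (vec q l : ℚ) * y l) {δ : A → ℤ}
    (hδK : ∀ v, |δ v| ≤ K) (hsum : ∑ v, δ v = 1) {D : Fin n → ℤ}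
    (hD : ∀ l, ∑ v, δ v * (vec v l : ℤ) = D l)
    (hneg : ∀ q, q ∉ ρ → δ q < 0 → ∑ l, (vec q l : ℚ) * y l = 1 - η * α q) :
    ∃ l, 0 < D l ∧ 0 < y l := by
  have hid := exc_identity vec α η y δ D hD
  have hnn := exc_slack_nonneg vec ρ α hαρ hρy hge hneg
  have hle := exc_alpha_le α hη hδK
  have hs1 : ∑ v, (δ v : ℚ) = 1 := by exact_mod_cast hsum
  rw [hid, hs1] at hnn
  have hpos : 0 < ∑ l, (D l : ℚ) * y l := by linarith
  obtain ⟨l, _, hl⟩ := Finset.exists_lt_of_sum_lt (f := fun _ => (0 : ℚ))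
    (s := (Finset.univ : Finset (Fin n))) (g := fun l => (D l : ℚ) * y l) (by simpa using hpos)
  have hyl := hy l
  have hyl' : 0 < y l := by
    rcases hyl.lt_or_eq with h | h
    · exact h
    · rw [← h] at hl; simp at hl
  refine ⟨l, ?_, hyl'⟩
  have : (0 : ℚ) < (D l : ℚ) := by
    by_contra h
    push Not at h
    have := mul_nonpos_of_nonpos_of_nonneg h hyl
    linarith
  exact_mod_cast this

end MPb07157
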