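import Pool.Agent.Lib.MP_b07157_ag.N3.Exc1
import Pool.Agent.Lib.MP_b07157_ag.N3.Exc2

/-!
# The root theorem for exceptional simplices
-/

noncomputable section

namespace MPb07157

open MvPolynomial Finset

variable {n : ℕ} {f : MvPolynomial (Fin n) ℂ}

/-- The functional attached to one end of the segment. -/
private theorem exc_side {ρ : Finset (Sf f)} {i j : Fin n} (hij : i ≠ j) {y : Fin n → ℚ}
    {θ η : ℚ} {α : Sf f → ℕ}
    (h : y j = 0 ∨ ∃ q : Sf f, q ∉ ρ ∧ q.1 i < q.1 j ∧ (∀ l, θ ≤ y l) ∧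
      ∑ l, ((q.1 l : ℕ) : ℚ) * y l = 1 - η * α q) :
    ∃ (k : Fin n → ℚ) (c : Sf f → ℚ), k i < k j ∧ (∀ l, 0 ≤ k l) ∧ (∀ v ∈ ρ, c v = 0) ∧
      (∀ l, k l ≠ ∑ v, c v * ((v.1 l : ℕ) : ℚ) → l = j ∧ y j = 0) ∧
      ∀ q, c q ≠ 0 → (∀ l, θ ≤ y l) ∧ ∑ l, ((q.1 l : ℕ) : ℚ) * y l = 1 - η * α q := by
  classical
  rcases h with h | ⟨q, hqρ, hq, hθ, hy⟩
  · refine ⟨fun l => if l = j then 1 else 0, fun _ => 0, ?_, fun l => ?_, fun _ _ => rfl,
      fun l hl => ?_, fun q hq => absurd rfl hq⟩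
    · simp [hij]
    · beta_reduce
      split_ifs <;> norm_num
    · by_cases hlj : l = j
      · exact ⟨hlj, h⟩
      · exfalso
        apply hl
        simp [hlj]
  · refine ⟨fun l => ((q.1 l : ℕ) : ℚ), fun v => if v = q then 1 else 0, ?_,
      fun l => by positivity, fun v hv => if_neg (fun h1 => hqρ (by rw [← h1]; exact hv)),
      fun l hl => ?_, fun q' hq' => ?_⟩
    · beta_reduce
      exact_mod_cast hq
    · exfalso
      apply hl
      simp [Finset.sum_ite_eq']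
    · have h1 : q' = q := by
        by_contra h2
        exact hq' (if_neg h2)
      subst h1
      exact ⟨hθ, hy⟩

/-- **Exceptional root theorem.** A linearly independent set `ρ` of exponents in a compact face
whose span is the hyperplane `x_i = x_j`, all but one of which (the apex `a`) lie in
`x_i = x_j = 0`. -/
theorem exc_root_form (hf : f ≠ 0) (halg : AlgebraicIndependent ℚ (cf f)) {ω : Fin n → ℕ} {Nω : ℕ}
    (hNω : 0 < Nω) (hω : ∀ l, 0 < ω l) (hωmin : ∀ v ∈ f.support, Nω ≤ wt ω v)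
    (ρ : Finset (Sf f)) (hρω : ∀ v ∈ ρ, wt ω v.1 = Nω) {i j : Fin n} (hij : i ≠ j)
    (lin : ∀ g : Sf f → ℚ, (∀ v, v ∉ ρ → g v = 0) →
      (∀ l, ∑ v, g v * ((v.1 l : ℕ) : ℚ) = 0) → g = 0)
    (span : ∀ W : Fin n → ℚ, W i = W j → ∃ τ : Sf f → ℚ, (∀ v, v ∉ ρ → τ v = 0) ∧
      ∀ l, ∑ v, τ v * ((v.1 l : ℕ) : ℚ) = W l)
    (a : Sf f) (ha : a ∈ ρ) (hai : a.1 i = 1) (haj : a.1 j = 1)
    (hρi : ∀ v ∈ ρ, v ≠ a → v.1 i = 0 ∧ v.1 j = 0)
    (γ : Sf f → ℚ) (hγ0 : ∀ v, v ∉ ρ → γ v = 0) (hγ : ∀ l, ∑ v, γ v * ((v.1 l : ℕ) : ℚ) = 1)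
    (hγint : ∀ v, v ≠ a → ∀ k : ℕ, γ v ≠ k + 1)
    (b : Polynomial ℂ) (hb : InDnForm f 1 (b.map (MvPowerSeries.C (σ := Fin n) (R := ℂ)))) :
    b.eval ((-(∑ v, γ v) : ℚ) : ℂ) = 0 := by
  classical
  obtain ⟨p, hp, hpb⟩ := hb.exists_poly
  rw [← Finset.sum_neg_distrib]
  refine rootML hf halg (fun v => -γ v) 1 (fun K => ?_) b p hp hpb
  obtain ⟨α, hαρ, hα1, hαgen⟩ := exists_generic_weights ρ K
  have hNω' : (0 : ℚ) < Nω := by exact_mod_cast hNω
  -- only the apex is nonzero at `i`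
  have hsumi : ∀ g : Sf f → ℚ, (∀ v, v ∉ ρ → g v = 0) →
      ∑ v, g v * ((v.1 i : ℕ) : ℚ) = g a := by
    intro g hg
    rw [Finset.sum_eq_single a]
    · rw [hai]; simp
    · intro v _ hva
      by_cases hv : v ∈ ρ
      · rw [(hρi v hv hva).1]; simp
      · rw [hg v hv]; simp
    · intro h; exact absurd (Finset.mem_univ _) h
  have hγa : γ a = 1 := by rw [← hsumi γ hγ0]; exact hγ i
  -- the reference point
  obtain ⟨y₀, hy₀⟩ : ∃ y₀ : Fin n → ℚ, ∀ l, y₀ l = (ω l : ℚ) / Nω := ⟨_, fun _ => rfl⟩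
  have hVy₀ : ∀ q : Sf f, ∑ l, ((q.1 l : ℕ) : ℚ) * y₀ l = (wt ω q.1 : ℚ) / Nω := by
    intro q
    unfold wt
    push_cast
    rw [Finset.sum_div]
    refine Finset.sum_congr rfl fun l _ => ?_
    rw [hy₀]; ring
  have hy₀pos : ∀ l, 0 < y₀ l := by
    intro l
    rw [hy₀]
    have : (0 : ℚ) < ω l := by exact_mod_cast hω l
    positivity
  have hy₀θ : ∀ l, 1 / (Nω : ℚ) ≤ y₀ l := by
    intro l
    rw [hy₀, div_le_div_iff_of_pos_right hNω']
    exact_mod_cast hω l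
  have hy₀ρ : ∀ r ∈ ρ, ∑ l, ((r.1 l : ℕ) : ℚ) * y₀ l = 1 := by
    intro r hr
    rw [hVy₀, hρω r hr, div_self hNω'.ne']
  have hy₀ge1 : ∀ q : Sf f, 1 ≤ ∑ l, ((q.1 l : ℕ) : ℚ) * y₀ l := by
    intro q
    rw [hVy₀, le_div_iff₀ hNω', one_mul]
    exact_mod_cast hωmin q.1 q.2
  have hρij : ∀ r ∈ ρ, r.1 i = r.1 j := by
    intro r hr
    by_cases hra : r = a
    · rw [hra, hai, haj]
    · rw [(hρi r hr hra).1, (hρi r hr hra).2]
  obtain ⟨η₁, θ₁, hη₁, hθ₁, H₁⟩ := endpoint (fun (v : Sf f) l => v.1 l) ρ hij y₀ hy₀pos hy₀ρ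
    hρij hy₀ge1 α hαρ hα1
  obtain ⟨η₂, θ₂, hη₂, hθ₂, H₂⟩ := endpoint (fun (v : Sf f) l => v.1 l) ρ hij.symm y₀ hy₀pos hy₀ρ
    (fun r hr => (hρij r hr).symm) hy₀ge1 α hαρ hα1
  -- the perturbation
  obtain ⟨M, hM⟩ : ∃ M : ℚ, M = (K : ℚ) * ∑ v, (α v : ℚ) := ⟨_, rfl⟩
  have hM0 : 0 ≤ M := by rw [hM]; positivity
  obtain ⟨θ, hθ, hθ1, hθ2, hθ3, hθ4⟩ : ∃ θ : ℚ, 0 < θ ∧ θ ≤ θ₁ ∧ θ ≤ θ₂ ∧ θ ≤ 1 / Nω ∧ θ ≤ 1 :=
    ⟨min (min θ₁ θ₂) (min (1 / Nω) 1), by
      refine lt_min (lt_min hθ₁ hθ₂) (lt_min (by positivity) one_pos),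
      (min_le_left _ _).trans (min_le_left _ _), (min_le_left _ _).trans (min_le_right _ _),
      (min_le_right _ _).trans (min_le_left _ _), (min_le_right _ _).trans (min_le_right _ _)⟩
  obtain ⟨η, hη, hηη₁, hηη₂, hηθ⟩ : ∃ η : ℚ, 0 < η ∧ η ≤ η₁ ∧ η ≤ η₂ ∧ η * M < θ := by
    refine ⟨min (min η₁ η₂) (θ / (M + 1)), lt_min (lt_min hη₁ hη₂) (by positivity),
      (min_le_left _ _).trans (min_le_left _ _), (min_le_left _ _).trans (min_le_right _ _), ?_⟩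
    have h1 : min (min η₁ η₂) (θ / (M + 1)) * M ≤ θ / (M + 1) * M :=
      mul_le_mul_of_nonneg_right (min_le_right _ _) hM0
    refine lt_of_le_of_lt h1 ?_
    rw [div_mul_eq_mul_div, div_lt_iff₀ (by linarith)]
    nlinarith
  rw [hM] at hηθ
  have hηθ1 : η * ((K : ℚ) * ∑ v, (α v : ℚ)) < 1 := lt_of_lt_of_le hηθ hθ4
  have hy₀ge : ∀ q : Sf f, 1 - η * α q ≤ ∑ l, ((q.1 l : ℕ) : ℚ) * y₀ l := by
    intro q
    have h1 := hy₀ge1 q
    have h2 : 0 ≤ η * α q := by positivity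
    linarith
  obtain ⟨yA, hA0, hAρ, hAge, hAalt⟩ := H₁ η hη hηη₁
  obtain ⟨yB, hB0, hBρ, hBge, hBalt⟩ := H₂ η hη hηη₂
  obtain ⟨kA, cA, hkA, hkA0, hcA, hFA, hqA⟩ := exc_side (f := f) hij hAalt
  obtain ⟨kB, cB, hkB, hkB0, hcB, hFB, hqB⟩ := exc_side (f := f) hij.symm hBalt
  have hsA : 0 < kA j - kA i := by linarith
  have hsB : 0 < kB i - kB j := by linarith
  obtain ⟨τ, hτ0, hτ⟩ := span (fun l => kA l / (kA j - kA i) + kB l / (kB i - kB j)) (by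
    field_simp
    ring)
  obtain ⟨lc, hlc⟩ : ∃ lc : Sf f → ℚ, ∀ v, lc v = τ v - cA v / (kA j - kA i) -
    cB v / (kB i - kB j) := ⟨_, fun _ => rfl⟩
  -- (F1)
  have F1 : ∀ v, v ∉ ρ → lc v ≠ 0 → cA v ≠ 0 ∨ cB v ≠ 0 := by
    intro v hv h1
    by_contra h2
    push Not at h2
    apply h1
    rw [hlc, hτ0 v hv, h2.1, h2.2]
    simp
  -- (F2)
  have F2 : lc a ≠ 0 := by
    have h1 : lc a = kA i / (kA j - kA i) + kB i / (kB i - kB j) := by
      rw [hlc, hcA a ha, hcB a ha, ← hsumi τ hτ0, hτ]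
      simp
    rw [h1]
    have h2 : 0 < kB i := lt_of_le_of_lt (hkB0 j) hkB
    have h3 : 0 ≤ kA i / (kA j - kA i) := div_nonneg (hkA0 i) hsA.le
    have h4 : 0 < kB i / (kB i - kB j) := div_pos h2 hsB
    linarith
  -- (F3)
  have F3 : ∀ l, ∑ v : Sf f, ((v.1 l : ℕ) : ℚ) * lc v ≠ 0 →
      (l = j ∧ yA j = 0) ∨ (l = i ∧ yB i = 0) := by
    intro l hl
    by_contra hcon
    push Not at hcon
    have h1 : kA l = ∑ v, cA v * ((v.1 l : ℕ) : ℚ) := by
      by_contra h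
      obtain ⟨h2, h3⟩ := hFA l h
      exact hcon.1 h2 h3
    have h2 : kB l = ∑ v, cB v * ((v.1 l : ℕ) : ℚ) := by
      by_contra h
      obtain ⟨h2, h3⟩ := hFB l h
      exact hcon.2 h2 h3
    apply hl
    have h3 : ∑ v : Sf f, ((v.1 l : ℕ) : ℚ) * lc v = ∑ v, τ v * ((v.1 l : ℕ) : ℚ) -
        (∑ v, cA v * ((v.1 l : ℕ) : ℚ)) / (kA j - kA i) -
        (∑ v, cB v * ((v.1 l : ℕ) : ℚ)) / (kB i - kB j) := by
      rw [Finset.sum_div, Finset.sum_div, ← Finset.sum_sub_distrib, ← Finset.sum_sub_distrib]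
      refine Finset.sum_congr rfl fun v _ => ?_
      rw [hlc]
      ring
    rw [h3, hτ, ← h1, ← h2]
    ring
  -- the integral form of linear independence
  have linZ : ∀ g : Sf f → ℤ, (∀ v, v ∉ ρ → g v = 0) →
      (∀ l, ∑ v, g v * ((v.1 l : ℕ) : ℤ) = 0) → g = 0 := by
    intro g hg hgl
    have h1 := lin (fun v => (g v : ℚ)) (fun v hv => by rw [hg v hv, Int.cast_zero]) (fun l => by
      have h2 := hgl l
      have h3 : ((∑ v, g v * ((v.1 l : ℕ) : ℤ) : ℤ) : ℚ) = 0 := by rw [h2, Int.cast_zero]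
      push_cast at h3
      exact h3)
    funext v
    have := congrFun h1 v
    simpa using this
  set E : ℕ := K + ∑ v, ⌈|γ v|⌉₊ with hE
  have hEγ : ∀ v, ∀ g : ℤ, γ v = g → g ≤ E := by
    intro v g hg
    have h1 : (g : ℚ) ≤ ⌈|γ v|⌉₊ := by
      rw [← hg]
      exact (le_abs_self _).trans (Nat.le_ceil _)
    have h2 : g ≤ (⌈|γ v|⌉₊ : ℤ) := by exact_mod_cast h1
    have h3 : ⌈|γ v|⌉₊ ≤ ∑ v, ⌈|γ v|⌉₊ :=
      Finset.single_le_sum (f := fun v => ⌈|γ v|⌉₊) (fun _ _ => Nat.zero_le _) (Finset.mem_univ v)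
    omega
  -- constant coefficients
  have cX : ∀ v : Sf f, constantCoeff (X v : MvPolynomial (Sf f) ℚ) = 0 := fun v =>
    constantCoeff_X _ v
  have cL : ∀ l : Fin n, constantCoeff (∑ v : Sf f, (C ((v.1 l : ℕ) : ℚ) * X v :
      MvPolynomial (Sf f) ℚ)) = 0 := by
    intro l
    rw [map_sum]
    refine Finset.sum_eq_zero fun v _ => ?_
    rw [map_mul, constantCoeff_X, mul_zero]
  -- divisibility by the variables
  have hX1 : ∀ (δ : Sf f → ℤ) (q : Sf f), q ∈ negSet γ δ →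
      (X q : MvPolynomial (Sf f) ℚ) ∣ PM (fun v => -γ v) E δ := fun δ q hq =>
    (Finset.dvd_prod_of_mem (fun v => (X v : MvPolynomial (Sf f) ℚ)) hq).trans
      (negSet_dvd_PM hEγ δ)
  have hX2 : ∀ (δ : Sf f → ℤ) (q q' : Sf f), q ∈ negSet γ δ → q' ∈ negSet γ δ → q ≠ q' →
      (X q * X q' : MvPolynomial (Sf f) ℚ) ∣ PM (fun v => -γ v) E δ := by
    intro δ q q' hq hq' hne
    refine dvd_trans ?_ (negSet_dvd_PM hEγ δ)
    rw [← Finset.prod_pair hne (f := fun v => (X v : MvPolynomial (Sf f) ℚ))]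
    refine Finset.prod_dvd_prod_of_subset _ _ _ ?_
    intro x hx
    rcases Finset.mem_insert.1 hx with rfl | hx
    · exact hq
    · rw [Finset.mem_singleton.1 hx]
      exact hq'
  have hγω : ∀ l, 0 < ω l → ∑ v, γ v * ((v.1 l : ℕ) : ℚ) = 1 := fun l _ => hγ l
  have hL1 : ∀ (β m : Fin n →₀ ℕ) (l : Fin n), m l < β l →
      (∑ v : Sf f, (C ((v.1 l : ℕ) : ℚ) * X v : MvPolynomial (Sf f) ℚ)) ∣
        RM (fun v => -γ v) β m := by
    intro β m l hl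
    have h1 := LF_dvd_RM hγω β m {(⟨l, hω l⟩ : {j // 0 < ω j})} (by
      intro x hx
      rw [Finset.mem_singleton.1 hx]
      exact hl)
    rwa [Finset.prod_singleton] at h1
  have hL2 : ∀ (β m : Fin n →₀ ℕ) (l l' : Fin n), m l < β l → m l' < β l' → l ≠ l' →
      (∑ v : Sf f, (C ((v.1 l : ℕ) : ℚ) * X v : MvPolynomial (Sf f) ℚ)) *
        (∑ v : Sf f, (C ((v.1 l' : ℕ) : ℚ) * X v : MvPolynomial (Sf f) ℚ)) ∣
        RM (fun v => -γ v) β m := by
    intro β m l l' hl hl' hne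
    have hne' : (⟨l, hω l⟩ : {j // 0 < ω j}) ≠ ⟨l', hω l'⟩ := fun h => hne (congrArg Subtype.val h)
    have h1 := LF_dvd_RM hγω β m {(⟨l, hω l⟩ : {j // 0 < ω j}), ⟨l', hω l'⟩} (by
      intro x hx
      rcases Finset.mem_insert.1 hx with rfl | hx
      · exact hl
      · rw [Finset.mem_singleton.1 hx]
        exact hl')
    rwa [Finset.prod_pair hne'] at h1
  -- negative displacements outside `ρ`
  have hnegS : ∀ (δ : Sf f → ℤ) (q : Sf f), q ∉ ρ → δ q < 0 → q ∈ negSet γ δ := by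
    intro δ q hq hδ
    rw [mem_negSet]
    exact ⟨0, by rw [hγ0 q hq]; simp, hδ⟩
  refine ⟨E, α, lamL lc, by omega, ?_, ?_, ?_, ?_⟩
  · intro g
    refine lamL_eq_zero_of_dvd lc (P := ∑ v, X v) (Q := ∑ v, X v) ?_ ?_ ?_
    · rw [map_sum]; exact Finset.sum_eq_zero fun v _ => cX v
    · rw [map_sum]; exact Finset.sum_eq_zero fun v _ => cX v
    · rw [← pow_two]; exact dvd_mul_right _ _
  · obtain ⟨h, hh, hh0⟩ := PM_zero_eq hEγ {a} (by
      intro v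
      rw [Finset.mem_singleton]
      constructor
      · rintro rfl
        exact ⟨0, by rw [hγa]; simp⟩
      · rintro ⟨k, hk⟩
        by_contra hva
        exact hγint v hva k hk)
    rw [hh, Finset.prod_singleton, lamL_mul lc (cX a), lamL_X]
    refine mul_ne_zero ?_ ?_
    · exact_mod_cast hh0
    · exact_mod_cast F2
  · -- total degree zero
    intro δ hδ0 hδK hδs μ hδj
    by_cases h2 : ∃ q ∈ negSet γ δ, ∃ q' ∈ negSet γ δ, q ≠ q'
    · right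
      obtain ⟨q, hq, q', hq', hne⟩ := h2
      intro g
      exact lamL_eq_zero_of_dvd lc (cX q) (cX q') ((hX2 δ q q' hq hq' hne).trans (dvd_mul_left _ _))
    push Not at h2
    have hfin : ∀ (y : Fin n → ℚ) (θ' : ℚ), θ ≤ θ' → (∀ l, θ' ≤ y l) →
        (∀ r ∈ ρ, ∑ l, ((r.1 l : ℕ) : ℚ) * y l = 1) →
        (∀ q : Sf f, 1 - η * α q ≤ ∑ l, ((q.1 l : ℕ) : ℚ) * y l) →
        (∀ q : Sf f, q ∉ ρ → δ q < 0 → ∑ l, ((q.1 l : ℕ) : ℚ) * y l = 1 - η * α q) →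
        μ = 0 ∧ 0 < ∑ v, (α v : ℤ) * δ v := by
      intro y θ' hθ' hy hρy hge hneg
      obtain ⟨e1, e2⟩ := exc_zero (fun (v : Sf f) l => v.1 l) ρ linZ α hαρ hαgen hη
        (lt_of_lt_of_le hηθ hθ') hy hρy hge hδ0 hδK hδs (μ := fun l => μ l) hδj hneg
      refine ⟨?_, e2⟩
      ext l
      exact congrFun e1 l
    by_cases hq : ∃ q ∈ negSet γ δ, q ∉ ρ
    · obtain ⟨q, hq, hqρ⟩ := hq
      by_cases hlq : lc q = 0
      · right
        intro g
        refine lamL_eq_zero_of_dvd' lc (cX q) ?_ ((hX1 δ q hq).trans (dvd_mul_left _ _))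
        rw [lamL_X, hlq]
        simp
      · left
        rcases F1 q hqρ hlq with h3 | h3
        · obtain ⟨h4, h5⟩ := hqA q h3
          refine hfin yA θ₁ hθ1 h4 hAρ hAge fun q' hq'ρ hq' => ?_
          rw [← h2 q hq q' (hnegS δ q' hq'ρ hq')]
          exact h5
        · obtain ⟨h4, h5⟩ := hqB q h3
          refine hfin yB θ₂ hθ2 h4 hBρ hBge fun q' hq'ρ hq' => ?_
          rw [← h2 q hq q' (hnegS δ q' hq'ρ hq')]
          exact h5
    · push Not at hq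
      left
      exact hfin y₀ (1 / Nω) hθ3 hy₀θ hy₀ρ hy₀ge fun q' hq'ρ hq' =>
        absurd (hq q' (hnegS δ q' hq'ρ hq')) hq'ρ
  · -- total degree one
    intro δ hδK hδs β m hx g
    have hfin : ∀ (y : Fin n → ℚ), (∀ l, 0 ≤ y l) →
        (∀ r ∈ ρ, ∑ l, ((r.1 l : ℕ) : ℚ) * y l = 1) →
        (∀ q : Sf f, 1 - η * α q ≤ ∑ l, ((q.1 l : ℕ) : ℚ) * y l) →
        (∀ q : Sf f, q ∉ ρ → δ q < 0 → ∑ l, ((q.1 l : ℕ) : ℚ) * y l = 1 - η * α q) →
        ∃ l, m l < β l ∧ 0 < y l := by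
      intro y hy hρy hge hneg
      obtain ⟨l, e1, e2⟩ := exc_one (fun (v : Sf f) l => v.1 l) ρ α hαρ hη hηθ1 hy hρy hge hδK
        hδs (D := fun l => (β l : ℤ) - m l) hx hneg
      exact ⟨l, by omega, e2⟩
    by_cases h2 : ∃ q ∈ negSet γ δ, ∃ q' ∈ negSet γ δ, q ≠ q'
    · obtain ⟨q, hq, q', hq', hne⟩ := h2
      exact lamL_eq_zero_of_dvd lc (cX q) (cX q')
        (((hX2 δ q q' hq hq' hne).trans (dvd_mul_left _ _)).trans (dvd_mul_left _ _))
    push Not at h2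
    by_cases hne : ∃ q, q ∈ negSet γ δ
    · obtain ⟨q, hq⟩ := hne
      by_cases hl : ∃ l, m l < β l
      · obtain ⟨l, hl⟩ := hl
        exact lamL_eq_zero_of_dvd lc (cL l) (cX q)
          ((mul_dvd_mul (hL1 β m l hl) (hX1 δ q hq)).trans (dvd_mul_left _ _))
      · push Not at hl
        by_cases hqρ : q ∈ ρ
        · exfalso
          obtain ⟨l, h3, -⟩ := hfin y₀ (fun l => (hy₀pos l).le) hy₀ρ hy₀ge fun q' hq'ρ hq' => by
            exfalso
            apply hq'ρ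
            rw [← h2 q hq q' (hnegS δ q' hq'ρ hq')]
            exact hqρ
          exact absurd h3 (not_lt.2 (hl l))
        · by_cases hlq : lc q = 0
          · refine lamL_eq_zero_of_dvd' lc (cX q) ?_
              (((hX1 δ q hq).trans (dvd_mul_left _ _)).trans (dvd_mul_left _ _))
            rw [lamL_X, hlq]
            simp
          · exfalso
            rcases F1 q hqρ hlq with h3 | h3
            · obtain ⟨-, h5⟩ := hqA q h3
              obtain ⟨l, h3, -⟩ := hfin yA hA0 hAρ hAge fun q' hq'ρ hq' => by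
                rw [← h2 q hq q' (hnegS δ q' hq'ρ hq')]
                exact h5
              exact absurd h3 (not_lt.2 (hl l))
            · obtain ⟨-, h5⟩ := hqB q h3
              obtain ⟨l, h3, -⟩ := hfin yB hB0 hBρ hBge fun q' hq'ρ hq' => by
                rw [← h2 q hq q' (hnegS δ q' hq'ρ hq')]
                exact h5
              exact absurd h3 (not_lt.2 (hl l))
    · push Not at hne
      have hvac : ∀ (y : Fin n → ℚ) (q : Sf f), q ∉ ρ → δ q < 0 →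
          ∑ l, ((q.1 l : ℕ) : ℚ) * y l = 1 - η * α q := fun y q hq1 hq2 =>
        absurd (hnegS δ q hq1 hq2) (hne q)
      obtain ⟨l₀, hl₀, -⟩ := hfin y₀ (fun l => (hy₀pos l).le) hy₀ρ hy₀ge (hvac y₀)
      by_cases hl : ∃ l, l ≠ l₀ ∧ m l < β l
      · obtain ⟨l, hll₀, hl⟩ := hl
        exact lamL_eq_zero_of_dvd lc (cL l) (cL l₀)
          (((hL2 β m l l₀ hl hl₀ hll₀).trans (dvd_mul_right _ _)).trans (dvd_mul_left _ _))
      · push Not at hl
        by_cases hs : ∑ v : Sf f, ((v.1 l₀ : ℕ) : ℚ) * lc v = 0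
        · refine lamL_eq_zero_of_dvd' lc (cL l₀) ?_
            (((hL1 β m l₀ hl₀).trans (dvd_mul_right _ _)).trans (dvd_mul_left _ _))
          rw [lamL_LF lc (fun v => ((v.1 l₀ : ℕ) : ℚ)), hs]
          simp
        · exfalso
          rcases F3 l₀ hs with ⟨h3, h4⟩ | ⟨h3, h4⟩
          · obtain ⟨l, h5, h6⟩ := hfin yA hA0 hAρ hAge (hvac yA)
            have h7 : l = l₀ := by
              by_contra h8
              exact absurd h5 (not_lt.2 (hl l h8))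
            rw [h7, h3, h4] at h6
            exact lt_irrefl _ h6
          · obtain ⟨l, h5, h6⟩ := hfin yB hB0 hBρ hBge (hvac yB)
            have h7 : l = l₀ := by
              by_contra h8
              exact absurd h5 (not_lt.2 (hl l h8))
            rw [h7, h3, h4] at h6
            exact lt_irrefl _ h6

end MPb07157
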