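import Pool.Agent.Lib.MP_b07157_ag.N3.Sp1
import Pool.Agent.Lib.MP_b07157_ag.N3.Reg1

/-!
# The special facet: the part of the zeta function
-/

noncomputable section

namespace MPb07157

open MvPolynomial Finset

private theorem fin3_cases {i j k : Fin 3} (hij : i ≠ j) (hik : i ≠ k) (hjk : j ≠ k) (l : Fin 3) :
    l = i ∨ l = j ∨ l = k := by
  revert i j k l; decide

private theorem fin3_sum {M : Type*} [AddCommMonoid M] {i j k : Fin 3} (hij : i ≠ j) (hik : i ≠ k)
    (hjk : j ≠ k) (g : Fin 3 → M) : ∑ l, g l = g i + (g j + g k) := by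
  have h : (Finset.univ : Finset (Fin 3)) = {i, j, k} := by
    ext l
    have := fin3_cases hij hik hjk l
    simp only [Finset.mem_univ, Finset.mem_insert, Finset.mem_singleton, true_iff]
    exact this
  rw [h, Finset.sum_insert (by simp [hij, hik]), Finset.sum_insert (by simp [hjk]),
    Finset.sum_singleton]

/-- The order vector with coordinates `x` at `j`, `y` at `k` and `0` elsewhere. -/
private def ovec (j k : Fin 3) (x y : ℕ) : Fin 3 → ℕ := fun l => if l = j then x else if l = k then y else 0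

section

variable {f : MvPolynomial (Fin 3) ℂ} {i j k : Fin 3}

private theorem ovec_j (x y : ℕ) : ovec j k x y j = x := by simp [ovec]

private theorem ovec_k (hjk : j ≠ k) (x y : ℕ) : ovec j k x y k = y := by simp [ovec, hjk.symm]

private theorem ovec_i (hij : i ≠ j) (hik : i ≠ k) (x y : ℕ) : ovec j k x y i = 0 := by
  simp [ovec, hij, hik]

private theorem ovec_swap (hjk : j ≠ k) (x y : ℕ) : ovec k j y x = ovec j k x y := by
  funext l
  unfold ovec
  by_cases h1 : l = j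
  · subst h1
    simp [hjk]
  · by_cases h2 : l = k
    · subst h2
      simp [h1]
    · simp [h1, h2]

private theorem sum_boxJ_single {M : Type*} [AddCommMonoid M] (hij : i ≠ j) (hik : i ≠ k) (hjk : j ≠ k)
    (N : ℕ) (F : (Fin 3 → ℕ) → M) :
    ∑ a ∈ boxJ {i} N, F a = ∑ x ∈ Finset.Icc 1 N, ∑ y ∈ Finset.Icc 1 N, F (ovec j k x y) := by
  rw [← Finset.sum_product']
  refine Finset.sum_bij' (fun a _ => (a j, a k)) (fun p _ => ovec j k p.1 p.2) ?_ ?_ ?_ ?_ ?_
  · intro a ha
    rw [mem_boxJ] at ha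
    simp only [Finset.mem_product, Finset.mem_Icc]
    exact ⟨ha.2 j (by simp [hij.symm]), ha.2 k (by simp [hik.symm])⟩
  · intro p hp
    simp only [Finset.mem_product, Finset.mem_Icc] at hp
    rw [mem_boxJ]
    refine ⟨fun l hl => ?_, fun l hl => ?_⟩
    · rw [Finset.mem_singleton] at hl
      rw [hl, ovec_i hij hik]
    · rw [Finset.mem_singleton] at hl
      rcases fin3_cases hij hik hjk l with h | h | h
      · exact absurd h hl
      · rw [h, ovec_j]; exact hp.1
      · rw [h, ovec_k hjk]; exact hp.2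
  · intro a ha
    rw [mem_boxJ] at ha
    funext l
    rcases fin3_cases hij hik hjk l with h | h | h
    · rw [h, ovec_i hij hik, ha.1 i (by simp)]
    · rw [h, ovec_j]
    · rw [h, ovec_k hjk]
  · intro p _
    rw [ovec_j, ovec_k hjk]
  · intro a ha
    rw [mem_boxJ] at ha
    congr 1
    funext l
    rcases fin3_cases hij hik hjk l with h | h | h
    · rw [h, ovec_i hij hik, ha.1 i (by simp)]
    · rw [h, ovec_j]
    · rw [h, ovec_k hjk]

private theorem wt_ovec (hij : i ≠ j) (hik : i ≠ k) (hjk : j ≠ k) (x y : ℕ) (v : Fin 3 →₀ ℕ) :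
    wt (ovec j k x y) v = x * v j + y * v k := by
  unfold wt
  rw [fin3_sum hij hik hjk, ovec_i hij hik, ovec_j, ovec_k hjk, zero_mul, zero_add]

private theorem sum_ovec (hij : i ≠ j) (hik : i ≠ k) (hjk : j ≠ k) (x y : ℕ) :
    ∑ l, ovec j k x y l = x + y := by
  rw [fin3_sum hij hik hjk, ovec_i hij hik, ovec_j, ovec_k hjk, zero_add]

private theorem ne_zero_of_mem_support {v : Fin 3 →₀ ℕ} (hv : v ∈ f.support) : f ≠ 0 := by
  rintro rfl
  simp at hv

private theorem nuf_ovec (hij : i ≠ j) (hik : i ≠ k) (hjk : j ≠ k)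
    (hge : ∀ v ∈ f.support, 1 ≤ v j + v k) (h10 : ∃ v ∈ f.support, v j = 1 ∧ v k = 0)
    (h01 : ∃ v ∈ f.support, v j = 0 ∧ v k = 1) (x y : ℕ) :
    nuf f (ovec j k x y) = min x y := by
  obtain ⟨v, hv, h1, h2⟩ := h10
  obtain ⟨w, hw, h3, h4⟩ := h01
  refine (isMinWt_nuf (ne_zero_of_mem_support hv) _).eq ⟨fun u hu => ?_, ?_⟩
  · rw [wt_ovec hij hik hjk]
    have h5 := hge u hu
    rcases Nat.eq_zero_or_pos (u j) with h6 | h6
    · have h7 : 1 ≤ u k := by omega
      calc min x y ≤ y := min_le_right _ _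
        _ ≤ y * u k := Nat.le_mul_of_pos_right _ h7
        _ ≤ _ := Nat.le_add_left _ _
    · calc min x y ≤ x := min_le_left _ _
        _ ≤ x * u j := Nat.le_mul_of_pos_right _ h6
        _ ≤ _ := Nat.le_add_right _ _
  · rcases le_total x y with h | h
    · exact ⟨v, hv, by rw [wt_ovec hij hik hjk, h1, h2, min_eq_left h]; ring⟩
    · exact ⟨w, hw, by rw [wt_ovec hij hik hjk, h3, h4, min_eq_right h]; ring⟩

private theorem face_ovec_lt (hij : i ≠ j) (hik : i ≠ k) (hjk : j ≠ k)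
    (hge : ∀ v ∈ f.support, 1 ≤ v j + v k) {x y : ℕ} (hx : 1 ≤ x) (hxy : x < y) :
    face f (ovec j k x y) x = V1s f j k := by
  unfold face V1s
  refine Finset.filter_congr fun v hv => ?_
  rw [wt_ovec hij hik hjk]
  constructor
  · intro h
    have h5 := hge v hv
    have hk : v k = 0 := by
      by_contra hk
      have h6 : y ≤ y * v k := Nat.le_mul_of_pos_right _ (Nat.pos_of_ne_zero hk)
      omega
    rw [hk, mul_zero, add_zero] at h
    refine ⟨?_, hk⟩
    have : x * v j = x * 1 := by rw [h, mul_one]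
    exact Nat.eq_of_mul_eq_mul_left hx this
  · rintro ⟨h1, h2⟩
    rw [h1, h2]; ring

private theorem face_ovec_eq (hij : i ≠ j) (hik : i ≠ k) (hjk : j ≠ k) {x : ℕ} (hx : 1 ≤ x) :
    face f (ovec j k x x) x = V1s f j k ∪ V1s f k j := by
  unfold face V1s
  rw [← Finset.filter_or]
  refine Finset.filter_congr fun v hv => ?_
  rw [wt_ovec hij hik hjk, ← mul_add]
  constructor
  · intro h
    have : x * (v j + v k) = x * 1 := by rw [h, mul_one]
    have h2 := Nat.eq_of_mul_eq_mul_left hx this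
    omega
  · intro h
    have h2 : v j + v k = 1 := by omega
    rw [h2, mul_one]

private theorem SS_ovec_lt (hij : i ≠ j) (hik : i ≠ k) (hjk : j ≠ k) {N x y : ℕ} (hN : 0 < N) (hx : x < N)
    (hy : y < N) : SS N (ovec j k x y) = ∅ := by
  unfold SS
  rw [Finset.filter_eq_empty_iff]
  intro l _
  rcases fin3_cases hij hik hjk l with h | h | h
  · rw [h, ovec_i hij hik]; omega
  · rw [h, ovec_j]; omega
  · rw [h, ovec_k hjk]; omega

private theorem SS_ovec_N (hij : i ≠ j) (hik : i ≠ k) (hjk : j ≠ k) {N x : ℕ} (hN : 0 < N) (hx : x < N) :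
    SS N (ovec j k x N) = {k} := by
  unfold SS
  ext l
  rw [Finset.mem_filter, Finset.mem_singleton]
  constructor
  · rintro ⟨-, h1⟩
    rcases fin3_cases hij hik hjk l with h | h | h
    · rw [h, ovec_i hij hik] at h1; omega
    · rw [h, ovec_j] at h1; omega
    · exact h
  · rintro rfl
    exact ⟨Finset.mem_univ _, ovec_k hjk _ _⟩

end

/-- The inverse of `L`. -/
private def qL : Mot := ↑(LU ^ (-1 : ℤ))

private theorem LU_pow_neg (e : ℕ) : ((LU ^ (-(e : ℤ)) : Motˣ) : Mot) = qL ^ e := by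
  unfold qL
  rw [← Units.val_pow_eq_pow_val, ← zpow_natCast, ← zpow_mul]
  congr 2
  ring

private theorem LU_mul_qL : (LU : Mot) * qL = 1 := by
  unfold qL
  rw [← Units.val_mul]
  simp

/-- The coefficient `c0` or `c1`, depending on whether `t = m`. -/
private def cE (f : MvPolynomial (Fin 3) ℂ) (t m : ℕ) (I : Finset (Fin 3 →₀ ℕ)) (S : Finset (Fin 3)) :
    Mot := if t = m then c0 f I S else c1 f I S

private theorem cE_drop {f : MvPolynomial (Fin 3) ℂ} {j k : Fin 3} (t m : ℕ) :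
    cE f t m (V1s f j k) ∅ = (1 - qL) * cE f t m (V1s f j k) {k} := by
  have h1 : ∀ u ∈ V1s f j k, u k = 0 := fun u hu => (Finset.mem_filter.1 hu).2.2
  have h2 : (insert k (∅ : Finset (Fin 3))) = {k} := rfl
  unfold cE
  split_ifs
  · rw [c0_drop (Finset.notMem_empty k) h1]
    rfl
  · rw [c1_drop (Finset.notMem_empty k) h1]
    rfl

private theorem Wc_eq {f : MvPolynomial (Fin 3) ℂ} {N m t s : ℕ} {a : Fin 3 → ℕ} (ht : nuf f a = t)
    (htm : t ≤ m) (hs : ∑ l, a l = t + s) :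
    Wc f N m a = cE f t m (face f a t) (SS N a) * qL ^ (m + s) := by
  unfold Wc cE
  rw [ht]
  by_cases h : t = m
  · rw [if_pos h, if_pos h, hs, LU_pow_neg, h]
  · rw [if_neg h, if_pos (lt_of_le_of_ne htm h), if_neg h, hs]
    rw [show (-(((t + s : ℕ) : ℤ) + ((m - t : ℕ) : ℤ))) = -((m + s : ℕ) : ℤ) by push_cast; omega]
    rw [LU_pow_neg]

private theorem geom_qL (t N : ℕ) (h : t < N) :
    (1 - qL) * ∑ y ∈ Finset.Ico (t + 1) N, qL ^ y = qL ^ (t + 1) - qL ^ N := by
  obtain ⟨d, rfl⟩ := Nat.exists_eq_add_of_lt h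
  induction d with
  | zero => simp
  | succ d ih =>
    rw [show t + (d + 1) + 1 = (t + d + 1) + 1 by ring, Finset.sum_Ico_succ_top (by omega), mul_add,
      ih (by omega)]
    ring

/-- One arm. -/
private theorem arm_sum {f : MvPolynomial (Fin 3) ℂ} {i j k : Fin 3} (hij : i ≠ j) (hik : i ≠ k)
    (hjk : j ≠ k) (hge : ∀ v ∈ f.support, 1 ≤ v j + v k)
    (h10 : ∃ v ∈ f.support, v j = 1 ∧ v k = 0)
    (h01 : ∃ v ∈ f.support, v j = 0 ∧ v k = 1) {N m t : ℕ} (ht : 1 ≤ t) (htm : t ≤ m)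
    (hmN : m < N) :
    ∑ y ∈ Finset.Ioc t N, Wc f N m (ovec j k t y) =
      cE f t m (V1s f j k) {k} * qL ^ (m + (t + 1)) := by
  have h1 : Finset.Ioc t N = Finset.Ico (t + 1) (N + 1) := by
    ext y; simp only [Finset.mem_Ioc, Finset.mem_Ico]; omega
  have h2 : ∀ y, t < y → Wc f N m (ovec j k t y) =
      cE f t m (V1s f j k) (SS N (ovec j k t y)) * qL ^ (m + y) := by
    intro y hy
    rw [Wc_eq (t := t) (s := y) (by rw [nuf_ovec hij hik hjk hge h10 h01, min_eq_left hy.le]) htm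
      (sum_ovec hij hik hjk t y), face_ovec_lt hij hik hjk hge ht hy]
  rw [h1, Finset.sum_Ico_succ_top (by omega), h2 N (by omega), SS_ovec_N hij hik hjk (by omega)
    (by omega)]
  have h3 : ∑ y ∈ Finset.Ico (t + 1) N, Wc f N m (ovec j k t y) =
      cE f t m (V1s f j k) {k} * qL ^ m * ((1 - qL) * ∑ y ∈ Finset.Ico (t + 1) N, qL ^ y) := by
    rw [Finset.mul_sum, Finset.mul_sum]
    refine Finset.sum_congr rfl fun y hy => ?_
    rw [Finset.mem_Ico] at hy
    rw [h2 y (by omega), SS_ovec_lt hij hik hjk (by omega) (by omega) (by omega), cE_drop,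
      pow_add]
    ring
  rw [h3, geom_qL t N (by omega), pow_add, pow_add]
  ring

private theorem sum_square {M : Type*} [AddCommMonoid M] (N : ℕ) (F : ℕ → ℕ → M) :
    ∑ x ∈ Finset.Icc 1 N, ∑ y ∈ Finset.Icc 1 N, F x y =
      ∑ t ∈ Finset.Icc 1 N, (F t t + (∑ y ∈ Finset.Ioc t N, F t y + ∑ x ∈ Finset.Ioc t N, F x t)) := by
  have h1 : ∀ x ∈ Finset.Icc 1 N, ∑ y ∈ Finset.Icc 1 N, F x y =
      ∑ y ∈ Finset.Ico 1 x, F x y + (F x x + ∑ y ∈ Finset.Ioc x N, F x y) := by
    intro x hx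
    rw [Finset.mem_Icc] at hx
    have e1 : Finset.Icc 1 N = Finset.Ico 1 (N + 1) := by
      ext y; simp only [Finset.mem_Icc, Finset.mem_Ico]; omega
    have e2 : Finset.Ioc x N = Finset.Ico (x + 1) (N + 1) := by
      ext y; simp only [Finset.mem_Ioc, Finset.mem_Ico]; omega
    rw [e1, e2, ← Finset.sum_Ico_consecutive _ hx.1 (show x ≤ N + 1 by omega),
      Finset.sum_eq_sum_Ico_succ_bot (show x < N + 1 by omega)]
  rw [Finset.sum_congr rfl h1, Finset.sum_add_distrib, Finset.sum_add_distrib,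
    Finset.sum_add_distrib, Finset.sum_add_distrib]
  have h2 : ∑ x ∈ Finset.Icc 1 N, ∑ y ∈ Finset.Ico 1 x, F x y =
      ∑ t ∈ Finset.Icc 1 N, ∑ x ∈ Finset.Ioc t N, F x t := by
    refine Finset.sum_comm' ?_
    intro x y
    simp only [Finset.mem_Icc, Finset.mem_Ico, Finset.mem_Ioc]
    omega
  rw [h2]
  abel

private theorem nondeg_union {f : MvPolynomial (Fin 3) ℂ} {i j k : Fin 3} (hij : i ≠ j) (hik : i ≠ k)
    (hjk : j ≠ k) (hnd : ∀ a : Fin 3 → ℕ, NondegAt f (face f a (nuf f a)))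
    (hge : ∀ v ∈ f.support, 1 ≤ v j + v k) (h10 : ∃ v ∈ f.support, v j = 1 ∧ v k = 0)
    (h01 : ∃ v ∈ f.support, v j = 0 ∧ v k = 1) : NondegAt f (V1s f j k ∪ V1s f k j) := by
  have h := hnd (ovec j k 1 1)
  rwa [nuf_ovec hij hik hjk hge h10 h01, min_self, face_ovec_eq hij hik hjk le_rfl] at h

private theorem nondeg_one {f : MvPolynomial (Fin 3) ℂ} {i j k : Fin 3} (hij : i ≠ j) (hik : i ≠ k)
    (hjk : j ≠ k) (hnd : ∀ a : Fin 3 → ℕ, NondegAt f (face f a (nuf f a)))
    (hge : ∀ v ∈ f.support, 1 ≤ v j + v k) (h10 : ∃ v ∈ f.support, v j = 1 ∧ v k = 0)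
    (h01 : ∃ v ∈ f.support, v j = 0 ∧ v k = 1) : NondegAt f (V1s f j k) := by
  have h := hnd (ovec j k 1 2)
  rwa [nuf_ovec hij hik hjk hge h10 h01, show min 1 2 = 1 from rfl,
    face_ovec_lt hij hik hjk hge le_rfl (by norm_num)] at h

private theorem mul_qL_sub : ((LU : Mot) - 1) * qL = 1 - qL := by
  rw [sub_mul, LU_mul_qL, one_mul]

/-- The coefficients of the part `{i}` of the zeta function in the special case. -/
theorem special_coeff {f : MvPolynomial (Fin 3) ℂ} {i j k : Fin 3} (hij : i ≠ j) (hik : i ≠ k)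
    (hjk : j ≠ k) (hnd : ∀ a : Fin 3 → ℕ, NondegAt f (face f a (nuf f a)))
    (hge : ∀ v ∈ f.support, 1 ≤ v j + v k) (h10 : ∃ v ∈ f.support, v j = 1 ∧ v k = 0)
    (h01 : ∃ v ∈ f.support, v j = 0 ∧ v k = 1) {K : ℕ} (hK : 1 ≤ K) (m : ℕ) :
    PowerSeries.coeff m (ZJm f K {i}) =
      if m = 0 then 0 else ((LU : Mot) - 1) ^ 2 * ↑(LU ^ (-((m : ℤ) + 3))) := by
  have hge' : ∀ v ∈ f.support, 1 ≤ v k + v j := fun v hv => by rw [add_comm]; exact hge v hv
  have h10' : ∃ v ∈ f.support, v k = 1 ∧ v j = 0 := by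
    obtain ⟨v, hv, h1, h2⟩ := h01; exact ⟨v, hv, h2, h1⟩
  have h01' : ∃ v ∈ f.support, v k = 0 ∧ v j = 1 := by
    obtain ⟨v, hv, h1, h2⟩ := h10; exact ⟨v, hv, h2, h1⟩
  unfold ZJm
  rw [PowerSeries.coeff_mk]
  set N := K * (m + 1) with hN
  have hmN : m < N := by rw [hN]; nlinarith
  rw [sum_boxJ_single hij hik hjk, sum_square]
  -- the terms with `t > m` vanish
  have hzero : ∀ x y, m < min x y → Wc f N m (ovec j k x y) = 0 := by
    intro x y h
    unfold Wc
    rw [nuf_ovec hij hik hjk hge h10 h01, if_neg (by omega), if_neg (by omega)]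
  have hcut : ∀ t ∈ Finset.Icc 1 N, t ∉ Finset.Icc 1 m → (Wc f N m (ovec j k t t) +
      (∑ y ∈ Finset.Ioc t N, Wc f N m (ovec j k t y) +
        ∑ x ∈ Finset.Ioc t N, Wc f N m (ovec j k x t))) = 0 := by
    intro t ht ht'
    rw [Finset.mem_Icc] at ht ht'
    have htm : m < t := by omega
    rw [hzero t t (by rw [min_self]; exact htm), Finset.sum_eq_zero, Finset.sum_eq_zero]
    · simp
    · intro x hx
      rw [Finset.mem_Ioc] at hx
      exact hzero x t (by rw [min_eq_right hx.1.le]; exact htm)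
    · intro y hy
      rw [Finset.mem_Ioc] at hy
      exact hzero t y (by rw [min_eq_left hy.1.le]; exact htm)
  rw [← Finset.sum_subset (Finset.Icc_subset_Icc_right hmN.le) hcut]
  have hterm : ∀ t ∈ Finset.Icc 1 m, (Wc f N m (ovec j k t t) +
      (∑ y ∈ Finset.Ioc t N, Wc f N m (ovec j k t y) +
        ∑ x ∈ Finset.Ioc t N, Wc f N m (ovec j k x t))) =
      qL ^ (m + t) * (cE f t m (V1s f j k ∪ V1s f k j) ∅ +
        qL * (cE f t m (V1s f j k) {k} + cE f t m (V1s f k j) {j})) := by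
    intro t ht
    rw [Finset.mem_Icc] at ht
    have e1 : Wc f N m (ovec j k t t) = cE f t m (V1s f j k ∪ V1s f k j) ∅ * qL ^ (m + t) := by
      rw [Wc_eq (t := t) (s := t) (by rw [nuf_ovec hij hik hjk hge h10 h01, min_self]) ht.2
        (sum_ovec hij hik hjk t t), face_ovec_eq hij hik hjk ht.1,
        SS_ovec_lt hij hik hjk (by omega) (by omega) (by omega)]
    have e2 := arm_sum hij hik hjk hge h10 h01 (N := N) ht.1 ht.2 hmN
    have e3 := arm_sum hik hij hjk.symm hge' h10' h01' (N := N) ht.1 ht.2 hmN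
    have e4 : ∑ x ∈ Finset.Ioc t N, Wc f N m (ovec j k x t) =
        ∑ x ∈ Finset.Ioc t N, Wc f N m (ovec k j t x) := by
      refine Finset.sum_congr rfl fun x _ => ?_
      rw [ovec_swap hjk]
    rw [e4, e1, e2, e3, show m + (t + 1) = (m + t) + 1 by ring, pow_succ]
    ring
  rw [Finset.sum_congr rfl hterm]
  -- the brackets
  have hn := nondeg_union hij hik hjk hnd hge h10 h01
  have hn1 := nondeg_one hij hik hjk hnd hge h10 h01
  have hn2 := nondeg_one hik hij hjk.symm hnd hge' h10' h01'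
  have b0 := special_c0 hij hik hjk hn hn1 hn2
  have b1 := special_c1 hij hik hjk hn hn1 hn2
  have p2 := LU_pow_neg 2
  have p3 := LU_pow_neg 3
  have pm := LU_pow_neg (m + 3)
  rw [show (-((2 : ℕ) : ℤ)) = -2 by norm_num] at p2
  rw [show (-((3 : ℕ) : ℤ)) = -3 by norm_num] at p3
  rw [show (-((m + 3 : ℕ) : ℤ)) = -((m : ℤ) + 3) by push_cast; ring] at pm
  rw [p2] at b0
  rw [p3] at b1
  rw [pm]
  change _ + qL * _ = _ at b0
  change _ + qL * _ = _ at b1
  rcases Nat.eq_zero_or_pos m with rfl | hm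
  · simp
  · rw [if_neg hm.ne']
    obtain ⟨m', rfl⟩ : ∃ m', m = m' + 1 := ⟨m - 1, by omega⟩
    have hI : Finset.Icc 1 (m' + 1) = Finset.Ico 1 (m' + 1 + 1) := by
      ext y; simp only [Finset.mem_Icc, Finset.mem_Ico]; omega
    rw [hI, Finset.sum_Ico_succ_top (by omega)]
    have hlast : cE f (m' + 1) (m' + 1) (V1s f j k ∪ V1s f k j) ∅ +
        qL * (cE f (m' + 1) (m' + 1) (V1s f j k) {k} + cE f (m' + 1) (m' + 1) (V1s f k j) {j}) =
        ((LU : Mot) - 1) ^ 2 * qL ^ 2 := by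
      simp only [cE, if_true]
      exact b0
    have hrest : ∀ t ∈ Finset.Ico 1 (m' + 1), qL ^ (m' + 1 + t) *
        (cE f t (m' + 1) (V1s f j k ∪ V1s f k j) ∅ +
        qL * (cE f t (m' + 1) (V1s f j k) {k} + cE f t (m' + 1) (V1s f k j) {j})) =
        ((LU : Mot) - 1) ^ 2 * qL ^ 2 * qL ^ (m' + 1) * ((1 - qL) * qL ^ t) := by
      intro t ht
      rw [Finset.mem_Ico] at ht
      have hne : t ≠ m' + 1 := by omega
      simp only [cE, if_neg hne]
      rw [b1, ← mul_qL_sub]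
      ring
    rw [hlast, Finset.sum_congr rfl hrest, ← Finset.mul_sum, ← Finset.mul_sum]
    have hg : (1 - qL) * ∑ t ∈ Finset.Ico 1 (m' + 1), qL ^ t = qL ^ 1 - qL ^ (m' + 1) :=
      geom_qL 0 (m' + 1) (by omega)
    rw [hg]
    ring

/-- The special facet does not contribute a pole at `-2`. -/
theorem special_mem_regularAt {f : MvPolynomial (Fin 3) ℂ} {i j k : Fin 3} (hij : i ≠ j)
    (hik : i ≠ k) (hjk : j ≠ k) (hnd : ∀ a : Fin 3 → ℕ, NondegAt f (face f a (nuf f a)))
    (hge : ∀ v ∈ f.support, 1 ≤ v j + v k) (h10 : ∃ v ∈ f.support, v j = 1 ∧ v k = 0)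
    (h01 : ∃ v ∈ f.support, v j = 0 ∧ v k = 1) {K : ℕ} (hK : 1 ≤ K) :
    ZJm f K {i} ∈ regularAt (-2) := by
  let W : Set (Motˣ × ℕ) := {(LU ^ (-1 : ℤ), 1)}
  have hreg : RegP W (ZJm f K {i}) := by
    refine RegP.div (w := (LU ^ (-1 : ℤ), 1)) rfl Nat.one_pos ?_
    have h : (((fac ((LU ^ (-1 : ℤ), 1) : Motˣ × ℕ) : Polynomial Mot) : PowerSeries Mot) *
        ZJm f K {i}) = PowerSeries.C (((LU : Mot) - 1) ^ 2 * qL ^ 4) * PowerSeries.X ^ 1 := by
      rw [coe_fac]
      ext m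
      have hc := special_coeff hij hik hjk hnd hge h10 h01 hK
      have pm : ∀ m : ℕ, ((LU ^ (-((m : ℤ) + 3)) : Motˣ) : Mot) = qL ^ (m + 3) := by
        intro m
        rw [← LU_pow_neg]
        congr 2
      rw [pow_one, sub_mul, one_mul, map_sub, mul_assoc, PowerSeries.coeff_C_mul,
        PowerSeries.coeff_C_mul]
      rcases m with _ | m
      · rw [PowerSeries.coeff_zero_X_mul, hc, if_pos rfl, PowerSeries.coeff_zero_X]
        ring
      · rw [PowerSeries.coeff_succ_X_mul, hc, hc, if_neg (Nat.succ_ne_zero m), pm, pm,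
          PowerSeries.coeff_X]
        rcases m with _ | m
        · rw [if_pos rfl, if_pos rfl]
          ring
        · rw [if_neg (Nat.succ_ne_zero m), if_neg (by omega)]
          change _ - qL * _ = _
          ring
    rw [h]
    exact regP_monomial W _ 1
  refine RegP.mem_regularAt (W := W) ?_ hreg
  rintro w hw -
  rw [Set.mem_singleton_iff] at hw
  subst hw
  refine ⟨1, rfl, ?_⟩
  norm_num

end MPb07157
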