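import Pool.Agent.Lib.MP_b07157_ag.N3.Asm3
import Pool.Agent.Lib.MP_b07157_ag.N3.Comb4
import Pool.Agent.Lib.MP_b07157_ag.N3.Sp2

/-!
# The strong monodromy conjecture for very general polynomials in three variables
-/

noncomputable section

namespace MPb07157

open MvPolynomial Finset

/-- **The strong monodromy conjecture, global and local, for all polynomials in three variables
with algebraically independent coefficients.** -/
theorem smc_three {f : MvPolynomial (Fin 3) ℂ} (hf : f ≠ 0)
    (h0 : (0 : Fin 3 →₀ ℕ) ∉ f.support) (halg : AlgebraicIndependent ℚ (cf f)) (s₀ : ℚ) :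
    (IsPole (Zmot f) s₀ → IsBernsteinSatoRoot f s₀) ∧
      (IsPole (Zmot0 f) s₀ → IsLocalBernsteinSatoRoot f s₀) := by
  by_cases h1 : s₀ = -1
  · subst h1
    have := roots_of_form (f := f) (s₀ := -1) fun b hb => neg_one_root hf h0 b hb
    exact ⟨fun _ => this.1, fun _ => this.2⟩
  have hnd : ∀ a : Fin 3 → ℕ, NondegAt f (face f a (nuf f a)) := by
    intro a
    refine nondegAt_of_algInd f halg _ (Finset.filter_subset _ _) ?_
    obtain ⟨-, v, hv, hvN⟩ := isMinWt_nuf hf a
    exact ⟨v, Finset.mem_filter.2 ⟨hv, hvN⟩⟩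
  obtain ⟨K, hK⟩ := exists_nat_gt (max (-s₀) 1)
  have hK1 : 1 ≤ K := by
    have : (1 : ℚ) < K := lt_of_le_of_lt (le_max_right _ _) hK
    exact_mod_cast this.le
  have hKs : -s₀ < K := lt_of_le_of_lt (le_max_left _ _) hK
  have hloc : NRoot f s₀ → ZJm f K ∅ ∈ regularAt s₀ := fun hnr =>
    ZJm_mem_regularAt hf h1 hK1 hKs (labels_empty hf halg hnr h1)
  constructor
  · intro hp
    by_contra hnr
    apply hp
    rw [Zmot_eq, ZE_zero_eq hf hK1 hnd]
    refine Subalgebra.sum_mem _ fun J _ => ?_
    rcases Nat.lt_or_ge J.card 2 with hJ | hJ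
    · rcases Nat.lt_or_ge J.card 1 with hJ' | hJ'
      · have : J = ∅ := Finset.card_eq_zero.1 (by omega)
        subst this
        exact hloc fun h => hnr h.1
      · obtain ⟨i, rfl⟩ := Finset.card_eq_one.1 (show J.card = 1 by omega)
        obtain ⟨j, k, hij, hik, hjk⟩ : ∃ j k : Fin 3, i ≠ j ∧ i ≠ k ∧ j ≠ k := by
          fin_cases i
          · exact ⟨1, 2, by decide, by decide, by decide⟩
          · exact ⟨0, 2, by decide, by decide, by decide⟩
          · exact ⟨0, 1, by decide, by decide, by decide⟩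
        rcases labels_single hf halg hnr h1 hij hik hjk with hl | ⟨hs, h2, h3, h4⟩
        · exact ZJm_mem_regularAt hf h1 hK1 hKs hl
        · subst hs
          exact special_mem_regularAt hij hik hjk hnd h2 h3 h4 hK1
    · exact ZJm_mem_regularAt hf h1 hK1 hKs (labels_large hf halg hnr h1 hJ)
  · intro hp
    by_contra hnr
    apply hp
    rw [Zmot0_eq, ZE_one_eq hf hK1 hnd]
    exact hloc fun h => hnr h.2

end MPb07157
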