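import Pool.Agent.Lib.MP_b07157_ag.N3.RegDefs

/-!
# The ring of Laurent polynomials over `𝓜`
-/

noncomputable section

namespace MPb07157

open Finset

variable {n : ℕ}

/-- Laurent polynomials in `x_1, …, x_n` over `𝓜`. -/
abbrev RX (n : ℕ) : Type := AddMonoidAlgebra Mot (Fin n → ℤ)

/-- The monomial `L^{-e} x^γ`, a unit. -/
def uX (γ : Fin n → ℤ) (e : ℤ) : (RX n)ˣ where
  val := AddMonoidAlgebra.single γ ((LU ^ (-e) : Motˣ) : Mot)
  inv := AddMonoidAlgebra.single (-γ) ((LU ^ e : Motˣ) : Mot)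
  val_inv := by
    rw [AddMonoidAlgebra.single_mul_single, add_neg_cancel, ← Units.val_mul, ← zpow_add,
      neg_add_cancel, zpow_zero, Units.val_one, AddMonoidAlgebra.one_def]
  inv_val := by
    rw [AddMonoidAlgebra.single_mul_single, neg_add_cancel, ← Units.val_mul, ← zpow_add,
      add_neg_cancel, zpow_zero, Units.val_one, AddMonoidAlgebra.one_def]

theorem uX_val (γ : Fin n → ℤ) (e : ℤ) :
    ((uX γ e : (RX n)ˣ) : RX n) = AddMonoidAlgebra.single γ ((LU ^ (-e) : Motˣ) : Mot) := rfl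

theorem uX_add (γ γ' : Fin n → ℤ) (e e' : ℤ) :
    (uX (γ + γ') (e + e') : (RX n)ˣ) = uX γ e * uX γ' e' := by
  ext1
  rw [Units.val_mul, uX_val, uX_val, uX_val, AddMonoidAlgebra.single_mul_single, ← Units.val_mul,
    ← zpow_add]
  congr 3
  ring

theorem uX_zero : (uX 0 0 : (RX n)ˣ) = 1 := by
  ext1
  rw [uX_val, neg_zero, zpow_zero, Units.val_one, Units.val_one, AddMonoidAlgebra.one_def]

/-- The weight `z ↦ L^{-ν(z)} x^{θ(z)}`. -/
def omX (θ : GG n →+ (Fin n → ℤ)) (nu : GG n →+ ℤ) : Multiplicative (GG n) →* (RX n)ˣ where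
  toFun z := uX (θ z.toAdd) (nu z.toAdd)
  map_one' := by
    rw [toAdd_one, map_zero, map_zero, uX_zero]
  map_mul' x y := by
    rw [toAdd_mul, map_add, map_add, uX_add]

theorem omX_apply (θ : GG n →+ (Fin n → ℤ)) (nu : GG n →+ ℤ) (z : GG n) :
    omX θ nu (Multiplicative.ofAdd z) = uX (θ z) (nu z) := rfl

theorem rayP_omX (θ : GG n →+ (Fin n → ℤ)) (nu mu : GG n →+ ℤ) (z : GG n) :
    rayP (omX θ nu) mu z = (uX (θ z) (nu z), (mu z).toNat) := rfl

/-- The map induced by an endomorphism of the exponents. -/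
def phiX (θ : (Fin n → ℤ) →+ (Fin n → ℤ)) : RX n →+* RX n :=
  AddMonoidAlgebra.mapDomainRingHom Mot θ

theorem phiX_single (θ : (Fin n → ℤ) →+ (Fin n → ℤ)) (γ : Fin n → ℤ) (r : Mot) :
    phiX θ (AddMonoidAlgebra.single γ r) = AddMonoidAlgebra.single (θ γ) r := by
  unfold phiX
  exact AddMonoidAlgebra.mapDomain_single

/-- The augmentation `x_i ↦ 1`. -/
def augX (n : ℕ) : RX n →+* Mot :=
  AddMonoidAlgebra.liftNCRingHom (RingHom.id Mot) (1 : Multiplicative (Fin n → ℤ) →* Mot)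
    (fun _ _ => Commute.one_right _)

theorem augX_single (γ : Fin n → ℤ) (r : Mot) :
    augX n (AddMonoidAlgebra.single γ r) = r := by
  unfold augX
  rw [AddMonoidAlgebra.liftNCRingHom_single]
  simp

theorem map_phiX_uX (θ : (Fin n → ℤ) →+ (Fin n → ℤ)) (γ : Fin n → ℤ) (e : ℤ) :
    Units.map (phiX θ : RX n →* RX n) (uX γ e) = uX (θ γ) e := by
  ext1
  rw [Units.coe_map, uX_val, uX_val]
  exact phiX_single θ γ _

theorem map_augX_uX (γ : Fin n → ℤ) (e : ℤ) :
    Units.map (augX n : RX n →* Mot) (uX γ e) = LU ^ (-e) := by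
  ext1
  rw [Units.coe_map, uX_val]
  exact augX_single γ _

end MPb07157
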