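import Pool.Agent.Lib.MP_b07157_ag.N3.MonoDefs

/-!
# Pieces of the zeta function
-/

noncomputable section

namespace MPb07157

open MvPolynomial Finset

variable {n : ℕ} {κ : Type}

open Classical in
/-- The linear forms of a piece: those of `II f`, and the additional forms `kap k` (with the
opposite sign for `k ∈ B`). -/
def lamX (f : MvPolynomial (Fin n) ℂ) (K : ℕ) (v₀ : Fin n →₀ ℕ) (kap : κ → GG n →+ ℤ)
    (B : Finset κ) : II f ⊕ κ → GG n →+ ℤ
  | .inl i => lamF f K v₀ i
  | .inr k => if k ∈ B then -kap k else kap k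

open Classical in
/-- The lower bounds of a piece. -/
def cX (f : MvPolynomial (Fin n) ℂ) (K : ℕ) (J : Finset (Fin n)) (I : Finset (Fin n →₀ ℕ))
    (S : Finset (Fin n)) (ty : ℕ) (B : Finset κ) : II f ⊕ κ → ℤ
  | .inl (.inl (.inl j)) => if j ∈ J then 0 else 1
  | .inl (.inl (.inr v)) => if v.1 ∈ I then 0 else 1
  | .inl (.inr (.inl j)) => if j ∈ S then -K else -K + 1
  | .inl (.inr (.inr _)) => ty
  | .inr k => if k ∈ B then 0 else 1

open Classical in
/-- The equality constraints of a piece. -/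
def EX (f : MvPolynomial (Fin n) ℂ) (κ : Type) [Fintype κ] (J : Finset (Fin n))
    (I : Finset (Fin n →₀ ℕ)) (S : Finset (Fin n)) (ty : ℕ) : Finset (II f ⊕ κ) :=
  Finset.univ.filter fun k => match k with
    | .inl (.inl (.inl j)) => j ∈ J
    | .inl (.inl (.inr v)) => v.1 ∈ I
    | .inl (.inr (.inl j)) => j ∈ S
    | .inl (.inr (.inr _)) => ty = 0
    | .inr _ => False

section

variable [Fintype κ] {f : MvPolynomial (Fin n) ℂ} {J S : Finset (Fin n)}
  {I : Finset (Fin n →₀ ℕ)} {ty K : ℕ} {v₀ : Fin n →₀ ℕ} {kap : κ → GG n →+ ℤ} {B : Finset κ}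
  {z : GG n}

theorem mem_EX1 {j : Fin n} :
    (Sum.inl (Sum.inl (Sum.inl j)) : II f ⊕ κ) ∈ EX f κ J I S ty ↔ j ∈ J := by
  simp [EX]

theorem mem_EX2 {v : {v // v ∈ f.support}} :
    (Sum.inl (Sum.inl (Sum.inr v)) : II f ⊕ κ) ∈ EX f κ J I S ty ↔ v.1 ∈ I := by
  simp [EX]

theorem mem_EX3 {j : Fin n} :
    (Sum.inl (Sum.inr (Sum.inl j)) : II f ⊕ κ) ∈ EX f κ J I S ty ↔ j ∈ S := by
  simp [EX]

theorem mem_EX4 {u : Unit} :
    (Sum.inl (Sum.inr (Sum.inr u)) : II f ⊕ κ) ∈ EX f κ J I S ty ↔ ty = 0 := by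
  simp [EX]

theorem mem_EX5 {k : κ} : (Sum.inr k : II f ⊕ κ) ∈ EX f κ J I S ty ↔ False := by
  simp [EX]

theorem lamX_inr_neg {k : κ} (hk : k ∈ B) : lamX f K v₀ kap B (.inr k) = -kap k := by
  simp [lamX, hk]

theorem lamX_inr_pos {k : κ} (hk : k ∉ B) : lamX f K v₀ kap B (.inr k) = kap k := by
  simp [lamX, hk]

theorem mem_PX_iff : z ∈ PSet (lamX f K v₀ kap B) (cX f K J I S ty B) (EX f κ J I S ty) ↔
      ((∀ j ∈ J, z.1 j = 0) ∧ (∀ j ∉ J, 1 ≤ z.1 j)) ∧
      (∀ v ∈ f.support, (v ∈ I → dotH v z = dotH v₀ z) ∧ (v ∉ I → dotH v₀ z + 1 ≤ dotH v z)) ∧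
      (∀ j, (j ∈ S → z.1 j = K * z.2 + K) ∧ (j ∉ S → z.1 j ≤ K * z.2 + K - 1)) ∧
      (dotH v₀ z + ty ≤ z.2 ∧ (ty = 0 → z.2 = dotH v₀ z)) ∧
      ((∀ k ∈ B, kap k z ≤ 0) ∧ ∀ k ∉ B, 1 ≤ kap k z) := by
  classical
  unfold PSet
  rw [Set.mem_ofPred_eq]
  constructor
  · rintro ⟨h1, h2⟩
    refine ⟨⟨fun j hj => ?_, fun j hj => ?_⟩, fun v hv => ⟨fun hI => ?_, fun hI => ?_⟩,
      fun j => ⟨fun hj => ?_, fun hj => ?_⟩, ⟨?_, fun ht => ?_⟩, fun k hk => ?_, fun k hk => ?_⟩
    · have := h2 _ (mem_EX1.2 hj)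
      simpa [lamX, lamF, cX, coordH_apply, hj] using this
    · have := h1 (.inl (.inl (.inl j)))
      simpa [lamX, lamF, cX, coordH_apply, hj] using this
    · have := h2 (.inl (.inl (.inr ⟨v, hv⟩))) (mem_EX2.2 hI)
      simp only [lamX, lamF, cX, AddMonoidHom.sub_apply, if_pos hI] at this
      omega
    · have := h1 (.inl (.inl (.inr ⟨v, hv⟩)))
      simp only [lamX, lamF, cX, AddMonoidHom.sub_apply, if_neg hI] at this
      omega
    · have := h2 (.inl (.inr (.inl j))) (mem_EX3.2 hj)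
      simp only [lamX, lamF, cX, AddMonoidHom.sub_apply, AddMonoidHom.smul_apply, muH_apply,
        coordH_apply, smul_eq_mul, if_pos hj] at this
      omega
    · have := h1 (.inl (.inr (.inl j)))
      simp only [lamX, lamF, cX, AddMonoidHom.sub_apply, AddMonoidHom.smul_apply, muH_apply,
        coordH_apply, smul_eq_mul, if_neg hj] at this
      omega
    · have := h1 (.inl (.inr (.inr ())))
      simp only [lamX, lamF, cX, AddMonoidHom.sub_apply, muH_apply] at this
      omega
    · have := h2 (.inl (.inr (.inr ()))) (mem_EX4.2 ht)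
      simp only [lamX, lamF, cX, AddMonoidHom.sub_apply, muH_apply] at this
      omega
    · have := h1 (.inr k)
      rw [lamX_inr_neg hk] at this
      simp only [cX, if_pos hk, AddMonoidHom.neg_apply] at this
      omega
    · have := h1 (.inr k)
      rw [lamX_inr_pos hk] at this
      simpa only [cX, if_neg hk] using this
  · rintro ⟨⟨h1, h2⟩, h3, h4, ⟨h5, h6⟩, h7, h8⟩
    constructor
    · rintro (((j | v) | (j | _)) | k)
      · by_cases hj : j ∈ J
        · simp [lamX, lamF, cX, coordH_apply, hj, h1 j hj]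
        · simpa [lamX, lamF, cX, coordH_apply, hj] using h2 j hj
      · by_cases hI : v.1 ∈ I
        · have := (h3 v.1 v.2).1 hI
          simp only [lamX, lamF, cX, AddMonoidHom.sub_apply, if_pos hI]
          omega
        · have := (h3 v.1 v.2).2 hI
          simp only [lamX, lamF, cX, AddMonoidHom.sub_apply, if_neg hI]
          omega
      · by_cases hj : j ∈ S
        · have := (h4 j).1 hj
          simp only [lamX, lamF, cX, AddMonoidHom.sub_apply, AddMonoidHom.smul_apply, muH_apply,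
            coordH_apply, smul_eq_mul, if_pos hj]
          omega
        · have := (h4 j).2 hj
          simp only [lamX, lamF, cX, AddMonoidHom.sub_apply, AddMonoidHom.smul_apply, muH_apply,
            coordH_apply, smul_eq_mul, if_neg hj]
          omega
      · simp only [lamX, lamF, cX, AddMonoidHom.sub_apply, muH_apply]
        omega
      · by_cases hk : k ∈ B
        · rw [lamX_inr_neg hk]
          simp only [cX, if_pos hk, AddMonoidHom.neg_apply]
          have := h7 k hk
          omega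
        · rw [lamX_inr_pos hk]
          simp only [cX, if_neg hk]
          exact h8 k hk
    · rintro (((j | v) | (j | _)) | k) hk
      · rw [mem_EX1] at hk
        simp [lamX, lamF, cX, coordH_apply, hk, h1 j hk]
      · rw [mem_EX2] at hk
        have := (h3 v.1 v.2).1 hk
        simp only [lamX, lamF, cX, AddMonoidHom.sub_apply, if_pos hk]
        omega
      · rw [mem_EX3] at hk
        have := (h4 j).1 hk
        simp only [lamX, lamF, cX, AddMonoidHom.sub_apply, AddMonoidHom.smul_apply, muH_apply,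
            coordH_apply, smul_eq_mul, if_pos hk]
        omega
      · rw [mem_EX4] at hk
        have := h6 hk
        simp only [lamX, lamF, cX, AddMonoidHom.sub_apply, muH_apply]
        omega
      · exact absurd hk (by rw [mem_EX5]; exact not_false)

theorem mem_coneX_iff : z ∈ PSet (lamX f K v₀ kap B) 0 (EX f κ J I S ty) ↔
      ((∀ j ∈ J, z.1 j = 0) ∧ (∀ j, 0 ≤ z.1 j)) ∧
      (∀ v ∈ f.support, (v ∈ I → dotH v z = dotH v₀ z) ∧ dotH v₀ z ≤ dotH v z) ∧
      (∀ j, (j ∈ S → z.1 j = K * z.2) ∧ z.1 j ≤ K * z.2) ∧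
      (dotH v₀ z ≤ z.2 ∧ (ty = 0 → z.2 = dotH v₀ z)) ∧
      ((∀ k ∈ B, kap k z ≤ 0) ∧ ∀ k ∉ B, 0 ≤ kap k z) := by
  classical
  unfold PSet
  rw [Set.mem_ofPred_eq]
  constructor
  · rintro ⟨h1, h2⟩
    refine ⟨⟨fun j hj => ?_, fun j => ?_⟩, fun v hv => ⟨fun hI => ?_, ?_⟩,
      fun j => ⟨fun hj => ?_, ?_⟩, ⟨?_, fun ht => ?_⟩, fun k hk => ?_, fun k hk => ?_⟩
    · have := h2 _ (mem_EX1.2 hj)
      simpa [lamX, lamF, coordH_apply] using this
    · have := h1 (.inl (.inl (.inl j)))
      simpa [lamX, lamF, coordH_apply] using this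
    · have := h2 (.inl (.inl (.inr ⟨v, hv⟩))) (mem_EX2.2 hI)
      simp only [lamX, lamF, AddMonoidHom.sub_apply, Pi.zero_apply] at this
      omega
    · have := h1 (.inl (.inl (.inr ⟨v, hv⟩)))
      simp only [lamX, lamF, AddMonoidHom.sub_apply, Pi.zero_apply] at this
      omega
    · have := h2 (.inl (.inr (.inl j))) (mem_EX3.2 hj)
      simp only [lamX, lamF, AddMonoidHom.sub_apply, AddMonoidHom.smul_apply, muH_apply,
        coordH_apply, smul_eq_mul, Pi.zero_apply] at this
      omega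
    · have := h1 (.inl (.inr (.inl j)))
      simp only [lamX, lamF, AddMonoidHom.sub_apply, AddMonoidHom.smul_apply, muH_apply,
        coordH_apply, smul_eq_mul, Pi.zero_apply] at this
      omega
    · have := h1 (.inl (.inr (.inr ())))
      simp only [lamX, lamF, AddMonoidHom.sub_apply, muH_apply, Pi.zero_apply] at this
      omega
    · have := h2 (.inl (.inr (.inr ()))) (mem_EX4.2 ht)
      simp only [lamX, lamF, AddMonoidHom.sub_apply, muH_apply, Pi.zero_apply] at this
      omega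
    · have := h1 (.inr k)
      rw [lamX_inr_neg hk] at this
      simp only [AddMonoidHom.neg_apply, Pi.zero_apply] at this
      omega
    · have := h1 (.inr k)
      rw [lamX_inr_pos hk] at this
      exact this
  · rintro ⟨⟨h1, h2⟩, h3, h4, ⟨h5, h6⟩, h7, h8⟩
    constructor
    · rintro (((j | v) | (j | _)) | k)
      · exact h2 j
      · have := (h3 v.1 v.2).2
        simp only [lamX, lamF, AddMonoidHom.sub_apply, Pi.zero_apply]
        omega
      · have := (h4 j).2
        simp only [lamX, lamF, AddMonoidHom.sub_apply, AddMonoidHom.smul_apply, muH_apply,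
            coordH_apply, smul_eq_mul, Pi.zero_apply]
        omega
      · simp only [lamX, lamF, AddMonoidHom.sub_apply, muH_apply, Pi.zero_apply]
        omega
      · by_cases hk : k ∈ B
        · rw [lamX_inr_neg hk]
          simp only [AddMonoidHom.neg_apply, Pi.zero_apply]
          have := h7 k hk
          omega
        · rw [lamX_inr_pos hk]
          exact h8 k hk
    · rintro (((j | v) | (j | _)) | k) hk
      · rw [mem_EX1] at hk
        exact h1 j hk
      · rw [mem_EX2] at hk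
        have := (h3 v.1 v.2).1 hk
        simp only [lamX, lamF, AddMonoidHom.sub_apply, Pi.zero_apply]
        omega
      · rw [mem_EX3] at hk
        have := (h4 j).1 hk
        simp only [lamX, lamF, AddMonoidHom.sub_apply, AddMonoidHom.smul_apply, muH_apply,
            coordH_apply, smul_eq_mul, Pi.zero_apply]
        omega
      · rw [mem_EX4] at hk
        have := h6 hk
        simp only [lamX, lamF, AddMonoidHom.sub_apply, muH_apply, Pi.zero_apply]
        omega
      · exact absurd hk (by rw [mem_EX5]; exact not_false)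

theorem lamX_inj (f : MvPolynomial (Fin n) ℂ) (K : ℕ) (v₀ : Fin n →₀ ℕ) (kap : κ → GG n →+ ℤ)
    (B : Finset κ) (z : GG n) (h : ∀ k, lamX f K v₀ kap B k z = 0) : z = 0 :=
  lamF_inj f K v₀ z fun k => h (.inl k)

end

/-- A piece. -/
def PX (f : MvPolynomial (Fin n) ℂ) (K : ℕ) (J : Finset (Fin n)) (I : Finset (Fin n →₀ ℕ))
    (S : Finset (Fin n)) (ty : ℕ) [Fintype κ] (kap : κ → GG n →+ ℤ) (B : Finset κ) : Set (GG n) :=
  PSet (lamX f K (v0 I) kap B) (cX f K J I S ty B) (EX f κ J I S ty)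

/-- The measure of an order stratum. -/
def Wc (f : MvPolynomial (Fin n) ℂ) (N m : ℕ) (a : Fin n → ℕ) : Mot :=
  if nuf f a = m then
    c0 f (face f a (nuf f a)) (SS N a) * ↑(LU ^ (-((∑ j, a j : ℕ) : ℤ)))
  else if nuf f a < m then
    c1 f (face f a (nuf f a)) (SS N a) * ↑(LU ^ (-((∑ j, a j : ℕ) + (m - nuf f a : ℕ) : ℤ)))
  else 0

/-- The order vectors with `a_i = 0` for `i ∈ J` and `1 ≤ a_i ≤ N` for `i ∉ J`. -/
def boxJ (J : Finset (Fin n)) (N : ℕ) : Finset (Fin n → ℕ) :=
  Fintype.piFinset fun i => if i ∈ J then {0} else Finset.Icc 1 N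

theorem mem_boxJ {J : Finset (Fin n)} {N : ℕ} {a : Fin n → ℕ} :
    a ∈ boxJ J N ↔ (∀ j ∈ J, a j = 0) ∧ ∀ j ∉ J, 1 ≤ a j ∧ a j ≤ N := by
  unfold boxJ
  rw [Fintype.mem_piFinset]
  constructor
  · intro h
    refine ⟨fun j hj => ?_, fun j hj => ?_⟩
    · have := h j
      rw [if_pos hj] at this
      exact Finset.mem_singleton.1 this
    · have := h j
      rw [if_neg hj] at this
      exact Finset.mem_Icc.1 this
  · rintro ⟨h1, h2⟩ j
    split_ifs with hj
    · exact Finset.mem_singleton.2 (h1 j hj)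
    · exact Finset.mem_Icc.2 (h2 j hj)

/-- The integer vector of an order vector. -/
def zv (a : Fin n → ℕ) : Fin n → ℤ := fun i => (a i : ℤ)

/-- The part of the zeta function with `a_i = 0` exactly for `i ∈ J`, with the variables `x`. -/
def ZJx (f : MvPolynomial (Fin n) ℂ) (K : ℕ) (J : Finset (Fin n))
    (θ : (Fin n → ℤ) →+ (Fin n → ℤ)) : PowerSeries (RX n) :=
  PowerSeries.mk fun m => ∑ a ∈ boxJ J (K * (m + 1)),
    AddMonoidAlgebra.single (θ (zv a)) (Wc f (K * (m + 1)) m a)

/-- The part of the zeta function with `a_i = 0` exactly for `i ∈ J`. -/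
def ZJm (f : MvPolynomial (Fin n) ℂ) (K : ℕ) (J : Finset (Fin n)) : PowerSeries Mot :=
  PowerSeries.mk fun m => ∑ a ∈ boxJ J (K * (m + 1)), Wc f (K * (m + 1)) m a

open Classical in
/-- The pattern of the additional forms at an order vector. -/
def patX [Fintype κ] (kap : κ → GG n →+ ℤ) (m : ℕ) (a : Fin n → ℕ) : Finset κ :=
  Finset.univ.filter fun k => kap k (emb m a) ≤ 0

theorem mem_patX [Fintype κ] {kap : κ → GG n →+ ℤ} {m : ℕ} {a : Fin n → ℕ} {k : κ} :
    k ∈ patX kap m a ↔ kap k (emb m a) ≤ 0 := by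
  simp [patX]

open Classical in
/-- The part with a given pattern. -/
def ZPx (f : MvPolynomial (Fin n) ℂ) (K : ℕ) (J : Finset (Fin n))
    (θ : (Fin n → ℤ) →+ (Fin n → ℤ)) [Fintype κ] (kap : κ → GG n →+ ℤ) (B : Finset κ) :
    PowerSeries (RX n) :=
  PowerSeries.mk fun m => ∑ a ∈ (boxJ J (K * (m + 1))).filter (fun a => patX kap m a = B),
    AddMonoidAlgebra.single (θ (zv a)) (Wc f (K * (m + 1)) m a)

end MPb07157
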