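import Pool.Agent.Lib.MP_b07157_ag.NewtMain

/-!
# Power series with prescribed denominators: definitions
-/

noncomputable section

namespace MPb07157

open Finset

section Reg

variable {R : Type} [CommRing R]

/-- The factor `1 - u X^b`. -/
def fac (w : Rˣ × ℕ) : Polynomial R := 1 - Polynomial.C (w.1 : R) * Polynomial.X ^ w.2

/-- `F` is a quotient of a polynomial by a product of factors `1 - u X^b` with `(u, b) ∈ W`,
`b > 0`. -/
def RegP (W : Set (Rˣ × ℕ)) (F : PowerSeries R) : Prop :=
  ∃ (s : Multiset (Rˣ × ℕ)) (p : Polynomial R), (∀ w ∈ s, w ∈ W ∧ 0 < w.2) ∧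
    (((s.map fac).prod : Polynomial R) : PowerSeries R) * F = (p : PowerSeries R)

/-- If the factor of `w` divides `(factor of z) * a`, then it divides `a`. -/
def CoP (w z : Rˣ × ℕ) : Prop :=
  ∀ a b : Polynomial R, fac z * a = fac w * b → ∃ c, a = fac w * c

end Reg

section GenR

variable {G ι R : Type} [AddCommGroup G] [Fintype ι] [CommRing R] (lam : ι → G →+ ℤ)

/-- The generating function `∑_{z ∈ Q} om(z) X^{mu z}`. -/
def genR (om : Multiplicative G →* Rˣ) (mu : G →+ ℤ) (Q : Set G) : PowerSeries R :=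
  PowerSeries.mk fun m => ∑ᶠ z ∈ {z ∈ Q | mu z = m}, ((om (Multiplicative.ofAdd z) : Rˣ) : R)

/-- The pair of a ray. -/
def rayP (om : Multiplicative G →* Rˣ) (mu : G →+ ℤ) (z : G) : Rˣ × ℕ :=
  (om (Multiplicative.ofAdd z), (mu z).toNat)

end GenR

end MPb07157
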