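import Pool.Agent.Lib.MP_b07157_ag.N3.Cls1

/-!
# The special facet: class relations
-/

noncomputable section

namespace MPb07157

open MvPolynomial Finset

/-- The exponents with coordinates `(1, 0)` at `(j, k)`. -/
def V1s (f : MvPolynomial (Fin 3) ℂ) (j k : Fin 3) : Finset (Fin 3 →₀ ℕ) :=
  f.support.filter fun v => v j = 1 ∧ v k = 0

private theorem sp1_tri {i j k : Fin 3} (hij : i ≠ j) (hik : i ≠ k) (hjk : j ≠ k) (l : Fin 3) :
    l = i ∨ l = j ∨ l = k := by
  revert i j k l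
  decide

/-- The coefficient of `x_j` as a polynomial in one variable. -/
private def sp1Al (f : MvPolynomial (Fin 3) ℂ) (i j k : Fin 3) : Polynomial ℂ :=
  ∑ v ∈ V1s f j k, Polynomial.monomial (v i) (coeff v f)

private theorem sp1_inForm (f : MvPolynomial (Fin 3) ℂ) {i j k : Fin 3} (hij : i ≠ j)
    (hik : i ≠ k) (hjk : j ≠ k) :
    inForm f (V1s f j k) = X j * Polynomial.aeval (X i) (sp1Al f i j k) := by
  unfold inForm sp1Al
  rw [map_sum, Finset.mul_sum]
  refine Finset.sum_congr rfl fun v hv => ?_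
  obtain ⟨_, hvj, hvk⟩ := Finset.mem_filter.1 hv
  rw [Polynomial.aeval_monomial]
  have h1 : v = Finsupp.single j 1 + Finsupp.single i (v i) := by
    ext l
    rcases sp1_tri hij hik hjk l with rfl | rfl | rfl
    · simp [Finsupp.single_eq_of_ne hij]
    · simp [hvj, Finsupp.single_eq_of_ne hij.symm]
    · simp [hvk, Finsupp.single_eq_of_ne hjk.symm, Finsupp.single_eq_of_ne hik.symm]
  have h2 : (algebraMap ℂ (MvPolynomial (Fin 3) ℂ)) (coeff v f) * X i ^ (v i) =
      monomial (Finsupp.single i (v i)) (coeff v f) := by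
    rw [MvPolynomial.algebraMap_eq, C_mul_X_pow_eq_monomial]
  rw [h2, X, monomial_mul, one_mul, ← h1]

private theorem sp1_eval {σ : Type} (p : Polynomial ℂ) (i : σ) (x : σ → ℂ) :
    eval x (Polynomial.aeval (X i : MvPolynomial σ ℂ) p) = p.eval (x i) := by
  rw [Polynomial.aeval_def, Polynomial.hom_eval₂, eval_X]
  have h : (eval x).comp (algebraMap ℂ (MvPolynomial σ ℂ)) = RingHom.id ℂ := by
    ext c
    simp
  rw [h, Polynomial.eval₂_id]

private theorem sp1_evalForm (f : MvPolynomial (Fin 3) ℂ) {i j k : Fin 3} (hij : i ≠ j)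
    (hik : i ≠ k) (hjk : j ≠ k) (x : Fin 3 → ℂ) :
    eval x (inForm f (V1s f j k)) = x j * (sp1Al f i j k).eval (x i) := by
  rw [sp1_inForm f hij hik hjk, map_mul, eval_X, sp1_eval]

private theorem sp1_pderiv (f : MvPolynomial (Fin 3) ℂ) {i j k : Fin 3} (hij : i ≠ j)
    (hik : i ≠ k) (hjk : j ≠ k) (x : Fin 3 → ℂ) (l : Fin 3) :
    eval x (pderiv l (inForm f (V1s f j k))) =
      (if l = j then (sp1Al f i j k).eval (x i) else 0) +
        (if l = i then x j * (sp1Al f i j k).derivative.eval (x i) else 0) := by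
  rw [sp1_inForm f hij hik hjk, Derivation.leibniz, Derivation.map_aeval, map_add]
  simp only [smul_eq_mul, map_mul, eval_X, sp1_eval]
  have h1 : ∀ a : Fin 3, eval x (pderiv l (X a : MvPolynomial (Fin 3) ℂ)) =
      if l = a then 1 else 0 := by
    intro a
    rw [pderiv_X, Pi.single_apply]
    by_cases h : l = a
    · rw [if_pos h.symm, if_pos h, map_one]
    · rw [if_neg (fun h' => h h'.symm), if_neg h, map_zero]
  rw [h1, h1]
  split_ifs <;> ring

private theorem sp1_union (f : MvPolynomial (Fin 3) ℂ) (j k : Fin 3) :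
    inForm f (V1s f j k ∪ V1s f k j) = inForm f (V1s f j k) + inForm f (V1s f k j) := by
  unfold inForm
  refine Finset.sum_union ?_
  rw [Finset.disjoint_left]
  intro v h1 h2
  have e1 := (Finset.mem_filter.1 h1).2.1
  have e2 := (Finset.mem_filter.1 h2).2.2
  rw [e1] at e2
  exact absurd e2 (by norm_num)

/-- The two coefficients have no common nonzero root. -/
private theorem sp1_disj {f : MvPolynomial (Fin 3) ℂ} {i j k : Fin 3} (hij : i ≠ j) (hik : i ≠ k)
    (hjk : j ≠ k) (hnd : NondegAt f (V1s f j k ∪ V1s f k j)) (hnd1 : NondegAt f (V1s f j k))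
    (hnd2 : NondegAt f (V1s f k j)) (t : ℂ) (ht : t ≠ 0) (ha : (sp1Al f i j k).eval t = 0)
    (hb : (sp1Al f i k j).eval t = 0) : False := by
  have hda : (sp1Al f i j k).derivative.eval t ≠ 0 := by
    obtain ⟨l, hl⟩ := hnd1 (fun l => if l = i then t else 1) (fun l => by
      split_ifs
      · exact ht
      · exact one_ne_zero) (by
      rw [sp1_evalForm f hij hik hjk, if_pos rfl, ha, mul_zero])
    rw [sp1_pderiv f hij hik hjk, if_pos rfl, ha] at hl
    intro h0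
    apply hl
    rw [h0]
    simp
  have hdb : (sp1Al f i k j).derivative.eval t ≠ 0 := by
    obtain ⟨l, hl⟩ := hnd2 (fun l => if l = i then t else 1) (fun l => by
      split_ifs
      · exact ht
      · exact one_ne_zero) (by
      rw [sp1_evalForm f hik hij hjk.symm, if_pos rfl, hb, mul_zero])
    rw [sp1_pderiv f hik hij hjk.symm, if_pos rfl, hb] at hl
    intro h0
    apply hl
    rw [h0]
    simp
  set x : Fin 3 → ℂ := fun l => if l = i then t else if l = j then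
    (sp1Al f i k j).derivative.eval t else -(sp1Al f i j k).derivative.eval t with hx
  have hxi : x i = t := by simp [hx]
  have hxj : x j = (sp1Al f i k j).derivative.eval t := by simp [hx, hij.symm]
  have hxk : x k = -(sp1Al f i j k).derivative.eval t := by simp [hx, hik.symm, hjk.symm]
  obtain ⟨l, hl⟩ := hnd x (fun l => by
    rcases sp1_tri hij hik hjk l with rfl | rfl | rfl
    · rw [hxi]; exact ht
    · rw [hxj]; exact hdb
    · rw [hxk]; exact neg_ne_zero.2 hda) (by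
    rw [sp1_union, map_add, sp1_evalForm f hij hik hjk, sp1_evalForm f hik hij hjk.symm, hxi, ha,
      hb]
    ring)
  apply hl
  rw [sp1_union, map_add, map_add, sp1_pderiv f hij hik hjk, sp1_pderiv f hik hij hjk.symm, hxi,
    hxj, hxk, ha, hb]
  split_ifs <;> ring

/-- The nonzero roots of a polynomial. -/
private def sp1A (p : Polynomial ℂ) : Set (Fin 1 → ℂ) := {x | x 0 ≠ 0 ∧ p.eval (x 0) = 0}

/-- The nonzero points which are not roots of two polynomials. -/
private def sp1G (p q : Polynomial ℂ) : Set (Fin 1 → ℂ) :=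
  {x | x 0 ≠ 0 ∧ p.eval (x 0) ≠ 0 ∧ q.eval (x 0) ≠ 0}

private theorem sp1_zero (p : Polynomial ℂ) : IsConstr {x : Fin 1 → ℂ | p.eval (x 0) = 0} := by
  have := isConstr_eq_zero (Polynomial.aeval (X 0 : MvPolynomial (Fin 1) ℂ) p)
  simpa only [sp1_eval] using this

private theorem sp1_ne (p : Polynomial ℂ) : IsConstr {x : Fin 1 → ℂ | p.eval (x 0) ≠ 0} := by
  have := isConstr_ne_zero (Polynomial.aeval (X 0 : MvPolynomial (Fin 1) ℂ) p)
  simpa only [sp1_eval] using this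

private theorem sp1_cA (p : Polynomial ℂ) : IsConstr (sp1A p) :=
  isConstr_setOf_and isConstr_torus1 (sp1_zero p)

private theorem sp1_cG (p q : Polynomial ℂ) : IsConstr (sp1G p q) :=
  isConstr_setOf_and isConstr_torus1 (isConstr_setOf_and (sp1_ne p) (sp1_ne q))

private theorem sp1_line {p q : Polynomial ℂ}
    (h : ∀ t : ℂ, t ≠ 0 → p.eval t = 0 → q.eval t = 0 → False) :
    cls (sp1A p) + cls (sp1A q) + cls (sp1G p q) = L - 1 := by
  have d1 : Disjoint (sp1A p) (sp1A q) := by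
    rw [Set.disjoint_left]
    intro x h1 h2
    exact h _ h1.1 h1.2 h2.2
  have d2 : Disjoint (sp1A p ∪ sp1A q) (sp1G p q) := by
    rw [Set.disjoint_left]
    rintro x (h1 | h1) h2
    · exact h2.2.1 h1.2
    · exact h2.2.2 h1.2
  rw [← cls_union (sp1_cA p) (sp1_cA q) d1,
    ← cls_union ((sp1_cA p).union (sp1_cA q)) (sp1_cG p q) d2, ← cls_torus1]
  congr 1
  ext x
  simp only [Set.mem_union, sp1A, sp1G, Set.mem_ofPred_eq]
  tauto

/-- The coordinates `i`, `j`. -/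
private def sp1E {i j k : Fin 3} (hij : i ≠ j) (hik : i ≠ k) (hjk : j ≠ k) :
    Fin 1 ⊕ Fin 1 ≃ {l // l ∉ ({k} : Finset (Fin 3))} :=
  Equiv.ofBijective (fun s => match s with
    | .inl _ => ⟨i, by simpa using hik⟩
    | .inr _ => ⟨j, by simpa using hjk⟩) (by
    constructor
    · rintro (a | a) (b | b) h
      · rw [Subsingleton.elim a b]
      · simp only [Subtype.mk.injEq] at h
        exact absurd h hij
      · simp only [Subtype.mk.injEq] at h
        exact absurd h.symm hij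
      · rw [Subsingleton.elim a b]
    · rintro ⟨l, hl⟩
      have hl' : l ≠ k := by simpa using hl
      rcases sp1_tri hij hik hjk l with rfl | rfl | rfl
      · exact ⟨.inl 0, rfl⟩
      · exact ⟨.inr 0, rfl⟩
      · exact absurd rfl hl')

private theorem sp1_card {i j k : Fin 3} (hij : i ≠ j) (hik : i ≠ k) (hjk : j ≠ k) :
    Fintype.card {l // l ∉ ({k} : Finset (Fin 3))} = 2 := by
  rw [← Fintype.card_congr (sp1E hij hik hjk)]
  simp

private theorem sp1_card0 : Fintype.card {l // l ∉ (∅ : Finset (Fin 3))} = 3 := by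
  simp

/-- The class of the zeros of `x_j α(x_i)`. -/
private theorem sp1_XS1 (f : MvPolynomial (Fin 3) ℂ) {i j k : Fin 3} (hij : i ≠ j) (hik : i ≠ k)
    (hjk : j ≠ k) :
    clsM (XS f (V1s f j k) {k}) =
      algebraMap K0 Mot (cls (sp1A (sp1Al f i j k))) * ((LU : Mot) - 1) := by
  have h := cls_mul_torus (sp1E hij hik hjk) (sp1_cA (sp1Al f i j k))
  have hi : i ∉ ({k} : Finset (Fin 3)) := by simpa using hik
  have hj : j ∉ ({k} : Finset (Fin 3)) := by simpa using hjk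
  have h2 : {x : {l // l ∉ ({k} : Finset (Fin 3))} → ℂ |
      (fun a => x (sp1E hij hik hjk (Sum.inl a))) ∈ sp1A (sp1Al f i j k) ∧
      x (sp1E hij hik hjk (Sum.inr 0)) ≠ 0} = XS f (V1s f j k) {k} := by
    ext u
    have e1 : ext0 {k} u i = u ⟨i, hi⟩ := by rw [ext0, dif_pos hi]
    have e2 : ext0 {k} u j = u ⟨j, hj⟩ := by rw [ext0, dif_pos hj]
    have e3 : u (sp1E hij hik hjk (Sum.inr 0)) = u ⟨j, hj⟩ := rfl
    have e4 : u (sp1E hij hik hjk (Sum.inl 0)) = u ⟨i, hi⟩ := rfl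
    simp only [Set.mem_ofPred_eq, XS, e3, e4, sp1A, sp1_evalForm f hij hik hjk, e1, e2]
    constructor
    · rintro ⟨⟨h1, h2⟩, h3⟩
      refine ⟨?_, by rw [h2, mul_zero]⟩
      rintro ⟨l, hl⟩
      have hl' : l ≠ k := by simpa using hl
      rcases sp1_tri hij hik hjk l with rfl | rfl | rfl
      · exact h1
      · exact h3
      · exact absurd rfl hl'
    · rintro ⟨h1, h2⟩
      exact ⟨⟨h1 _, (mul_eq_zero.1 h2).resolve_left (h1 _)⟩, h1 _⟩
  rw [h2] at h
  unfold clsM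
  rw [h, map_mul, map_sub, map_one]
  rfl

/-- The class of the zeros of `x_j α(x_i) + x_k β(x_i)`. -/
private theorem sp1_XS0 (f : MvPolynomial (Fin 3) ℂ) {i j k : Fin 3} (hij : i ≠ j) (hik : i ≠ k)
    (hjk : j ≠ k) (hd : ∀ t : ℂ, t ≠ 0 → (sp1Al f i j k).eval t = 0 →
      (sp1Al f i k j).eval t = 0 → False) :
    clsM (XS f (V1s f j k ∪ V1s f k j) ∅) =
      algebraMap K0 Mot (cls (sp1G (sp1Al f i j k) (sp1Al f i k j))) * ((LU : Mot) - 1) := by
  have h := cls_mul_torus (sp1E hik hij hjk.symm)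
    (sp1_cG (sp1Al f i j k) (sp1Al f i k j))
  have hi : i ∉ ({j} : Finset (Fin 3)) := by simpa using hij
  have hk : k ∉ ({j} : Finset (Fin 3)) := by simpa using hjk.symm
  have h0 : ∀ l : Fin 3, l ∉ (∅ : Finset (Fin 3)) := fun l => Finset.notMem_empty l
  have ee : ∀ (u : {l // l ∉ (∅ : Finset (Fin 3))} → ℂ) (l : Fin 3),
      ext0 ∅ u l = u ⟨l, h0 l⟩ := fun u l => by rw [ext0, dif_pos (h0 l)]
  set T : Set ({l // l ∉ ({j} : Finset (Fin 3))} → ℂ) :=
    {x | (fun a => x (sp1E hik hij hjk.symm (Sum.inl a))) ∈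
      sp1G (sp1Al f i j k) (sp1Al f i k j) ∧ x (sp1E hik hij hjk.symm (Sum.inr 0)) ≠ 0} with hT
  have hTmem : ∀ x : {l // l ∉ ({j} : Finset (Fin 3))} → ℂ, x ∈ T ↔
      (x ⟨i, hi⟩ ≠ 0 ∧ (sp1Al f i j k).eval (x ⟨i, hi⟩) ≠ 0 ∧
        (sp1Al f i k j).eval (x ⟨i, hi⟩) ≠ 0) ∧ x ⟨k, hk⟩ ≠ 0 := fun x => Iff.rfl
  have hTc : IsConstr T :=
    isConstr_setOf_and ((sp1_cG (sp1Al f i j k) (sp1Al f i k j)).reindex
      (fun a => sp1E hik hij hjk.symm (Sum.inl a))) (by
      have := isConstr_ne_zero (X (sp1E hik hij hjk.symm (Sum.inr 0)) :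
        MvPolynomial {l // l ∉ ({j} : Finset (Fin 3))} ℂ)
      simpa only [eval_X] using this)
  have hmem : ∀ u : {l // l ∉ (∅ : Finset (Fin 3))} → ℂ,
      u ∈ XS f (V1s f j k ∪ V1s f k j) ∅ ↔ (∀ l, u l ≠ 0) ∧
        u ⟨j, h0 j⟩ * (sp1Al f i j k).eval (u ⟨i, h0 i⟩) +
        u ⟨k, h0 k⟩ * (sp1Al f i k j).eval (u ⟨i, h0 i⟩) = 0 := by
    intro u
    simp only [XS, Set.mem_ofPred_eq, sp1_union, map_add, sp1_evalForm f hij hik hjk,
      sp1_evalForm f hik hij hjk.symm, ee]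
  have hbij : cls (XS f (V1s f j k ∪ V1s f k j) ∅) = cls T := by
    refine cls_bijOn (isConstr_XS f _ ∅) hTc (fun l => X ⟨l.1, h0 l.1⟩) ?_
    have hpm : polyMap (fun l : {l // l ∉ ({j} : Finset (Fin 3))} =>
        (X ⟨l.1, h0 l.1⟩ : MvPolynomial {l // l ∉ (∅ : Finset (Fin 3))} ℂ)) =
        fun u l => u ⟨l.1, h0 l.1⟩ := by
      funext u
      rw [polyMap_X]
    rw [hpm]
    refine ⟨?_, ?_, ?_⟩
    · intro u hu
      rw [hmem] at hu
      obtain ⟨h1, h2⟩ := hu
      rw [hTmem]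
      refine ⟨⟨h1 _, ?_, ?_⟩, h1 _⟩
      · intro ha
        change (sp1Al f i j k).eval (u ⟨i, h0 i⟩) = 0 at ha
        rw [ha, mul_zero, zero_add] at h2
        exact hd _ (h1 _) ha ((mul_eq_zero.1 h2).resolve_left (h1 _))
      · intro hb
        change (sp1Al f i k j).eval (u ⟨i, h0 i⟩) = 0 at hb
        rw [hb, mul_zero, add_zero] at h2
        exact hd _ (h1 _) ((mul_eq_zero.1 h2).resolve_left (h1 _)) hb
    · intro u hu w hw huw
      rw [hmem] at hu hw
      have hui : u ⟨i, h0 i⟩ = w ⟨i, h0 i⟩ := congrFun huw ⟨i, hi⟩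
      have huk : u ⟨k, h0 k⟩ = w ⟨k, h0 k⟩ := congrFun huw ⟨k, hk⟩
      have ha : (sp1Al f i j k).eval (u ⟨i, h0 i⟩) ≠ 0 := by
        intro ha
        have h2 := hu.2
        rw [ha, mul_zero, zero_add] at h2
        exact hd _ (hu.1 _) ha ((mul_eq_zero.1 h2).resolve_left (hu.1 _))
      have hjj : u ⟨j, h0 j⟩ = w ⟨j, h0 j⟩ := by
        have h1 := hu.2
        have h2 := hw.2
        rw [← hui, ← huk] at h2
        have h3 : u ⟨j, h0 j⟩ * (sp1Al f i j k).eval (u ⟨i, h0 i⟩) =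
            w ⟨j, h0 j⟩ * (sp1Al f i j k).eval (u ⟨i, h0 i⟩) := by
          linear_combination h1 - h2
        exact mul_right_cancel₀ ha h3
      funext l
      obtain ⟨l, hl⟩ := l
      rcases sp1_tri hij hik hjk l with rfl | rfl | rfl
      · exact hui
      · exact hjj
      · exact huk
    · intro w hw
      rw [hTmem] at hw
      obtain ⟨⟨h1, h2, h3⟩, h4⟩ := hw
      set u : {l // l ∉ (∅ : Finset (Fin 3))} → ℂ := fun l =>
        if h : l.1 = j then -(w ⟨k, hk⟩ * (sp1Al f i k j).eval (w ⟨i, hi⟩)) /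
          (sp1Al f i j k).eval (w ⟨i, hi⟩) else w ⟨l.1, by simpa using h⟩ with hu
      have ui : u ⟨i, h0 i⟩ = w ⟨i, hi⟩ := by simp only [hu, dif_neg hij]
      have uk : u ⟨k, h0 k⟩ = w ⟨k, hk⟩ := by simp only [hu, dif_neg hjk.symm]
      have uj : u ⟨j, h0 j⟩ = -(w ⟨k, hk⟩ * (sp1Al f i k j).eval (w ⟨i, hi⟩)) /
          (sp1Al f i j k).eval (w ⟨i, hi⟩) := by simp [hu]
      refine ⟨u, ?_, ?_⟩
      · rw [hmem]
        constructor
        · rintro ⟨l, hl⟩
          rcases sp1_tri hij hik hjk l with rfl | rfl | rfl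
          · rw [ui]; exact h1
          · rw [uj]; exact div_ne_zero (neg_ne_zero.2 (mul_ne_zero h4 h3)) h2
          · rw [uk]; exact h4
        · rw [ui, uk, uj, div_mul_cancel₀ _ h2]
          ring
      · funext l
        obtain ⟨l, hl⟩ := l
        have hl' : l ≠ j := by simpa using hl
        simp only [hu, dif_neg hl']
  unfold clsM
  rw [hbij, hT, h, map_mul, map_sub, map_one]
  rfl

private theorem sp1_L2 : (↑(LU ^ (-1 : ℤ)) : Mot) * ↑(LU ^ (-2 : ℤ)) = ↑(LU ^ (-3 : ℤ)) := by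
  rw [← Units.val_mul, ← zpow_add]
  norm_num

private theorem sp1_L3 : (LU : Mot) * ↑(LU ^ (-3 : ℤ)) = ↑(LU ^ (-2 : ℤ)) := by
  have : (LU : Mot) = ((LU ^ (1 : ℤ) : Motˣ) : Mot) := by rw [zpow_one]
  rw [this, ← Units.val_mul, ← zpow_add]
  norm_num

private theorem sp1_lineM {f : MvPolynomial (Fin 3) ℂ} {i j k : Fin 3}
    (hd : ∀ t : ℂ, t ≠ 0 → (sp1Al f i j k).eval t = 0 →
      (sp1Al f i k j).eval t = 0 → False) :
    algebraMap K0 Mot (cls (sp1A (sp1Al f i j k))) +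
      algebraMap K0 Mot (cls (sp1A (sp1Al f i k j))) +
      algebraMap K0 Mot (cls (sp1G (sp1Al f i j k) (sp1Al f i k j))) = (LU : Mot) - 1 := by
  rw [← map_add, ← map_add, sp1_line hd, map_sub, map_one]
  rfl

theorem special_c0 {f : MvPolynomial (Fin 3) ℂ} {i j k : Fin 3} (hij : i ≠ j) (hik : i ≠ k)
    (hjk : j ≠ k) (hnd : NondegAt f (V1s f j k ∪ V1s f k j)) (hnd1 : NondegAt f (V1s f j k))
    (hnd2 : NondegAt f (V1s f k j)) :
    c0 f (V1s f j k ∪ V1s f k j) ∅ +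
      ↑(LU ^ (-1 : ℤ)) * (c0 f (V1s f j k) {k} + c0 f (V1s f k j) {j}) =
      ((LU : Mot) - 1) ^ 2 * ↑(LU ^ (-2 : ℤ)) := by
  have hd := sp1_disj hij hik hjk hnd hnd1 hnd2
  have a1 := clsM_XS_add_YS f (V1s f j k) {k}
  have a2 := clsM_XS_add_YS f (V1s f k j) {j}
  have a3 := clsM_XS_add_YS f (V1s f j k ∪ V1s f k j) ∅
  rw [sp1_XS1 f hij hik hjk, sp1_card hij hik hjk] at a1
  rw [sp1_XS1 f hik hij hjk.symm, sp1_card hik hij hjk.symm] at a2
  rw [sp1_XS0 f hij hik hjk hd, sp1_card0] at a3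
  have a4 := sp1_lineM hd
  unfold c0
  rw [sp1_card hij hik hjk, sp1_card hik hij hjk.symm, sp1_card0]
  have e2 : (-((2 : ℕ) : ℤ)) = -2 := by norm_num
  have e3 : (-((3 : ℕ) : ℤ)) = -3 := by norm_num
  rw [e2, e3]
  linear_combination (clsM (YS f (V1s f j k) {k}) + clsM (YS f (V1s f k j) {j})) * sp1_L2 +
    ((LU : Mot) - 1) ^ 2 * sp1_L3 + (↑(LU ^ (-3 : ℤ)) : Mot) * (a1 + a2 + a3) -
    (↑(LU ^ (-3 : ℤ)) * ((LU : Mot) - 1)) * a4

theorem special_c1 {f : MvPolynomial (Fin 3) ℂ} {i j k : Fin 3} (hij : i ≠ j) (hik : i ≠ k)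
    (hjk : j ≠ k) (hnd : NondegAt f (V1s f j k ∪ V1s f k j)) (hnd1 : NondegAt f (V1s f j k))
    (hnd2 : NondegAt f (V1s f k j)) :
    c1 f (V1s f j k ∪ V1s f k j) ∅ +
      ↑(LU ^ (-1 : ℤ)) * (c1 f (V1s f j k) {k} + c1 f (V1s f k j) {j}) =
      ((LU : Mot) - 1) ^ 3 * ↑(LU ^ (-3 : ℤ)) := by
  have hd := sp1_disj hij hik hjk hnd hnd1 hnd2
  have a4 := sp1_lineM hd
  unfold c1
  rw [sp1_XS1 f hij hik hjk, sp1_XS1 f hik hij hjk.symm, sp1_XS0 f hij hik hjk hd,
    sp1_card hij hik hjk, sp1_card hik hij hjk.symm, sp1_card0]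
  have e2 : (-((2 : ℕ) : ℤ)) = -2 := by norm_num
  have e3 : (-((3 : ℕ) : ℤ)) = -3 := by norm_num
  rw [e2, e3, ← sp1_L2]
  linear_combination (↑(LU ^ (-1 : ℤ)) * ↑(LU ^ (-2 : ℤ)) * ((LU : Mot) - 1) ^ 2) * a4

end MPb07157
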